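import Pool.Agent.Lib.MP_776403_ag.SD.LI.Spec
import Pool.Agent.Lib.MP_776403_ag.SD.J.Sur
import Pool.Agent.Lib.MP_776403_ag.SD.J.Asm
import Pool.Agent.Lib.MP_776403_ag.SD.E.Hom
import Pool.Agent.Lib.MP_776403_ag.SD.E.LinB
import Pool.Agent.Lib.MP_776403_ag.SD.E.CrL
import Pool.Agent.Lib.MP_776403_ag.SD.E.LineI

/-!
# LEMMA P1: assembly (helper82)
-/

set_option autoImplicit false

open MvPolynomial

noncomputable section

namespace Pool.Agent.Lib.MP_776403_ag.SD.LI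

namespace PaAux

variable {N : ℕ}

theorem isLine_add {I : Ideal (Sx N)} {x v : Vx N} (hl : IsLine I x v) (μ : ℂ) :
    IsLine I x (v + μ • x) := by
  refine ⟨?_, fun s t => ?_⟩
  · have hind := hl.1
    rw [LinearIndependent.pair_iff] at hind ⊢
    intro s t hst
    have e : s • x + t • (v + μ • x) = (s + t * μ) • x + t • v := by module
    rw [e] at hst
    obtain ⟨h1, h2⟩ := hind _ _ hst
    refine ⟨?_, h2⟩
    rw [h2, zero_mul, add_zero] at h1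
    exact h1
  · have e : s • x + t • (v + μ • x) = (s + t * μ) • x + t • v := by module
    rw [e]
    exact hl.2 _ _

theorem trv_add {I : Ideal (Sx N)} {x v z : Vx N} (h : Trv I ![x, v] z) (μ : ℂ) :
    Trv I ![x, v + μ • x] z := by
  intro a ha
  have h1 : ∑ j, (![a 0 + a 1 * μ, a 1] : Fin 2 → ℂ) j • (![x, v] : Fin 2 → Vx N) j =
      ∑ j, a j • (![x, v + μ • x] : Fin 2 → Vx N) j := by
    rw [Fin.sum_univ_two, Fin.sum_univ_two]
    change (a 0 + a 1 * μ) • x + a 1 • v = a 0 • x + a 1 • (v + μ • x)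
    module
  have h2 := h ![a 0 + a 1 * μ, a 1] (by rw [h1]; exact ha)
  have h3 : a 0 + a 1 * μ = 0 := congrFun h2 0
  have h4 : a 1 = 0 := congrFun h2 1
  rw [h4, zero_mul, add_zero] at h3
  funext i
  refine Fin.cases ?_ (fun j => ?_) i
  · exact h3
  · have h5 : j = 0 := Subsingleton.elim _ _
    rw [h5]
    exact h4

end PaAux

open PaAux in
/-- LEMMA P1. -/
theorem tPa : S_Good → S_Loc → S_Zs → S_Us → S_Qa → S_Qb → S_Hy → S_Hz → S_Cnt → S_Gro →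
    S_Pa := by
  intro hGood hLoc hZs hUs hQa hQb hHy hHz hCnt hGro N k n' D I hN hk hI hIh hnd hS hH x v hl hz
  have hx0 : x ≠ 0 := hl.1.ne_zero 0
  have hxI : x ∈ zer I := by
    have := hl.2 1 0
    rwa [one_smul, zero_smul, add_zero] at this
  obtain ⟨L⟩ := hLoc N (k + 1) I hS x hxI hx0
  obtain ⟨μ, hμ⟩ := hGood N (k + 1) I x v L
  have hl' : IsLine I x (v + μ • x) := isLine_add hl μ
  obtain ⟨z₀, hz₀I, hz₀0, hT⟩ := hz
  obtain ⟨z, hz, hzT⟩ := hZs N k I hI hIh hS hnd hk x (v + μ • x) hl'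
    ⟨z₀, hz₀I, hz₀0, trv_add hT μ⟩
  obtain ⟨u, hu⟩ := hUs N k I hI hIh hS x (v + μ • x) hl'
  obtain ⟨δ, p, q, hp, hpd, hpq, hRL⟩ := hQa N k I hI hIh hS x (v + μ • x) hl' L hμ u hu
  have hb := hQb N k I hI hIh hS x (v + μ • x) hl' L hμ u hu δ p q hp hpd hpq hRL
  obtain ⟨a, q₁, ρ, ρ₀, hLD⟩ := hHy N k n' I hN hI hIh hS x (v + μ • x) hl' u hu δ q hRL
  obtain ⟨b, w, hZD⟩ := hHz N k n' I hN hI hIh hS x (v + μ • x) hl' z hz hzT
  have hcnt := hCnt N k n' (k + 1) I hI hIh hS x (v + μ • x) hl' δ a q₁ ρ ρ₀ hLD z b w hZD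
  have hg : k + 1 + δ ≤ D :=
    hGro (n' + 1) (k + 1 + δ) D (δ + 1) (fun m hm => (hcnt m hm).trans (hH m))
  have hsur := (jSur (eHom eLinB) (eCrL eLinB) (eLineI eLinB)) N (k + 1) I hI hIh hS x
    (v + μ • x) hl' L hμ
  refine ⟨k + 1 + Module.finrank ℂ ((Fin (k + 1) → Polynomial ℂ) ⧸ L.E (v + μ • x)), by omega, ?_⟩
  unfold DegEq
  rw [← JAsmAux.lineI_add x v μ]
  filter_upwards [hsur] with m hm
  have e6 : (k + 1) * (m + 1) = (k + 1) * m + (k + 1) := by ring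
  omega

end Pool.Agent.Lib.MP_776403_ag.SD.LI
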