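import Pool.Agent.Lib.MP_776403_ag.SD.LI.Spec

/-! # LEMMA I, module TS: tangent spaces (helper63) -/

set_option autoImplicit false

open MvPolynomial

noncomputable section

namespace Pool.Agent.Lib.MP_776403_ag.SD.LI

variable {N : ℕ}

namespace TSAux

theorem dp_comm (a y : Vx N) : dp a y = dp y a := by
  unfold dp
  exact Finset.sum_congr rfl fun i _ => mul_comm _ _

theorem dp_add (a y y' : Vx N) : dp a (y + y') = dp a y + dp a y' := by
  simp only [dp, Pi.add_apply, mul_add, Finset.sum_add_distrib]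

theorem dp_smul (a y : Vx N) (r : ℂ) : dp a (r • y) = r * dp a y := by
  simp only [dp, Pi.smul_apply, smul_eq_mul, Finset.mul_sum]
  exact Finset.sum_congr rfl fun i _ => by ring

theorem add_dp (a a' y : Vx N) : dp (a + a') y = dp a y + dp a' y := by
  rw [dp_comm, dp_add, dp_comm, dp_comm y a']

theorem smul_dp (a y : Vx N) (r : ℂ) : dp (r • a) y = r * dp a y := by
  rw [dp_comm, dp_smul, dp_comm]

theorem sum_dp {ι : Type} (s : Finset ι) (a : ι → Vx N) (y : Vx N) :
    dp (∑ i ∈ s, a i) y = ∑ i ∈ s, dp (a i) y := by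
  classical
  induction s using Finset.induction_on with
  | empty => simp [dp]
  | insert b s hb ih => rw [Finset.sum_insert hb, Finset.sum_insert hb, add_dp, ih]

/-- The dot product as a bilinear form. -/
def bd (N : ℕ) : LinearMap.BilinForm ℂ (Vx N) :=
  LinearMap.mk₂ ℂ dp add_dp (fun r a y => smul_dp a y r) dp_add (fun r a y => dp_smul a y r)

theorem bd_apply (a y : Vx N) : bd N a y = dp a y := rfl

theorem bd_refl : (bd N).IsRefl := fun a y h => by
  rw [bd_apply] at h ⊢
  rw [dp_comm]
  exact h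

theorem dp_single (a : Vx N) (i : Fin (N + 1)) : dp a (Pi.single i 1) = a i := by
  unfold dp
  rw [Finset.sum_eq_single i]
  · rw [Pi.single_eq_same, mul_one]
  · intro j _ hj
    rw [Pi.single_eq_of_ne hj, mul_zero]
  · intro h
    exact absurd (Finset.mem_univ i) h

theorem bd_nd : (bd N).Nondegenerate := by
  refine ⟨fun a h => ?_, fun a h => ?_⟩
  · funext i
    rw [← dp_single a i]
    exact h _
  · funext i
    rw [← dp_single a i, dp_comm]
    exact h _

theorem mem_orth {W : Submodule ℂ (Vx N)} {y : Vx N} :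
    y ∈ (bd N).orthogonal W ↔ ∀ u ∈ W, dp u y = 0 := by
  rw [LinearMap.BilinForm.mem_orthogonal_iff]
  rfl

theorem ts_eq (I : Ideal (Sx N)) (z : Vx N) : TS I z = (bd N).orthogonal (CN I z) := by
  ext y
  rw [mem_orth]
  constructor
  · intro h u hu
    unfold CN at hu
    induction hu using Submodule.span_induction with
    | mem u hu =>
      obtain ⟨F, hF, rfl⟩ := hu
      exact h F hF
    | zero => simp [dp]
    | add u u' _ _ h1 h2 => rw [add_dp, h1, h2, add_zero]
    | smul r u _ h1 => rw [smul_dp, h1, mul_zero]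
  · intro h F hF
    exact h _ (Submodule.subset_span ⟨F, hF, rfl⟩)

/-- The sum of the components. -/
theorem grad_comp (F : Sx N) (z : Vx N) :
    grad F z = ∑ m ∈ Finset.range (F.totalDegree + 1), grad (homogeneousComponent m F) z := by
  rw [← grad_sum, sum_homogeneousComponent]

theorem euler {I : Ideal (Sx N)} (hH : IsHom I) {z : Vx N} (hz : z ∈ zer I) : z ∈ TS I z := by
  intro F hF
  rw [grad_comp, sum_dp]
  refine Finset.sum_eq_zero fun m _ => ?_
  have h1 := (homogeneousComponent_isHomogeneous m F).sum_X_mul_pderiv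
  have h2 := congrArg (eval z) h1
  rw [map_sum, map_nsmul, hz _ (hH F hF m), smul_zero] at h2
  rw [← h2]
  unfold dp grad
  refine Finset.sum_congr rfl fun i _ => ?_
  rw [map_mul, eval_X, mul_comm]

/-- The values of the tangent fields. -/
def TV (I : Ideal (Sx N)) (z : Vx N) : Submodule ℂ (Vx N) where
  carrier := {τ | ∃ w ∈ TF I, ∀ i, eval z (w i) = τ i}
  zero_mem' := ⟨0, fun F _ => by simp, fun i => by simp⟩
  add_mem' := by
    rintro τ τ' ⟨w, hw, h⟩ ⟨w', hw', h'⟩
    refine ⟨w + w', fun F hF => ?_, fun i => ?_⟩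
    · have h1 := I.add_mem (hw F hF) (hw' F hF)
      rw [← Finset.sum_add_distrib] at h1
      have h2 : ∑ i, pderiv i F * (w + w') i = ∑ i, (pderiv i F * w i + pderiv i F * w' i) :=
        Finset.sum_congr rfl fun i _ => by rw [Pi.add_apply, mul_add]
      rw [h2]
      exact h1
    · rw [Pi.add_apply, map_add, h, h', Pi.add_apply]
  smul_mem' := by
    rintro r τ ⟨w, hw, h⟩
    refine ⟨fun i => C r * w i, fun F hF => ?_, fun i => ?_⟩
    · have h1 := I.mul_mem_left (C r) (hw F hF)
      rw [Finset.mul_sum] at h1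
      have h2 : ∑ i, pderiv i F * (C r * w i) = ∑ i, C r * (pderiv i F * w i) :=
        Finset.sum_congr rfl fun i _ => by ring
      rw [h2]
      exact h1
    · rw [map_mul, eval_C, h, Pi.smul_apply, smul_eq_mul]

theorem ts_smul_le {I : Ideal (Sx N)} (hH : IsHom I) (a : ℂ) (z : Vx N) :
    TS I z ≤ TS I (a • z) := by
  intro y hy F hF
  rw [grad_comp, sum_dp]
  refine Finset.sum_eq_zero fun m _ => ?_
  rw [grad_smul_form (homogeneousComponent_isHomogeneous m F), smul_dp, hy _ (hH F hF m), mul_zero]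

end TSAux

open TSAux

theorem tTS : S_CN → S_Perp → S_TS := by
  intro _ hPp N c I hP hH hS z hz hz0
  obtain ⟨hf, hg, hc, hp⟩ := hPp N c I hP hH hS z hz hz0
  have e1 := ts_eq I z
  have hoo : (bd N).orthogonal (TS I z) = CN I z := by
    rw [e1, LinearMap.BilinForm.orthogonal_orthogonal bd_nd bd_refl]
  refine ⟨?_, euler hH hz, ?_, ?_, ?_⟩
  · have h1 := LinearMap.BilinForm.finrank_orthogonal bd_nd (CN I z)
    rw [← e1, hf, Module.finrank_fin_fun] at h1
    have h2 := Submodule.finrank_le (CN I z)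
    rw [hf, Module.finrank_fin_fun] at h2
    lia
  · have h1 : (bd N).orthogonal (TV I z) ≤ CN I z := by
      intro u hu
      rw [mem_orth] at hu
      refine hp u fun w hw _ _ => ?_
      have h2 := hu (fun i => eval z (w i)) ⟨w, hw, fun i => rfl⟩
      rw [dp_comm] at h2
      exact h2
    have h2 := LinearMap.BilinForm.orthogonal_le (B := bd N) h1
    rw [← e1, LinearMap.BilinForm.orthogonal_orthogonal bd_nd bd_refl] at h2
    exact fun τ hτ => h2 hτ
  · intro a ha
    refine le_antisymm ?_ (ts_smul_le hH a z)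
    have h1 := ts_smul_le hH a⁻¹ (a • z)
    rw [smul_smul, inv_mul_cancel₀ ha, one_smul] at h1
    exact h1
  · intro φ hφ
    refine hc φ ?_
    rw [← hoo, mem_orth]
    intro u hu
    rw [dp_comm]
    exact hφ u hu

end Pool.Agent.Lib.MP_776403_ag.SD.LI
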