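import Pool.Agent.Lib.MP_776403_ag.SD.LI.Spec

/-!
# LEMMA I: extension of transversal families (helper2)
-/

set_option autoImplicit false

open MvPolynomial

noncomputable section

namespace Pool.Agent.Lib.MP_776403_ag.SD.LI

namespace ExtAux

variable {N : ℕ}

theorem lf_hom (a : Vx N) : (lf a).IsHomogeneous 1 := by
  unfold lf
  refine IsHomogeneous.sum _ _ _ fun i _ => ?_
  have h := (isHomogeneous_C (Fin (N + 1)) (a i)).mul (isHomogeneous_X ℂ i)
  rwa [zero_add] at h

theorem eval_lf (a y : Vx N) : eval y (lf a) = dp a y := by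
  unfold lf dp
  rw [map_sum]
  refine Finset.sum_congr rfl fun i _ => ?_
  rw [map_mul, eval_C, eval_X]

theorem lf_ne {a : Vx N} (ha : a ≠ 0) : lf a ≠ 0 := by
  intro h
  refine ha (funext fun i => ?_)
  have h1 := eval_lf a (Pi.single i 1)
  rw [h, map_zero] at h1
  unfold dp at h1
  rw [Finset.sum_eq_single i (fun j _ hj => by rw [Pi.single_eq_of_ne hj, mul_zero])
    (fun h => absurd (Finset.mem_univ i) h), Pi.single_eq_same, mul_one] at h1
  exact h1.symm

end ExtAux

open ExtAux in
theorem tExt : S_TS → S_Ext := by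
  classical
  intro hTS N c I hIp hIh hIs hnd ι _ w z hz hz0 hT hc
  obtain ⟨hdim, -⟩ := hTS N c I hIp hIh hIs z hz hz0
  set A : Submodule ℂ (Vx N) := TS I z ⊔ Submodule.span ℂ (Set.range w) with hA
  have h1 : Module.finrank ℂ A ≤ Module.finrank ℂ (TS I z) + Fintype.card ι :=
    (Submodule.finrank_add_le_finrank_add_finrank _ _).trans
      (Nat.add_le_add_left (finrank_range_le_card w) _)
  have hlt : A < ⊤ := by
    rw [lt_top_iff_ne_top]
    intro h
    rw [h, finrank_top, Module.finrank_fin_fun] at h1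
    omega
  obtain ⟨f, hf, hfA⟩ := Submodule.exists_le_ker_of_lt_top A hlt
  set a : Vx N := fun i => f (Pi.single i 1) with ha
  have hfa : ∀ y : Vx N, dp a y = f y := by
    intro y
    have h2 : y = ∑ i, y i • (Pi.single i 1 : Vx N) := by
      funext j
      rw [Finset.sum_apply, Finset.sum_eq_single j]
      · rw [Pi.smul_apply, Pi.single_eq_same, smul_eq_mul, mul_one]
      · intro i _ hi
        rw [Pi.smul_apply, Pi.single_eq_of_ne (Ne.symm hi), smul_zero]
      · intro h
        exact absurd (Finset.mem_univ j) h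
    conv_rhs => rw [h2]
    rw [map_sum]
    unfold dp
    refine Finset.sum_congr rfl fun i _ => ?_
    rw [map_smul, smul_eq_mul, mul_comm]
  have ha0 : a ≠ 0 := by
    intro h
    refine hf (LinearMap.ext fun y => ?_)
    rw [← hfa y, h]
    simp [dp]
  refine ⟨a, ha0, fun h => lf_ne ha0 (hnd _ h (lf_hom a)), fun w' hw' b hb => ?_⟩
  rw [Fintype.sum_option] at hb
  simp only [Option.elim] at hb
  have hker : ∀ y ∈ A, f y = 0 := fun y hy => LinearMap.mem_ker.1 (hfA hy)
  have hw : ∀ j, f (w j) = 0 := fun j =>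
    hker _ (Submodule.mem_sup_right (Submodule.subset_span ⟨j, rfl⟩))
  have hb0 : b none = 0 := by
    have h3 := hker _ (Submodule.mem_sup_left hb)
    rw [map_add, map_smul, map_sum, Finset.sum_eq_zero (fun j _ => by rw [map_smul, hw, smul_zero]),
      add_zero, smul_eq_mul, ← hfa] at h3
    exact (mul_eq_zero.1 h3).resolve_right hw'
  rw [hb0, zero_smul, zero_add] at hb
  have hb1 := hT (fun j => b (some j)) hb
  funext o
  cases o with
  | none => exact hb0
  | some j => exact congrFun hb1 j

end Pool.Agent.Lib.MP_776403_ag.SD.LI
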