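import Pool.Agent.Lib.MP_776403_ag.SD.LI.Spec

/-! # LEMMA I, module Opn: transversality is open -/

set_option autoImplicit false

open MvPolynomial

noncomputable section

namespace Pool.Agent.Lib.MP_776403_ag.SD.LI

variable {N : ℕ}

namespace OpnAux

theorem eval_dd (z a : Vx N) (F : Sx N) : eval z (dd a F) = dp (grad F z) a := by
  unfold dd dp grad
  rw [map_sum]
  refine Finset.sum_congr rfl fun i _ => ?_
  rw [map_mul, eval_C, mul_comm]

theorem dp_sum {ι : Type} [Fintype ι] (φ : Vx N) (a : ι → ℂ) (w : ι → Vx N) :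
    dp φ (∑ j, a j • w j) = ∑ j, dp φ (w j) * a j := by
  unfold dp
  simp only [Finset.sum_apply, Pi.smul_apply, smul_eq_mul, Finset.mul_sum, Finset.sum_mul]
  rw [Finset.sum_comm]
  exact Finset.sum_congr rfl fun j _ => Finset.sum_congr rfl fun i _ => by ring

/-- `φ ↦ (dp φ (w j))_j`. -/
def ev {ι : Type} (w : ι → Vx N) : Vx N →ₗ[ℂ] (ι → ℂ) where
  toFun φ := fun j => dp φ (w j)
  map_add' φ ψ := by
    funext j
    simp only [dp, Pi.add_apply, add_mul, Finset.sum_add_distrib]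
  map_smul' r φ := by
    funext j
    simp only [dp, Pi.smul_apply, smul_eq_mul, Finset.mul_sum, RingHom.id_apply]
    exact Finset.sum_congr rfl fun i _ => by ring

theorem ev_apply {ι : Type} (w : ι → Vx N) (φ : Vx N) (j : ι) : ev w φ j = dp φ (w j) := rfl

theorem surj {ι : Type} [Fintype ι] [DecidableEq ι] (I : Ideal (Sx N)) (w : ι → Vx N) (z₀ : Vx N)
    (hT : Trv I w z₀) (hCN : ∀ F ∈ I, grad F z₀ ∈ CN I z₀) :
    (CN I z₀).map (ev w) = ⊤ := by
  by_contra hne
  obtain ⟨f, hf0, hf⟩ := Submodule.exists_le_ker_of_lt_top _ (lt_top_iff_ne_top.2 hne)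
  have hfx : ∀ x : ι → ℂ, f x = ∑ j, x j * f (Pi.single j 1) := by
    intro x
    conv_lhs => rw [← Finset.univ_sum_single x]
    rw [map_sum]
    refine Finset.sum_congr rfl fun j _ => ?_
    have h1 : (Pi.single j (x j) : ι → ℂ) = x j • Pi.single j (1 : ℂ) := by
      rw [← Pi.single_smul, smul_eq_mul, mul_one]
    rw [h1, map_smul, smul_eq_mul]
  have ha : (fun j => f (Pi.single j 1)) = 0 := by
    refine hT _ fun F hF => ?_
    rw [dp_sum]
    have h2 := hf (Submodule.mem_map_of_mem (hCN F hF))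
    rw [LinearMap.mem_ker, hfx] at h2
    exact h2
  refine hf0 (LinearMap.ext fun x => ?_)
  rw [hfx x, LinearMap.zero_apply]
  refine Finset.sum_eq_zero fun j _ => ?_
  have := congrFun ha j
  rw [this, Pi.zero_apply, mul_zero]

end OpnAux

open OpnAux

theorem tOpn : S_CN → S_Opn := by
  intro hCN N c I hS ι _ _ w z₀ hz₀ hz₀0 hT
  obtain ⟨-, hc1, hc2⟩ := hCN N c I hS z₀ hz₀ hz₀0
  have hs := surj I w z₀ hT hc1
  have hex : ∀ i : ι, ∃ F ∈ I, ∀ j, dp (grad F z₀) (w j) = (1 : Matrix ι ι ℂ) i j := by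
    intro i
    have h1 : (fun j => (1 : Matrix ι ι ℂ) i j) ∈ (CN I z₀).map (ev w) := by
      rw [hs]
      exact Submodule.mem_top
    obtain ⟨φ, hφ, h2⟩ := h1
    obtain ⟨F, hF, rfl⟩ := hc2 φ hφ
    exact ⟨F, hF, fun j => congrFun h2 j⟩
  choose F hF hFw using hex
  have hev : ∀ z, eval z (Matrix.det (Matrix.of fun i j => dd (w j) (F i))) =
      Matrix.det (Matrix.of fun i j => dp (grad (F i) z) (w j)) := by
    intro z
    rw [RingHom.map_det]
    congr 1
    ext i j
    exact eval_dd z (w j) (F i)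
  refine ⟨Matrix.det (Matrix.of fun i j => dd (w j) (F i)), fun hg => ?_, fun z hz hg a ha => ?_⟩
  · have h1 := hz₀ _ hg
    rw [hev] at h1
    have h2 : (Matrix.of fun i j => dp (grad (F i) z₀) (w j)) = (1 : Matrix ι ι ℂ) := by
      ext i j
      exact hFw i j
    rw [h2, Matrix.det_one] at h1
    exact one_ne_zero h1
  · rw [hev] at hg
    refine Matrix.eq_zero_of_mulVec_eq_zero hg ?_
    funext i
    have h3 := ha (F i) (hF i)
    rw [dp_sum] at h3
    exact h3

end Pool.Agent.Lib.MP_776403_ag.SD.LI
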