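import Pool.Agent.Lib.MP_776403_ag.SD.LI.Spec

/-!
# LEMMA I, module Cone: `X` is not a cone
-/

set_option autoImplicit false

open MvPolynomial

noncomputable section

namespace Pool.Agent.Lib.MP_776403_ag.SD.LI

namespace ConeAux

variable {N : ℕ}

/-- chain rule -/
theorem lin_der (x v : Vx N) (F : Sx N) :
    Polynomial.derivative (lin x v F) = lin x v (dd v F) := by
  have hC : ∀ a : ℂ, lin x v (C a) = Polynomial.C a := by
    intro a
    unfold lin
    rw [MvPolynomial.aeval_C]
    rfl
  have hdd : lin x v (dd v F) = ∑ i, Polynomial.C (v i) * lin x v (pderiv i F) := by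
    unfold dd
    rw [map_sum]
    exact Finset.sum_congr rfl fun i _ => by rw [map_mul, hC]
  rw [hdd]
  clear hdd
  induction F using MvPolynomial.induction_on with
  | C a =>
    rw [hC, Polynomial.derivative_C]
    simp
  | add p q hp hq =>
    simp only [map_add, hp, hq, mul_add, Finset.sum_add_distrib]
  | mul_X p j hp =>
    have hX : lin x v (X j) = Polynomial.C (x j) + Polynomial.C (v j) * Polynomial.X := by
      unfold lin
      rw [MvPolynomial.aeval_X]
    have hd : Polynomial.derivative (lin x v (X j)) = Polynomial.C (v j) := by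
      rw [hX]
      simp
    rw [map_mul, Polynomial.derivative_mul, hp, hd]
    have h1 : ∀ i, pderiv i (p * X j) = pderiv i p * X j + (if i = j then p else 0) := by
      intro i
      rw [Derivation.leibniz, pderiv_X]
      by_cases h : i = j
      · subst h
        simp only [Pi.single_eq_same, if_true, smul_eq_mul]
        ring
      · rw [if_neg h, Pi.single_eq_of_ne (fun h' => h h'.symm)]
        simp only [smul_eq_mul]
        ring
    have h2 : ∀ i, Polynomial.C (v i) * lin x v (pderiv i (p * X j)) =
        Polynomial.C (v i) * lin x v (pderiv i p) * lin x v (X j) +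
          (if i = j then Polynomial.C (v j) * lin x v p else 0) := by
      intro i
      rw [h1, map_add, map_mul]
      by_cases h : i = j
      · subst h
        simp only [if_true]
        ring
      · simp only [if_neg h, map_zero]
        ring
    simp only [h2, Finset.sum_add_distrib, Finset.sum_mul]
    rw [Finset.sum_ite_eq' Finset.univ j, if_pos (Finset.mem_univ j)]
    ring

theorem eval_smul_sum (F : Sx N) (a : ℂ) (v : Vx N) : eval (a • v) F =
    ∑ m ∈ Finset.range (F.totalDegree + 1), a ^ m * eval v (homogeneousComponent m F) := by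
  conv_lhs => rw [← sum_homogeneousComponent F, map_sum]
  exact Finset.sum_congr rfl fun m _ =>
    eval_smul_form (homogeneousComponent_isHomogeneous m F) a v

theorem smul_mem_zer {P : Ideal (Sx N)} (hP : IsHom P) {v : Vx N} (hv : v ∈ zer P)
    (a : ℂ) : a • v ∈ zer P := by
  intro F hF
  rw [eval_smul_sum]
  exact Finset.sum_eq_zero fun m _ => by rw [hv _ (hP F hF m), mul_zero]

theorem zero_mem_zer {P : Ideal (Sx N)} (hP : IsHom P) (hp : P.IsPrime) :
    (0 : Vx N) ∈ zer P := by
  intro F hF
  have h0 := hP F hF 0
  rw [homogeneousComponent_zero] at h0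
  have h1 : coeff 0 F = 0 := by
    by_contra hne
    refine hp.ne_top (Ideal.eq_top_of_isUnit_mem _ h0 ?_)
    exact (isUnit_iff_ne_zero.2 hne).map C
  have h2 : eval (0 : Vx N) F = constantCoeff F := by
    rw [constantCoeff_eq]
    have := MvPolynomial.eval_zero' (R := ℂ) (σ := Fin (N + 1))
    rw [← constantCoeff_eq]
    exact congrFun (congrArg DFunLike.coe (MvPolynomial.eval_zero (R := ℂ)
      (σ := Fin (N + 1)))) F
  rw [h2, constantCoeff_eq, h1]

/-- A derivation along `k` mapping `I` into `I`: `I` vanishes on `y + t k`. -/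
theorem lin_zero {I : Ideal (Sx N)} {k : Vx N} (hk : ∀ F ∈ I, dd k F ∈ I) {y : Vx N}
    (hy : y ∈ zer I) : ∀ (n : ℕ) (F : Sx N), F ∈ I → (lin y k F).natDegree ≤ n →
    lin y k F = 0 := by
  intro n
  induction n with
  | zero =>
    intro F hF hn
    have h := Polynomial.eq_C_of_natDegree_le_zero hn
    have h0 : (lin y k F).eval 0 = 0 := by
      rw [lin_eval, zero_smul, add_zero]
      exact hy F hF
    rw [h, Polynomial.eval_C] at h0
    rw [h, h0, Polynomial.C_0]
  | succ n ih =>
    intro F hF hn
    have h1 := ih (dd k F) (hk F hF) (by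
      rw [← lin_der]
      exact (Polynomial.natDegree_derivative_le _).trans (by omega))
    rw [← lin_der] at h1
    have h2 := Polynomial.derivative_eq_zero.1 h1
    have h := Polynomial.eq_C_of_natDegree_le_zero h2.le
    have h0 : (lin y k F).eval 0 = 0 := by
      rw [lin_eval, zero_smul, add_zero]
      exact hy F hF
    rw [h, Polynomial.eval_C] at h0
    rw [h, h0, Polynomial.C_0]

theorem add_mem_zer {I : Ideal (Sx N)} {k : Vx N} (hk : ∀ F ∈ I, dd k F ∈ I) {y : Vx N}
    (hy : y ∈ zer I) (t : ℂ) : y + t • k ∈ zer I := by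
  intro F hF
  rw [← lin_eval, lin_zero hk hy _ F hF le_rfl, Polynomial.eval_zero]

theorem lf_hom (a : Vx N) : (lf a).IsHomogeneous 1 := by
  unfold lf
  refine IsHomogeneous.sum _ _ _ fun i _ => ?_
  have := (isHomogeneous_C (Fin (N + 1)) (a i)).mul (isHomogeneous_X ℂ i)
  rwa [zero_add] at this

theorem lf_eval (a y : Vx N) : eval y (lf a) = dp a y := by
  unfold lf dp
  rw [map_sum]
  exact Finset.sum_congr rfl fun i _ => by rw [map_mul, eval_C, eval_X]

theorem lf_zero {a : Vx N} (h : lf a = 0) : a = 0 := by
  funext i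
  have h1 := lf_eval a (Pi.single i 1)
  rw [h, map_zero] at h1
  unfold dp at h1
  rw [Finset.sum_eq_single i (fun j _ hj => by rw [Pi.single_eq_of_ne hj, mul_zero])
    (fun hi => absurd (Finset.mem_univ i) hi), Pi.single_eq_same, mul_one] at h1
  exact h1.symm

end ConeAux

open ConeAux in
theorem tCone : S_Null → S_Cone := by
  intro hNull N c I hc hP hH hnd hS k hk hD
  have h0 : (0 : Vx N) ∈ zer I := zero_mem_zer hH hP
  have hkz : k ∈ zer I := by
    have := add_mem_zer hD h0 1
    rwa [zero_add, one_smul] at this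
  have hg : ∀ F ∈ I, grad F k = 0 := by
    intro F hF
    refine lf_zero (hnd _ ?_ (lf_hom _))
    refine (hNull N I hP hH).1 _ fun y hy => ?_
    rw [lf_eval]
    have h1 : lin k y F = 0 := by
      refine poly_ext fun s => ?_
      rw [lin_eval, Polynomial.eval_zero]
      have h2 := add_mem_zer hD (smul_mem_zer hH hy s) 1 F hF
      rwa [one_smul, add_comm (s • y) k] at h2
    have h2 := lin_der k y F
    rw [h1, Polynomial.derivative_zero] at h2
    have h3 := congrArg (Polynomial.eval 0) h2
    rw [Polynomial.eval_zero, lin_eval, zero_smul, add_zero] at h3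
    unfold dd at h3
    rw [map_sum] at h3
    unfold dp grad
    rw [h3]
    exact Finset.sum_congr rfl fun i _ => by rw [map_mul, eval_C, mul_comm]
  obtain ⟨F, f, h, e, hF, -, -, hli, -⟩ := hS k hkz hk
  exact hli.ne_zero ⟨0, hc⟩ (hg _ (hF _).1)

end Pool.Agent.Lib.MP_776403_ag.SD.LI
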