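import Pool.Agent.Lib.MP_776403_ag.SD.Z.RSpec
import Pool.Agent.Lib.MP_776403_ag.SD.SpecB
import Pool.Agent.Lib.MP_776403_ag.SD.L.SpecC

/-!
# LEMMA I: lines of small normal degree through general points (helper7)

`X ⊆ ℙ^N` smooth, nondegenerate, of dimension `n`, codimension `c = k + 1 ≥ 2` and degree `≤ D ≤ n - 1`,
covered by lines.  Through a general point of `X` there is a line `l` with `deg N_X|_l ≤ D`.
With `S_RL` this gives the theorem on small degrees (`S_QS` below) for `n ≥ deg X + 1` without a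
hypothesis on lines.

(P1) If `l` does not meet the tangent space of `X` at a general point then `deg N_X|_l ≤ D`: products
`l^α g` of linear forms vanishing on `l`, and on `l` and `c - 1` general points of `X`, give a lower
bound of the Hilbert function.
(P2) Not all lines through general points meet all tangent spaces of `X`.

Statements with complete proofs in the docstrings; `S_Xyz` is proved in the file `SD/LI/Xyz.lean`
(theorem `SD.LI.tXyz`); a module may use closed forms of old statements (`mKrull : S_Krull`,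
`tNull : S_Null`, `mPerp : S_Perp`, `tTB : S_TB`, `mLinS : S_LinS`, `eLinB : S_LinB`, `eCN : S_CN`,
`mLoc : S_Loc`, `mHom`, `mCr`, `mCrL`, `tMono` in `SD/Main.lean`), and the other statements of this file as
hypotheses.
-/

set_option autoImplicit false

open MvPolynomial

noncomputable section

namespace Pool.Agent.Lib.MP_776403_ag.SD.LI

variable {N : ℕ}

/-! ## Definitions -/

/-- The dot product. -/
def dp (a y : Vx N) : ℂ := ∑ i, a i * y i

/-- The linear form with the coefficients `a`. -/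
def lf (a : Vx N) : Sx N := ∑ i, C (a i) * X i

/-- The derivative in the constant direction `a`. -/
def dd (a : Vx N) (F : Sx N) : Sx N := ∑ i, C (a i) * pderiv i F

/-- The (affine) tangent space of `X` at `z`. -/
def TS (I : Ideal (Sx N)) (z : Vx N) : Submodule ℂ (Vx N) where
  carrier := {y | ∀ F ∈ I, dp (grad F z) y = 0}
  zero_mem' := fun F _ => by simp [dp]
  add_mem' := fun {y y'} h h' F hF => by
    have e : dp (grad F z) (y + y') = dp (grad F z) y + dp (grad F z) y' := by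
      simp only [dp, Pi.add_apply, mul_add, Finset.sum_add_distrib]
    rw [e, h F hF, h' F hF, add_zero]
  smul_mem' := fun r y h F hF => by
    have e : dp (grad F z) (r • y) = r * dp (grad F z) y := by
      simp only [dp, Pi.smul_apply, smul_eq_mul, Finset.mul_sum]
      exact Finset.sum_congr rfl fun i _ => by ring
    rw [e, h F hF, mul_zero]

/-- The vectors `w` are independent modulo the tangent space at `z`. -/
def Trv (I : Ideal (Sx N)) {ι : Type} [Fintype ι] (w : ι → Vx N) (z : Vx N) : Prop :=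
  ∀ a : ι → ℂ, ∑ j, a j • w j ∈ TS I z → a = 0

/-! ## P1: tangent spaces, general points -/

/-- (TS) Basic facts.

PROOF.  `S_CN`, `S_Perp` for `z`.  `TS I z` is the annihilator of `CN I z` (dimension `c`) for the dot product
on `ℂ^(N+1)`: dimension `N + 1 - c` (`LinearMap.BilinForm.finrank_orthogonal`, or the rank of the map
`Vx N → Dual (CN I z)`).  `z ∈ TS`: Euler's formula for forms (`IsHomogeneous.sum_X_mul_pderiv`), components
of `F ∈ I` are in `I` (`IsHom`), `grad` is additive.  Fields: `T' = {(eval z (w i))_i | w ∈ TF I}` is a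
subspace, `T' ≤ TS I z`; if `φ` is orthogonal to `T'` then `φ ∈ CN I z` (`S_Perp`, last part), so
`dim T' ≥ N + 1 - c` and `T' = TS I z`.  Scaling: `grad F (a z) = a^(f-1) grad F z` for forms `F` of degree
`f ≥ 1` (`grad_smul_form` in `Bas.lean`).  Last claim: double annihilator
(`TS I z` orthogonal to `φ` implies `φ ∈ CN I z`: use fields and `S_Perp` again), `S_CN`. -/
def S_TS : Prop :=
  ∀ (N c : ℕ) (I : Ideal (Sx N)), I.IsPrime → IsHom I → Smooth I c → ∀ z ∈ zer I, z ≠ 0 →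
    Module.finrank ℂ (TS I z) + c = N + 1 ∧ z ∈ TS I z ∧
    (∀ τ ∈ TS I z, ∃ w ∈ TF I, ∀ i, eval z (w i) = τ i) ∧
    (∀ a : ℂ, a ≠ 0 → TS I (a • z) = TS I z) ∧
    ∀ φ : Vx N, (∀ τ ∈ TS I z, dp φ τ = 0) → ∃ F ∈ I, φ = grad F z

/-- (Opn) Transversality is open.

PROOF.  `m = card ι`.  The map `CN I z₀ → (ι → ℂ)`, `φ ↦ (dp φ (w j))_j` is surjective (otherwise there is
`a ≠ 0` with `∑ a_j dp φ (w j) = 0` for all `φ ∈ CN`, so `∑ a_j w_j ∈ TS I z₀`); elements of `CN I z₀` are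
`grad F z₀`, `F ∈ I` (`S_CN`): choose `F_i`, `i : ι`, with `(dp (grad (F_i) z₀) (w j))_ij = 1`.
`g = det (dd (w j) (F_i))_ij`; `eval z g = det (dp (grad (F_i) z) (w j))`; `g(z₀) = 1`, so `g ∉ I`.  If
`g(z) ≠ 0` and `∑ a_j w_j ∈ TS I z` then the matrix kills `a`, so `a = 0`. -/
def S_Opn : Prop :=
  ∀ (N c : ℕ) (I : Ideal (Sx N)), Smooth I c → ∀ (ι : Type) [Fintype ι] [DecidableEq ι]
    (w : ι → Vx N), ∀ z₀ ∈ zer I, z₀ ≠ 0 → Trv I w z₀ →
    ∃ g : Sx N, g ∉ I ∧ ∀ z ∈ zer I, eval z g ≠ 0 → Trv I w z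

/-- (Ext) Extension of transversal families.

PROOF.  `A = TS I z ⊔ span (range w)` has dimension `≤ N + 1 - c + card ι ≤ N` (`S_TS`), so there is
`λ ≠ 0` with `dp λ y = 0` for `y ∈ A`; `lf λ ∉ I` by `hnd` (`lf λ ≠ 0` is a form of degree `1`).  If
`∑ a_j w_j + a w' ∈ TS I z` then `a dp λ w' = 0`, `a = 0`, and `a_j = 0` by `Trv`. -/
def S_Ext : Prop :=
  ∀ (N c : ℕ) (I : Ideal (Sx N)), I.IsPrime → IsHom I → Smooth I c →
    (∀ F ∈ I, F.IsHomogeneous 1 → F = 0) → ∀ (ι : Type) [Fintype ι] (w : ι → Vx N), ∀ z ∈ zer I,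
    z ≠ 0 → Trv I w z → Fintype.card ι + 1 ≤ c →
    ∃ a : Vx N, a ≠ 0 ∧ lf a ∉ I ∧ ∀ w' : Vx N, dp a w' ≠ 0 →
      Trv I (fun o : Option ι => o.elim w' w) z

/-- (Zs) GENERAL POINTS.  `c = k + 1`.

PROOF.  By induction on `j ≤ k` there are `z_1, …, z_j ∈ zer I - 0` with
(A) for all `i ≤ j` the family `(x, v, z_l (l ≤ j, l ≠ i))` is transversal at `z_i`;
(B) if `j < k`: there is `z' ∈ zer I - 0` at which `(x, v, z_1, …, z_j)` is transversal.
`j = 0`: (B) is the hypothesis.  Step `j → j + 1 ≤ k`: `S_Opn` for `z'`, `(x, v, z_1, …, z_j)`: `g ∉ I`.  For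
`i ≤ j`: `S_Ext` at `z_i` for `(x, v, z_l (l ≠ i))` (`j + 1` members, `j + 2 ≤ k + 1`): `a_i`.  If `j + 1 < k`:
`S_Ext` at `z'` for `(x, v, z_1, …, z_j)` (`j + 2` members, `j + 3 ≤ k + 1`): `a'`.  The product of `g`, the
`lf (a_i)`, `lf a'` and of a variable `X_l ∉ I` is not in `I`: there is `z_(j+1) ∈ zer I` where it does not
vanish (`S_Null`); `z_(j+1) ≠ 0`.  (Formulate transversality without `Option`: `∀ a b γ,
a x + b v + ∑ γ_l z_l ∈ TS → …`; families indexed by `Fin`: `Fin.snoc`.)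
For `j = k`: let `a x + b v + ∑ γ_l z_l ∈ TS I (z_i)`; as `z_i ∈ TS I (z_i)` (`S_TS`) we may remove
`γ_i z_i`; (A) gives the claim. -/
def S_Zs : Prop :=
  ∀ (N k : ℕ) (I : Ideal (Sx N)), I.IsPrime → IsHom I → Smooth I (k + 1) →
    (∀ F ∈ I, F.IsHomogeneous 1 → F = 0) → 1 ≤ k → ∀ x v : Vx N, IsLine I x v →
    (∃ z₀ ∈ zer I, z₀ ≠ 0 ∧ Trv I ![x, v] z₀) →
    ∃ z : Fin k → Vx N, (∀ i, z i ∈ zer I ∧ z i ≠ 0) ∧
      ∀ i, ∀ (a b : ℂ) (γ : Fin k → ℂ), a • x + b • v + ∑ j, γ j • z j ∈ TS I (z i) →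
        a = 0 ∧ b = 0 ∧ ∀ j, j ≠ i → γ j = 0

/-- (Us) GENERAL DIRECTIONS along a line.

PROOF.  Induction: `u_1, …, u_j`, `j < k`, transversal at all points of the line; find `u_(j+1)`.  `L : Loc I x
(k+1)` (`S_Loc`), `Δ = L.dt`, `Δ(x) ≠ 0`.  For `t` with `Δ(x + t v) ≠ 0` the space `TS I (x + t v)` (dimension
`N - k`, `S_TS`) is spanned by the values of the Cramer fields `L.cr b`, `b : L.Bc` (`N + 1 - (k + 1)` of
them; in `TF I` by `S_Cr`, independent at the point: the coordinates outside `B` form the matrix `Δ 1`).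
Consider the `N + 1` polynomials `Ψ_i = ∑_b A_b (L.cr b i)(x + T v) + ∑_(l ≤ j) B_l u_l i` in the
`1 + (N - k) + j ≤ N` variables `T, A_b, B_l`: they are algebraically dependent (`S_TB` for a polynomial
ring and the family of its variables: independent elements of number `N + 1` would give an injection of
`Fin (N + 1)` into the set of variables), so there is `R ∈ Sx N`, `R ≠ 0`, with `R (Ψ) = 0`.  So if
`R(u) ≠ 0` then `u ∉ TS I (x + t v) + span (u_1, …, u_j)` for all `t` with `Δ(x + t v) ≠ 0`.  The polynomial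
`lin x v Δ ≠ 0` has finitely many roots `t`; for the points `y = x + t v` of these `t` and for `y = v` the
space `TS I y + span (u_l)` has dimension `≤ N - k + j < N + 1`: it is contained in the zero set of a linear
form `lf a_y ≠ 0`.  Choose `u` with `R(u) ∏ lf a_y (u) ≠ 0` (`MvPolynomial.funext`).  For `y = s x + t v`:
`s ≠ 0`: `TS I y = TS I (x + (t/s) v)`; `s = 0`: `TS I y = TS I v` (`S_TS`). -/
def S_Us : Prop :=
  ∀ (N k : ℕ) (I : Ideal (Sx N)), I.IsPrime → IsHom I → Smooth I (k + 1) →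
    ∀ x v : Vx N, IsLine I x v → ∃ u : Fin k → Vx N, ∀ s t : ℂ, (s ≠ 0 ∨ t ≠ 0) →
      Trv I u (s • x + t • v)

/-! ## P1: the relation along the line -/

/-- `∑_i ± M_i grad F_i`, `M_i` the `k × k` minors of the matrix `(dd (u j) F_i)`: a conormal field
which kills the `u j`. -/
def sV {k : ℕ} (F : Fin (k + 1) → Sx N) (u : Fin k → Vx N) (l : Fin (N + 1)) : Sx N :=
  Matrix.det (Matrix.of fun i : Fin (k + 1) =>
    (Fin.snoc (α := fun _ => Sx N) (fun j => dd (u j) (F i)) (pderiv l (F i)) :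
      Fin (k + 1) → Sx N))

/-- The relation `q` (degree `δ`) along the line. -/
structure RL (I : Ideal (Sx N)) (x v : Vx N) {k : ℕ} (u : Fin k → Vx N) (δ : ℕ)
    (q : Fin (N + 1) → Polynomial ℂ) : Prop where
  deg : ∀ i, (q i).natDegree ≤ δ
  uq : ∀ j, ∑ i, Polynomial.C (u j i) * q i = 0
  mem : ∀ t : ℂ, (fun i => (q i).eval t) ∈ CN I (x + t • v)
  ne : ∀ t : ℂ, (fun i => (q i).eval t) ≠ 0
  memv : (fun i => (q i).coeff δ) ∈ CN I v
  nev : (fun i => (q i).coeff δ) ≠ 0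

/-- (Qa) The relation.

PROOF.  `s_l = sV L.F u l`: a form of degree `L.dg` (`S_DetHom`; `dd (u j) F_i`, `pderiv l F_i` are forms of
degree `f_i - 1`; if `f_i = 0` then `F_i` is a constant in `I`, so `0`, contradiction to `L.detx`).
(1) Expanding the determinant along the last column: `s_l = ∑_i m_i pderiv l F_i` with `m_i ∈ Sx N` not
depending on `l`; so `(s_l (y))_l = ∑ m_i(y) grad F_i (y) ∈ CN I y` for all `y ∈ zer I`, and
`∑_l C (u j l) * s_l = 0` (a determinant with two equal columns).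
(2) `(s_l (y))_l ≠ 0` for `y = x` and `y = v`: the gradients of the `F_i` are independent at `y`
(`L.detx`; `L.good v`), so they are a basis of `CN I y` (`S_CN`), and the map `CN I y → ℂ^k`,
`φ ↦ (dp φ (u j))_j` is surjective (`Trv I u y`; compare `S_Opn`), so the matrix `(dp (grad F_i y) (u j))`
has rank `k`, some `m_i(y) ≠ 0` (up to sign the `k × k` minors).
(3) `S_l = lin x v s_l ∈ ℂ[t]` has degree `≤ dg`, `S_l (0) = s_l (x)`, the coefficient of `t^dg` is `s_l (v)`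
(`S_LinB`).  `p` = gcd of the `S_l` (`≠ 0` by (2)), `S_l = p q_l`, `δ = dg - deg p`.  Some `S_l` has degree `dg`
(`s_l (v) ≠ 0`), so `δ ≥ 0` makes sense and `deg q_l ≤ δ`, `coeff δ (q_l) = s_l (v) / lc p`, so `nev`, `memv`
(`CN I v` is a subspace).  The `q_l` have no common root (a common root `t₀` gives a common divisor
`X - t₀`, contradiction to the gcd): `ne`.  `uq`: divide by `p`.
(4) `mem`: by the last part of `S_Perp` for `y = x + t v`: for a homogeneous `w ∈ TF I`: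
`∑_l s_l (y) (w l)(y) = 0` for all `y` on the line (1), so `p ∑_l q_l lin x v (w l) = 0` as polynomials
(infinitely many `t`), so `∑ q_l lin x v (w l) = 0`.  (`y = x + t v ∈ zer I`, `≠ 0` by independence.) -/
def S_Qa : Prop :=
  ∀ (N k : ℕ) (I : Ideal (Sx N)), I.IsPrime → IsHom I → Smooth I (k + 1) →
    ∀ x v : Vx N, IsLine I x v → ∀ L : Loc I x (k + 1), L.good v → ∀ u : Fin k → Vx N,
    (∀ s t : ℂ, (s ≠ 0 ∨ t ≠ 0) → Trv I u (s • x + t • v)) →
    ∃ (δ : ℕ) (p : Polynomial ℂ) (q : Fin (N + 1) → Polynomial ℂ), p ≠ 0 ∧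
      p.natDegree + δ = L.dg ∧ (∀ l, lin x v (sV L.F u l) = p * q l) ∧ RL I x v u δ q

/-- (Qb) The degree of the relation is the colength.

PROOF.  `E' = span_(ℂ[t]) {(lin x v (pderiv l F))_l | F ∈ I} ≤ ℂ[t]^(N+1)`; its projection to the coordinates
`L.B` is `L.E v`.
(1) The `ℂ[t]`-linear map `π : E' → ℂ[t]^k`, `s ↦ (∑_l u_j(l) s_l)_j`, is surjective: otherwise the
cokernel `C ≠ 0` is a finitely generated `ℂ[t]`-module, so `C / (t - t₀) C ≠ 0` for some `t₀` (a maximal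
ideal containing the annihilator of a nonzero quotient; or: the range `R'` of `π` is not everything, take
a maximal submodule), i.e. there is `b ∈ ℂ^k`, `b ≠ 0`, with `∑_j b_j (π s)_j (t₀) = 0` for all `s ∈ E'`; for
`s = lin grad F`: `dp (grad F (y)) (∑ b_j u_j) = 0` for all `F ∈ I`, `y = x + t₀ v`, so `∑ b_j u_j ∈ TS I y`:
contradiction to `Trv I u y`.  [To get `t₀`, `b` from `R' ≠ ⊤` (`R' ≤ ℂ[t]^k`): Smith normal form / a
nonzero map `ℂ[t]^k / R' → ℂ[t]/(t - t₀)`, or: `ℂ[t]^k / R'` is nonzero and finitely generated, so it has a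
maximal submodule, the quotient is simple, `≅ ℂ[t]/(t - t₀)`.]
(2) Choose `s_1, …, s_k ∈ E'` with `π s_i = e_i`.  By (4) of (Qa) and Cramer (or by (1) for `q`): `q ∈ E'`?  This
is not needed: work with `D = Δ`-multiples.  IDENTITY: for `e_1, …, e_(k+1) ∈ ℂ(t)^(N+1)` in the
`ℂ(t)`-span of the `g_i = lin grad F_i` (a basis, `i ≤ k + 1`) write `e = A g`; then
`det (e_i (B b)) = det A det (g_i (B b)) = det A lin Δ` and, for every `l`, `det (e_i · u_1, …, e_i · u_k, e_i (l)) =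
det A lin (sV F u l) = det A p q_l`.  For `e = (s_1, …, s_k, q)` the second determinant is `q_l` (the
first `k` columns are `e_1, …, e_k` with last row `0`).  Choose `l` with `q_l ≠ 0`: `det A p = 1`, so
`p det (e_i (B b)) = lin Δ`.
[`E'` and `q` are in the span of the `g_i` over `ℂ(t)`: `lin Δ * s = ∑ (polynomials) g_i` for `s` the gradient
of an element of `I` (`S_CrL`: `lin Δ s_l = ∑_b lin (coef b l) s_(B b)` and `coef b l = ∑_i adj(M)_(b i) ∂_l F_i`);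
for `q`: `p q_l = ∑ lin (m_i) g_i l` by the expansion of `sV` along the last column.]
(3) `q ∈ E'`: `E'` is saturated: for every `t₀` there is `a ∈ ℂ[t]`, `a(t₀) ≠ 0`, `a q ∈ E'` (local equations
`L'` at `y = x + t₀ v`: the values of `q` are in the span of the `grad F'_i` for all `t`; Cramer:
`lin Δ' q = ∑ (polynomials) lin grad F'_i`), and these `a` generate `ℂ[t]`.
(4) So `L.E v` contains the `k + 1` vectors `(e_i (B b))_b` with determinant `d`, `p d = lin Δ`, `d ≠ 0`,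
`deg d = dg - deg p = δ` (`deg lin Δ = dg`, `S_Hom`, `good`).  The quotient of `ℂ[t]^(k+1)` by the rows of a
matrix with determinant `d ≠ 0` has dimension `deg d` (`S_JFit`, `S_JPid` in `J/Spec.lean`, `J/Fit.lean`, or
Smith normal form); `L.E v` contains this module, so the quotient has dimension `≤ δ`. -/
def S_Qb : Prop :=
  ∀ (N k : ℕ) (I : Ideal (Sx N)), I.IsPrime → IsHom I → Smooth I (k + 1) →
    ∀ x v : Vx N, IsLine I x v → ∀ L : Loc I x (k + 1), L.good v → ∀ u : Fin k → Vx N,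
    (∀ s t : ℂ, (s ≠ 0 ∨ t ≠ 0) → Trv I u (s • x + t • v)) →
    ∀ (δ : ℕ) (p : Polynomial ℂ) (q : Fin (N + 1) → Polynomial ℂ), p ≠ 0 →
      p.natDegree + δ = L.dg → (∀ l, lin x v (sV L.F u l) = p * q l) → RL I x v u δ q →
      Module.finrank ℂ ((Fin (k + 1) → Polynomial ℂ) ⧸ L.E v) ≤ δ

/-- Linear forms on `l`: `n' + 1` general linear forms vanishing on `l`, on the tangent spaces along
`l` they satisfy exactly one relation. -/
structure LD (I : Ideal (Sx N)) (x v : Vx N) (n' δ : ℕ) (a : Fin n' → Vx N) (q₁ : Vx N)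
    (ρ : Fin n' → Polynomial ℂ) (ρ₀ : Polynomial ℂ) : Prop where
  ax : ∀ i, dp (a i) x = 0
  av : ∀ i, dp (a i) v = 0
  qx : dp q₁ x = 0
  qv : dp q₁ v = 0
  mon : ρ₀.Monic
  deg : ρ₀.natDegree = δ
  ne : ∀ t : ℂ, ρ₀.eval t ≠ 0 ∨ ∃ i, (ρ i).eval t ≠ 0
  sur : ∀ (t : ℂ) (l : Fin n' → ℂ) (l₀ : ℂ), (∑ i, (ρ i).eval t * l i) + ρ₀.eval t * l₀ = 0 →
    ∃ τ ∈ TS I (x + t • v), (∀ i, dp (a i) τ = l i) ∧ dp q₁ τ = l₀

/-- (Hy) PROOF.  `N = n' + k + 2`.  `H = span (x, v, u_1, …, u_k)` has dimension `k + 2`: if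
`α x + β v + ∑ γ_j u_j = 0` then, as `x, v ∈ TS I x` (the line is in `X`: `dp (grad F x) v` is the derivative
of `F(x + t v) = 0` at `t = 0`; `S_LinB`), `∑ γ_j u_j ∈ TS I x`, so `γ = 0` (`Trv`), `α = β = 0`.  `H^⊥` (dot
product) has dimension `N + 1 - (k + 2) = n' + 1`.  For all `t` the vector `q(t)` is in `H^⊥`: `uq`, and
elements of `CN I (x + t v)` are orthogonal to `x`, `v ∈ TS I (x + t v)`.  So all coefficient vectors
`(coeff r (q i))_i` are in `H^⊥`.  `q₁ = (coeff δ (q i))_i ≠ 0`; choose `a_1, …, a_n'` such that `a, q₁` is a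
basis of `H^⊥`.  Expanding the coefficient vectors: `q i = ∑_r C (a r i) ρ_r + C (q₁ i) ρ₀`, `ρ_r, ρ₀ ∈ ℂ[t]` of
degree `≤ δ`, and comparing the coefficients of `t^δ`: `coeff δ ρ₀ = 1`, so `ρ₀` is monic of degree `δ`.
`ne`: otherwise `q(t) = 0`.  `sur`: the linear map `TS I (x + t v) → ℂ^(n'+1)`, `τ ↦ (dp (a i) τ, dp q₁ τ)`, has
the kernel `TS ∩ H^⊥⊥ = TS ∩ H = span (x, v)` (`α x + β v + ∑ γ u ∈ TS` implies `γ = 0`), so its rank is
`N + 1 - (k + 1) - 2 = n'` (`S_TS`); its image is contained in the hyperplane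
`{∑ ρ_i(t) l_i + ρ₀(t) l₀ = 0}` (`dp (q(t)) τ = 0` as `q(t) ∈ CN`), which has dimension `n'` (`ne`): equality. -/
def S_Hy : Prop :=
  ∀ (N k n' : ℕ) (I : Ideal (Sx N)), N = n' + k + 2 → I.IsPrime → IsHom I → Smooth I (k + 1) →
    ∀ x v : Vx N, IsLine I x v → ∀ u : Fin k → Vx N,
    (∀ s t : ℂ, (s ≠ 0 ∨ t ≠ 0) → Trv I u (s • x + t • v)) →
    ∀ (δ : ℕ) (q : Fin (N + 1) → Polynomial ℂ), RL I x v u δ q →
    ∃ (a : Fin n' → Vx N) (q₁ : Vx N) (ρ : Fin n' → Polynomial ℂ) (ρ₀ : Polynomial ℂ),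
      LD I x v n' δ a q₁ ρ ρ₀

/-- Linear forms for the points `z`. -/
structure ZD (I : Ideal (Sx N)) (x v : Vx N) {k n : ℕ} (z : Fin k → Vx N) (b : Fin n → Vx N)
    (w : Fin k → Vx N) : Prop where
  zI : ∀ i, z i ∈ zer I ∧ z i ≠ 0
  bx : ∀ r, dp (b r) x = 0
  bv : ∀ r, dp (b r) v = 0
  bz : ∀ r i, dp (b r) (z i) = 0
  wx : ∀ i, dp (w i) x = 0
  wv : ∀ i, dp (w i) v = 0
  wz : ∀ i j, dp (w i) (z j) = if i = j then 1 else 0
  sur : ∀ (i : Fin k) (l : Fin n → ℂ), ∃ τ ∈ TS I (z i), ∀ r, dp (b r) τ = l r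

/-- (Hz) PROOF.  `N = n' + k + 2`.  `x, v, z_1, …, z_k` are independent (a relation is in `TS I (z_i)` for every
`i`; if `k = 0`: `x, v` are independent), `H` = their span, of dimension `k + 2`; `b` = a basis of `H^⊥`
(`n' + 1` vectors); `w_i` = dual vectors: a linear functional on `ℂ^(N+1)` with the values `0, 0, δ_ij` on
`x, v, z_j`, written as a dot product.  `sur`: the map `TS I (z_i) → ℂ^(n'+1)`, `τ ↦ (dp (b r) τ)_r`, has the
kernel `TS I (z_i) ∩ H = ℂ z_i` (hypothesis; `z_i ∈ TS I (z_i)`), so its rank is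
`N + 1 - (k + 1) - 1 = n' + 1` (`S_TS`). -/
def S_Hz : Prop :=
  ∀ (N k n' : ℕ) (I : Ideal (Sx N)), N = n' + k + 2 → I.IsPrime → IsHom I → Smooth I (k + 1) →
    ∀ x v : Vx N, IsLine I x v → ∀ z : Fin k → Vx N, (∀ i, z i ∈ zer I ∧ z i ≠ 0) →
    (∀ i, ∀ (a b : ℂ) (γ : Fin k → ℂ), a • x + b • v + ∑ j, γ j • z j ∈ TS I (z i) →
        a = 0 ∧ b = 0 ∧ ∀ j, j ≠ i → γ j = 0) →
    ∃ (b : Fin (n' + 1) → Vx N) (w : Fin k → Vx N), ZD I x v z b w

/-! ## P1: orders of vanishing -/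

/-- (Ini) INITIAL FORMS.  The initial form at `z` of an element of `I` vanishes on the tangent space.

PROOF.  `w ∈ TF I` with `w(z) = τ` (`S_TS`).  `D = ∑ w_i ∂_i` is a derivation of `Sx N` and maps `I` to `I` (definition
of `TF`), so `D^k G ∈ I`, `(D^k G)(z) = 0`.  CLAIM: for `G ∈ (ptI z)^k`: `(D^k G)(z) = k! coeff k (lin z τ G)`.
Both sides are additive in `G`; `(ptI z)^k` is spanned additively by the products `f H`, `f ∈ ptI z`,
`H ∈ (ptI z)^(k-1)` (`k ≥ 1`; `Ideal.mul`, `Submodule.span_induction` / `Submodule.mul_induction_on`); `k = 0` is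
clear.  `D` maps `(ptI z)^(j+1)` into `(ptI z)^j`.  Leibniz (`Derivation`, `D^k (f H) = ∑ binom k j D^j f
D^(k-j) H`) at `z`: `f(z) = 0` kills `j = 0`, and `D^(k-j) H ∈ (ptI z)^(j-1)` kills `j ≥ 2`; so it is
`k (D f)(z) (D^(k-1) H)(z)`, and `(D f)(z) = ∑ ∂_i f (z) τ_i = coeff 1 (lin z τ f)`.  On the other side
`lin z τ (f H) = lin f lin H`, `t ∣ lin f`, `t^(k-1) ∣ lin H`, so
`coeff k (lin (f H)) = coeff 1 (lin f) coeff (k-1) (lin H)`. -/
def S_Ini : Prop :=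
  ∀ (N c : ℕ) (I : Ideal (Sx N)), I.IsPrime → IsHom I → Smooth I c → ∀ z ∈ zer I, z ≠ 0 →
    ∀ (k : ℕ) (G : Sx N), G ∈ I → G ∈ (ptI z) ^ k → ∀ τ ∈ TS I z, (lin z τ G).coeff k = 0

/-- (Div) DIVISION (pure algebra).

PROOF.  Suppose `S ≠ 0`.  Write `S = ∑_(j ≤ J) S_j L^j` with `L = X none`, `S_j` in
`R' = MvPolynomial (Fin n') ℂ[t]`, `S_J ≠ 0` (`MvPolynomial.optionEquivLeft`, or sort the monomials).
`B = ∑ C (ρ i) X_i ∈ R'`.  For `t` with `ρ₀(t) ≠ 0` and `l : Fin n' → ℂ` put `l₀ = - ∑ ρ_i(t) l_i / ρ₀(t)` in the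
hypothesis and multiply by `ρ₀(t)^J`: `∑_j ρ₀^(J-j) S_j (-B)^j` vanishes at `(t, l)`; so
`C ρ₀ * ∑_j C ρ₀^(J-j) S_j (-B)^j ∈ R'` vanishes at all `(t, l)` and is `0` (`ℂ` infinite), and `C ρ₀ ≠ 0`:
`∑_j C ρ₀^(J-j) S_j (-B)^j = 0`.  `J = 0`: `S_0 = 0`, contradiction.  `J ≥ 1`: `C ρ₀ ∣ S_J B^J`.  `C ρ₀` and `B` are
relatively prime (`IsRelPrime`, `R'` is a UFD): a common irreducible divisor of `C ρ₀` is `C p`, `p ∣ ρ₀`
irreducible (degrees in the `X_i`), so associated to `t - t₀`; `C p ∣ B` gives `p ∣ ρ_i` for all `i`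
(`MvPolynomial.C_dvd_iff_dvd_coeff`), so all `ρ_i(t₀) = 0 = ρ₀(t₀)`: contradiction.  So `C ρ₀ ∣ S_J`, `ρ₀`
divides all coefficients of `S_J`.  A nonzero coefficient of `S_J` is a coefficient of `S` at a monomial
with exponent `J ≥ 1` of `none`, so it has degree `< δ = deg ρ₀`: contradiction. -/
def S_Div : Prop :=
  ∀ (n' δ : ℕ) (ρ : Fin n' → Polynomial ℂ) (ρ₀ : Polynomial ℂ), ρ₀.Monic → ρ₀.natDegree = δ →
    (∀ t : ℂ, ρ₀.eval t ≠ 0 ∨ ∃ i, (ρ i).eval t ≠ 0) →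
    ∀ S : MvPolynomial (Option (Fin n')) (Polynomial ℂ),
    (∀ α ∈ S.support, α none = 0 ∨ (coeff α S).natDegree < δ) →
    (∀ (t : ℂ) (l : Fin n' → ℂ) (l₀ : ℂ), (∑ i, (ρ i).eval t * l i) + ρ₀.eval t * l₀ = 0 →
      eval₂ (Polynomial.evalRingHom t) (fun o : Option (Fin n') => o.elim l₀ l) S = 0) → S = 0

/-- The first family: `a^β q₁^j s₀^(m - …) s₁^i`, `e = (β, j, i)`. -/
def fA {n' : ℕ} (m : ℕ) (a : Fin n' → Vx N) (q₁ s₀ s₁ : Vx N) (e : (Fin n' → ℕ) × ℕ × ℕ) : Sx N :=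
  (∏ r, lf (a r) ^ e.1 r) * lf q₁ ^ e.2.1 * lf s₀ ^ (m - ∑ r, e.1 r - e.2.1 - e.2.2) *
    lf s₁ ^ e.2.2

/-- The second family: `b^β w^(m - |β|)`. -/
def fB {n : ℕ} (m : ℕ) (b : Fin n → Vx N) (w : Vx N) (β : Fin n → ℕ) : Sx N :=
  (∏ r, lf (b r) ^ β r) * lf w ^ (m - ∑ r, β r)

/-- (Fa) INDEPENDENCE OF THE FIRST FAMILY.

PROOF.  Suppose some `co e ≠ 0`, `e ∈ T`; let `k` be the minimum of `|β| + j` over these `e = (β, j, i)`;
`k < m`.  Let `t ∈ ℂ`, `y = x + t v ∈ zer I`, `y ≠ 0`.  `G = ∑ co e fA e + R ∈ I`.  `lf (a r)`, `lf q₁` vanish at `y`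
(`ax`, `av`, `qx`, `qv`), so `fA e ∈ (ptI y)^(|β| + j)`; `lineI x v ≤ ptI y`, so `R ∈ (ptI y)^m`.  So
`G ∈ (ptI y)^k` and by `S_Ini` `coeff k (lin y τ G) = 0` for `τ ∈ TS I y`.  `lin y τ (lf b) = C (dp b y) + C (dp b τ) t'`.  So
`coeff k` of `lin y τ (fA e)` is `0` for `|β| + j > k` and
`∏ (dp (a r) τ)^(β r) (dp q₁ τ)^j (dp s₀ y)^… (dp s₁ y)^i = ∏ (dp (a r) τ)^(β r) (dp q₁ τ)^j t^i` for
`|β| + j = k`; `coeff k (lin y τ R) = 0`.  Let `S = ∑_(e ∈ T, |β| + j = k) monomial (β, none ↦ j) (C (co e) t^i)`.  By `sur`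
the hypotheses of `S_Div` hold (for each monomial with `j ≥ 1` the coefficient is a polynomial in `t` of
degree `< δ`, as all `i < δ`).  So `S = 0`, and `co e = 0` for all `e ∈ T` with `|β| + j = k` (different `e` give
different (monomial, power of `t`)): contradiction. -/
def S_Fa : Prop :=
  ∀ (N c : ℕ) (I : Ideal (Sx N)), I.IsPrime → IsHom I → Smooth I c → ∀ x v : Vx N, IsLine I x v →
    ∀ (n' δ : ℕ) (a : Fin n' → Vx N) (q₁ : Vx N) (ρ : Fin n' → Polynomial ℂ)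
    (ρ₀ : Polynomial ℂ), LD I x v n' δ a q₁ ρ ρ₀ → ∀ s₀ s₁ : Vx N, dp s₀ x = 1 → dp s₀ v = 0 →
    dp s₁ x = 0 → dp s₁ v = 1 → ∀ (m : ℕ) (T : Finset ((Fin n' → ℕ) × ℕ × ℕ)),
    (∀ e ∈ T, (∑ r, e.1 r) + e.2.1 + e.2.2 ≤ m ∧ (∑ r, e.1 r) + e.2.1 < m ∧
      (e.2.1 = 0 ∨ e.2.2 < δ)) →
    ∀ (co : (Fin n' → ℕ) × ℕ × ℕ → ℂ) (R : Sx N), R ∈ (lineI x v) ^ m →
    (∑ e ∈ T, C (co e) * fA m a q₁ s₀ s₁ e) + R ∈ I → ∀ e ∈ T, co e = 0

/-- (Fb) INDEPENDENCE OF THE SECOND FAMILY.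

PROOF.  Suppose `co (i, β) ≠ 0` for some `(i, β) ∈ T`; fix such an `i` and let `k` be the minimum of `|β|` over
the `β` with `(i, β) ∈ T`, `co (i, β) ≠ 0`; `k < m`.  `y = z i`.  For `j ≠ i` `fB m b (w j) β ∈ (ptI y)^m` (all linear
factors vanish at `y`; the number of factors is `m` as `|β| < m`), and `fB m b (w i) β ∈ (ptI y)^|β|`.  So the sum
`G` is in `(ptI y)^k` and in `I`; `S_Ini`: for `τ ∈ TS I y`: `0 = coeff k (lin y τ G) = ∑_(|β| = k) co (i, β) ∏ (dp (b r) τ)^(β r)`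
(`dp (w i) y = 1`).  By `sur` the polynomial `∑_(|β| = k) co (i, β) X^β` vanishes on `ℂ^n`, so it is `0`. -/
def S_Fb : Prop :=
  ∀ (N c : ℕ) (I : Ideal (Sx N)), I.IsPrime → IsHom I → Smooth I c → ∀ x v : Vx N,
    ∀ (k n : ℕ) (z : Fin k → Vx N) (b : Fin n → Vx N) (w : Fin k → Vx N), ZD I x v z b w →
    ∀ (m : ℕ) (T : Finset (Fin k × (Fin n → ℕ))), (∀ e ∈ T, ∑ r, e.2 r < m) →
    ∀ co : Fin k × (Fin n → ℕ) → ℂ, ∑ e ∈ T, C (co e) * fB m b (w e.1) e.2 ∈ I →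
    ∀ e ∈ T, co e = 0

/-- (Cnt) THE LOWER BOUND.

PROOF.  `M = m - (δ + 1)`, `n = n' + 1`.  `s₀`, `s₁`: vectors with `dp s₀ x = 1`, … (dual to the independent
`x, v`).  Index set `(Option (Fin δ ⊕ Fin k)) × {β : Fin n → ℕ | |β| ≤ M}` (or `Unit ⊕ Fin δ ⊕ Fin k`), of cardinality
`(1 + δ + k) binom (M + n) n`; `β = (β', β_n)`.  Elements: `none ↦ fA (β', 0, β_n)`;
`inl i ↦ fA (β', β_n + 1, i)`; `inr j ↦ fB m b (w j) β`.  They are forms of degree `m` (`lf` is homogeneous of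
degree `1`; exponents add up to `m`), the conditions of `S_Fa`, `S_Fb` hold: `|β'| + β_n ≤ M < m`;
`|β'| + (β_n + 1) + i ≤ M + 1 + (δ - 1) = m - 1`, `|β'| + β_n + 1 ≤ M + 1 = m - δ < m` (there `δ ≥ 1`), `i < δ`;
`|β| ≤ M < m`; the map to the indices `e` is injective.  The elements `fB` are in `(lineI x v)^m` (`m` linear
factors vanishing on the line; `lf b' ∈ lineI x v` if `dp b' x = dp b' v = 0`).  So a combination of the family
which is in `I` has all coefficients `0` (`S_Fa` for the first two groups with `R` = the rest, then `S_Fb`).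
So their classes in `gr I m` are independent; `gr I m` is finite-dimensional. -/
def S_Cnt : Prop :=
  ∀ (N k n' c : ℕ) (I : Ideal (Sx N)), I.IsPrime → IsHom I → Smooth I c → ∀ x v : Vx N,
    IsLine I x v → ∀ (δ : ℕ) (a : Fin n' → Vx N) (q₁ : Vx N) (ρ : Fin n' → Polynomial ℂ)
    (ρ₀ : Polynomial ℂ), LD I x v n' δ a q₁ ρ ρ₀ → ∀ (z : Fin k → Vx N)
    (b : Fin (n' + 1) → Vx N) (w : Fin k → Vx N), ZD I x v z b w → ∀ m : ℕ, δ + 1 ≤ m →
    (k + 1 + δ) * Nat.choose (m - (δ + 1) + (n' + 1)) (n' + 1) ≤ Module.finrank ℂ (gr I m)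

/-- (Gro) GROWTH.  PROOF.  `binom (M + 1 + n) n / binom (M + n) n = (M + 1 + n) / (M + 1)` tends to `1` for
`M → ∞`, so `binom (M + r + n) n / binom (M + n) n → 1` (compare `L/Rank.lean`).  If `A ≥ D + 1` then
`(D + 1) binom (M + n) n ≤ D binom (M + r + n) n` for all `M`: contradiction for large `M`. -/
def S_Gro : Prop :=
  ∀ n A D r : ℕ, (∀ m : ℕ, r ≤ m → A * Nat.choose (m - r + n) n ≤ D * Nat.choose (m + n) n) → A ≤ D

/-- (Pa) LEMMA P1.

PROOF.  `S_Zs`: `z`; `S_Hz`: `b`, `w`.  `L : Loc I x (k + 1)` (`S_Loc`), `S_Good`: `μ` with `L.good (v + μ x)`; replace `v`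
by `v' = v + μ x`: `IsLine I x v'`, `lineI x v' = lineI x v` (`JAsmAux.lineI_add`, so `DegEq` is the same), and
`Trv I ![x, v'] z₀` (the span is the same).  (Do this first, then choose `z`.)  `S_Us`: `u`.  `S_Qa`: `δ, p, q`; `S_Qb`:
`finrank (ℂ[t]^(k+1) / L.E v') ≤ δ`.  `RLAux.exists_deg` (`Z/RL.lean`; its proof: `jSur`) gives
`DegEq I (k+1) b x v'` with `b = k + 1 + finrank (…) ≤ k + 1 + δ` (reprove it with this value of `b`).  `S_Hy`:
`a, q₁, ρ, ρ₀`.  `S_Cnt` and the hypothesis: `(k + 1 + δ) binom (m - (δ+1) + (n'+1)) (n'+1) ≤ D binom (m + (n'+1)) (n'+1)`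
for `m ≥ δ + 1`; `S_Gro`: `k + 1 + δ ≤ D`. -/
def S_Pa : Prop :=
  ∀ (N k n' D : ℕ) (I : Ideal (Sx N)), N = n' + k + 2 → 1 ≤ k → I.IsPrime → IsHom I →
    (∀ F ∈ I, F.IsHomogeneous 1 → F = 0) → Smooth I (k + 1) →
    (∀ m, Module.finrank ℂ (gr I m) ≤ D * Nat.choose (m + (n' + 1)) (n' + 1)) →
    ∀ x v : Vx N, IsLine I x v → (∃ z₀ ∈ zer I, z₀ ≠ 0 ∧ Trv I ![x, v] z₀) →
    ∃ b ≤ D, DegEq I (k + 1) b x v

/-! ## P2: not all lines meet all tangent spaces -/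

/-- (Cone) `X` is not a cone.

PROOF.  By induction `dd k` iterated maps `F ∈ I` into `I`, so the coefficients of the polynomial `F(y + t k)` in
`t` (Taylor: `t^j / j! (dd k)^j F (y)`) vanish for `y ∈ zer I`: `F(y + t k) = 0` for `y ∈ zer I`, `t ∈ ℂ`, `F ∈ I`.
(`lin y k F = 0`: its derivatives at `0`; or use that `t ↦ eval (y + t k) F` is a polynomial function `f` with
`f' = eval (y + t k) (dd k F)`; e.g. show by strong induction on the degree of `f` …, or that all iterated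
derivatives at `0` vanish.)  `0 ∈ zer I` (homogeneous, prime).  So `k ∈ zer I`, and for `y ∈ zer I`, `s, t ∈ ℂ`:
`F(s y + t k) = 0` (`s y ∈ zer I`).  The derivative with respect to `s` at `s = 0`, `t = 1`:
`dp (grad F k) y = 0` for all `y ∈ zer I`: the linear form `lf (grad F k)` vanishes on `zer I`, is in `I`
(`S_Null`), so it is `0` and `grad F k = 0` for all `F ∈ I`: contradiction to `Smooth` at `k ≠ 0` (`c ≥ 1`). -/
def S_Cone : Prop :=
  ∀ (N c : ℕ) (I : Ideal (Sx N)), 1 ≤ c → I.IsPrime → IsHom I →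
    (∀ F ∈ I, F.IsHomogeneous 1 → F = 0) → Smooth I c → ∀ k : Vx N, k ≠ 0 →
    (∀ F ∈ I, dd k F ∈ I) → False

/-- (Fam) A FAMILY OF LINES which covers `X`.

PROOF.  `σ = Fin (N+1) ⊕ Fin (N+1)`.  `𝔞` = ideal of `MvPolynomial σ ℂ` generated by the coefficients of the
polynomials `F(s u + t v)` in `s, t`, `F ∈ I` (`u_i = X (inl i)`, `v_i = X (inr i)`), i.e. by the `G` for which
…: simplest: `𝔞 = {G | eval (Sum.elim u v) G = 0 for all (u, v) with s u + t v ∈ zer I for all s, t}`, the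
vanishing ideal of `Z = {(u, v) | ∀ s t, s u + t v ∈ zer I}`; `Z` is its zero set, because for `(u₀, v₀) ∉ Z`
some coefficient polynomial of some `F(s u + t v)` does not vanish at `(u₀, v₀)` and vanishes on `Z`.
`𝔞` is a radical ideal of a noetherian ring: finitely many minimal primes `𝔮_j`
(`Ideal.finite_minimalPrimes_of_isNoetherianRing`), their intersection is `𝔞` (`Ideal.sInf_minimalPrimes`), so a
point of `Z` is a zero of some `𝔮_j` (otherwise the product of elements of the `𝔮_j` not vanishing at it is in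
`𝔞`), and zeros of `𝔮_j ≥ 𝔞` are in `Z`.  Suppose that for every `j` there is `g_j ∉ I` such that there is no zero
`(u, v)` of `𝔮_j` with `u, v` independent and `g_j(u) ≠ 0`.  `g = X_l ∏ g_j ∉ I` (`X_l ∉ I`: there is a nonzero zero of
`I`); `S_Null`: `u ∈ zer I`, `g(u) ≠ 0`, `u ≠ 0`; `Covered`: `v` independent of `u`, `(u, v) ∈ Z`, so it is a zero of some
`𝔮_j`: contradiction. -/
def S_Fam : Prop :=
  ∀ (N : ℕ) (I : Ideal (Sx N)), I.IsPrime → IsHom I → (∃ y ∈ zer I, y ≠ 0) → Covered I →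
    ∃ q : Ideal (MvPolynomial (Fin (N + 1) ⊕ Fin (N + 1)) ℂ), q.IsPrime ∧
      (∀ u v : Vx N, (∀ F ∈ q, eval (Sum.elim u v) F = 0) → ∀ s t : ℂ, s • u + t • v ∈ zer I) ∧
      ∀ g : Sx N, g ∉ I → ∃ u v : Vx N, (∀ F ∈ q, eval (Sum.elim u v) F = 0) ∧
        LinearIndependent ℂ ![u, v] ∧ eval u g ≠ 0

/-- (Der) DERIVATIONS of a finitely generated field over `ℂ`.

PROOF.  `f` is transcendental over `ℂ` (`ℂ` is algebraically closed).  A transcendence basis `b` of `L` over `ℂ`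
with `{f} ⊆ b ⊆ {f} ∪ range x` (`exists_isTranscendenceBasis_between`); `b` is finite.
`F = IntermediateField.adjoin ℂ b`; `L` is algebraic and finitely generated over `F`, so finite-dimensional.
`MvPolynomial b ℂ → L` is injective, `F` is (isomorphic to) its field of fractions; the derivation
`pderiv f` of `MvPolynomial b ℂ` extends to the field of fractions
(`Derivation` of a localization: `Derivation.liftOfIsLocalization…`, or define
`D (p / q) = (q D p - p D q) / q^2`), giving `D : F → F` with `D f = 1`, `D ℂ = 0`.  In characteristic `0` it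
extends to the finite extension `L` (`Mathlib.FieldTheory.Differential.Basic`:
`Differential.differentialFiniteDimensional`, `differentialAlgebraFiniteDimensional`); the extension `θ` is a
`ℤ`-derivation that kills `ℂ`, so it is a `ℂ`-derivation; `θ f = 1`. -/
def S_Der : Prop :=
  ∀ (L : Type) [Field L] [Algebra ℂ L] (n : ℕ) (x : Fin n → L),
    IntermediateField.adjoin ℂ (Set.range x) = ⊤ → ∀ f : L, (∀ a : ℂ, algebraMap ℂ L a ≠ f) →
    ∃ θ : Derivation ℂ L L, θ f ≠ 0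

section

variable {A : Type} [CommRing A] [Algebra ℂ A]

/-- `∑ ∂_i F (z) a_i`. -/
def d1 (F : Sx N) (z : Vx N) (a : Fin (N + 1) → A) : A :=
  ∑ i, algebraMap ℂ A (eval z (pderiv i F)) * a i

/-- `∑ ∂_i ∂_j F (z) a_i b_j`. -/
def d2 (F : Sx N) (z : Vx N) (a b : Fin (N + 1) → A) : A :=
  ∑ i, ∑ j, algebraMap ℂ A (eval z (pderiv i (pderiv j F))) * a i * b j

/-- The tangent vector `y = G_u(z) v - G_v(z) u`. -/
def yV (G : Sx N) (z : Vx N) (u v : Fin (N + 1) → A) : Fin (N + 1) → A :=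
  fun i => d1 G z u * v i - d1 G z v * u i

/-- `W = G_v D_Y(G_u) - G_u D_Y(G_v)` (the curvature of the plane curve). -/
def wV (G : Sx N) (z : Vx N) (u v : Fin (N + 1) → A) : A :=
  d1 G z v * d2 G z (yV G z u v) u - d1 G z u * d2 G z (yV G z u v) v

end

/-- `P` (coefficients in `L`) vanishes on the cone over `X`. -/
def Van (I : Ideal (Sx N)) {L : Type} [Field L] [Algebra ℂ L]
    (P : MvPolynomial (Fin (N + 1)) L) : Prop :=
  ∀ z ∈ zer I, eval (fun i => algebraMap ℂ L (z i)) P = 0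

/-- (Van) POLYNOMIALS WITH COEFFICIENTS IN A FIELD `L ⊇ ℂ` VANISHING ON `X`.

PROOF.  (1) Suppose `P(z₁) ≠ 0`, `P'(z₂) ≠ 0`, `z₁, z₂ ∈ zer I`.  Choose `ℂ`-linear `λ, λ' : L → ℂ` with
`λ(P(z₁)) ≠ 0`, `λ'(P'(z₂)) ≠ 0`; let `P_λ ∈ Sx N` be the polynomial with the coefficients `λ(coeff P)`:
`P_λ(z) = λ(P(z))` for `z ∈ ℂ^(N+1)`.  So `P_λ, P'_λ' ∉ I`, `P_λ P'_λ' ∉ I` and there is `z ∈ zer I` with
`P_λ(z) P'_λ'(z) ≠ 0` (`S_Null`), so `P(z) P'(z) ≠ 0`.
(2) If `P` vanishes on `zer I` then `P` is in the ideal generated by the `map (algebraMap ℂ L) F`, `F ∈ I`: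
with a basis `ε` of `L` over `ℂ`, `P = ∑_ε C ε * map P_ε` (finite sum, `P_ε` = the coordinates of the
coefficients), for `z ∈ zer I` `0 = P(z) = ∑ ε P_ε(z)`, so `P_ε(z) = 0`, `P_ε ∈ I`.  For `P = ∑ h_j map F_j`:
`∑ b_i ∂_i P = ∑_j (∑ b_i ∂_i h_j) map F_j + h_j ∑ b_i map (∂_i F_j)` vanishes on `zer I`. -/
def S_Van : Prop :=
  ∀ (N : ℕ) (I : Ideal (Sx N)), I.IsPrime → IsHom I → ∀ (L : Type) [Field L] [Algebra ℂ L],
    (∀ P P' : MvPolynomial (Fin (N + 1)) L, Van I (P * P') → Van I P ∨ Van I P') ∧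
    ∀ b : Fin (N + 1) → MvPolynomial (Fin (N + 1)) L,
      (∀ F ∈ I, Van I (∑ i, b i * map (algebraMap ℂ L) (pderiv i F))) →
      ∀ P : MvPolynomial (Fin (N + 1)) L, Van I P → Van I (∑ i, b i * pderiv i P)

/-- (CsA) CASE A: the plane curves are lines.

PROOF.  `α = dd u G`, `β = dd v G`, `Y_i = α C (v i) - β C (u i)`, `D = ∑ Y_i ∂_i` (a derivation of `Sx N`);
`eval z (dd a F) = d1 F z a`.
(0) `α ∉ I` (hypothesis).  For `F ∈ I`: `α dd v F - β dd u F ∈ I` (`hbad` for the line `(u, v)`), i.e. `D F ∈ I`: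
`D` maps `I` to `I` (`D(hF) = h D F + F D h`).  `hW`: `β D α - α D β ∈ I` (it vanishes on `zer I`:
`d2 G z (yV G z u v) u = eval z (D α)`).  So `α D(Y_i) = α (D α C (v i) - D β C (u i)) ≡ D α (α C (v i) - β C (u i)) =
D α Y_i` modulo `I`.
(1) For `F ∈ I` let `p_k ∈ Sx N` be the coefficients of `F(X + T Y) = ∑ p_k T^k` (`aeval (fun i => C (X i) + C (Y i) * X)`
into `Polynomial (Sx N)`).  Then `α D(p_k) ≡ (k + 1) α p_(k+1) + k D α p_k` modulo `I`:  `D` (coefficientwise) of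
`F(X + T Y)` is `∑ (∂_i F)(X + T Y) (Y_i + T D(Y_i))`, and `α` times it is modulo `I[T]`
`(α + T D α) ∑ (∂_i F)(X + T Y) Y_i = (α + T D α) d/dT F(X + T Y)`.  By induction `p_k ∈ I` (`p_0 = F`;
`α p_(k+1) ∈ I`, `α ∉ I`).  So for `z ∈ zer I`: `F(z + t Y(z)) = 0` for all `t`, `F ∈ I`.
(2) So for `z ∈ zer I` with `z, Y(z)` independent: `IsLine I z (Y(z))` (homogeneity: `s z + t Y(z)` for `s ≠ 0`;
`s = 0` by `S_LinB` or a polynomial identity).  If `α(z) ≠ 0` and `z ∉ span (u, v)` then they are independent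
(`Y(z) = α(z) v - β(z) u ≠ 0` is in `span (u, v)`).  Let `h` be a linear form `≠ 0` vanishing at `u` and `v`
(`N + 1 ≥ 3`, because `c ≥ 2` gradients are independent and orthogonal to `u`…; `h ∉ I` by `hnd`); `h(z) ≠ 0` gives
`z ∉ span (u, v)`.
(3) Let `z ∈ zer I`, `g(z) α(z) h(z) ≠ 0` (so `z ≠ 0`), `w ∈ zer I`, `F, F' ∈ I`.  `hbad` for the line `(z, Y(z))` at `w`:
`F_z F'_y = F_y F'_z` (`F_a = d1 F w a`, `y = Y(z)`), `F_y = α(z) F_v - β(z) F_u`, and `α(w) F_v = β(w) F_u` (0).  So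
`(α(z) β(w) - β(z) α(w)) (F_z F'_u - F_u F'_z) = 0` (multiply by `α(w)`).
(4) Fix `w`.  The polynomials in `z` `A_w = C (β(w)) α - C (α(w)) β` and
`B_w = C (F'_u) lf (grad F w) - C (F_u) lf (grad F' w)` satisfy: `g α h A_w B_w` vanishes on `zer I`, so `A_w ∈ I` or
`B_w ∈ I`.
(5) If `A_w ∈ I` for some `w ∈ zer I` with `α(w) ≠ 0`: `κ = β(w) / α(w)`: `β - C κ α ∈ I`, so for `F ∈ I`
`α (dd v F - C κ dd u F) ≡ (β - C κ α) dd u F ≡ 0`, `dd (v - κ u) F ∈ I`: contradiction to `S_Cone` (`v - κ u ≠ 0`).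
(6) Otherwise for all `w ∈ zer I` with `α(w) ≠ 0` and all `F, F' ∈ I` the linear form `B_w` is in `I`, so it is `0`
(`hnd`).  Take such a `w`, `w ≠ 0` (`α X_l ∉ I`), `F' = G`: `α(w) grad F w = F_u grad G w` for all `F ∈ I`: the
gradients at `w` span a space of dimension `≤ 1`: contradiction to `Smooth`, `c ≥ 2`. -/
def S_CsA : Prop :=
  ∀ (N c : ℕ) (I : Ideal (Sx N)), 2 ≤ c → I.IsPrime → IsHom I →
    (∀ F ∈ I, F.IsHomogeneous 1 → F = 0) → Smooth I c → (∃ y ∈ zer I, y ≠ 0) →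
    ∀ g : Sx N, g ∉ I → (∀ x v : Vx N, IsLine I x v → eval x g ≠ 0 → ∀ F ∈ I, ∀ G ∈ I,
      dd x F * dd v G - dd v F * dd x G ∈ I) →
    ∀ u v : Vx N, IsLine I u v → eval u g ≠ 0 → ∀ G ∈ I, (∃ z ∈ zer I, d1 G z u ≠ 0) →
    (∀ z ∈ zer I, wV G z u v = 0) → False

/-- (CsB) CASE B: the symmetry of the second fundamental form.

PROOF.  For a constant vector `a : Fin (N+1) → L` and `F ∈ Sx N` let `F_a = ∑ C (a i) map (∂_i F) ∈ L[z]`;
`F_a(z) = d1 F z a`.  `α = G_u`, `β = G_v`, `Y_i = α C (v i) - β C (u i)`.  For a field `b : Fin (N+1) → L[z]` put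
`D_b P = ∑ b_i ∂_i P`, `F(b) = ∑ b_i map (∂_i F)`; `b` is TANGENT if `Van (F(b))` for all `F ∈ I`.
(1) `Y` is tangent: `F(Y) = α F_v - β F_u`.  Let `θ : Derivation ℂ L L`, `η = θ ∘ u`, `η' = θ ∘ v`.
`Ξ_i = G_η C (v i) + α C (η' i) - G_η' C (u i) - β C (η i)`: `Ξ` is tangent, as for `z ∈ zer I`, `F ∈ I` `F(Ξ)(z)` is `θ` of
`F(Y)(z) = F_u… = 0` (`θ(d1 F z a) = d1 F z (θ ∘ a)`).
(2) The bracket: by `S_Van` (2) with `b = Ξ`, `P = F(Y)` and with `b = Y`, `P = F(Ξ)`: `D_Ξ(F(Y))` and `D_Y(F(Ξ))` vanish on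
`zer I`; subtract (the terms with `∂_i ∂_j F` cancel): `∑_i (D_Y(Ξ_i) - D_Ξ(Y_i)) map (∂_i F)` vanishes on `zer I`.  With
`D_Y(G_a)(z) = d2 G z (Y(z)) a`:
`D_Y(Ξ_i) = D_Y(G_η) v_i + D_Y(α) η'_i - D_Y(G_η') u_i - D_Y(β) η_i`, `D_Ξ(Y_i) = D_Ξ(α) v_i - D_Ξ(β) u_i`.
(3) At `z ∈ zer I` (all numbers in `L`): `α F_v = β F_u`;  `G_η F_v + α F_η' - G_η' F_u - β F_η = 0`;
`P₁ F_v - P₂ F_u + D_Yα F_η' - D_Yβ F_η = 0` with `P₁, P₂` independent of `F`.  Multiply the last by `α^2`: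
`α (β D_Yα - α D_Yβ) F_η + κ F_u = 0`, `κ` independent of `F`; and `β D_Yα - α D_Yβ = wV G z u v`.  So for `F, F' ∈ I`:
`α(z) W(z) (F_η F'_u - F'_η F_u)(z) = 0`, `W` = the polynomial in `z` with `W(z) = wV G z u v`.  By `S_Van` (1) and the two
nonvanishing hypotheses `F_η F'_u - F'_η F_u` vanishes on `zer I`, for every `θ`.
(4) Take `z ∈ zer I`, `z ≠ 0` and `F, F' ∈ I` with independent gradients at `z` (`Smooth`, `c ≥ 2`).  `φ = d1 F z u`,
`γ = d1 F' z u ∈ L`, `γ ≠ 0` (`u` is linearly independent over `ℂ` and `grad F' z ≠ 0`).  `θ(φ) γ = θ(γ) φ` for all `θ`, so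
`θ(φ / γ) = 0` for all `θ` (`Derivation.leibniz_div`), and by `S_Der` `φ / γ = a ∈ ℂ`; `∑ (∂_i F(z) - a ∂_i F'(z)) u_i = 0`, so
`grad F z = a grad F' z`: contradiction. -/
def S_CsB : Prop :=
  ∀ (N c : ℕ) (I : Ideal (Sx N)), 2 ≤ c → I.IsPrime → IsHom I →
    (∀ F ∈ I, F.IsHomogeneous 1 → F = 0) → Smooth I c → (∃ y ∈ zer I, y ≠ 0) →
    ∀ (L : Type) [Field L] [Algebra ℂ L] (n : ℕ) (x : Fin n → L),
    IntermediateField.adjoin ℂ (Set.range x) = ⊤ → ∀ u v : Fin (N + 1) → L,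
    LinearIndependent ℂ u →
    (∀ z ∈ zer I, ∀ F ∈ I, ∀ G ∈ I, d1 F z u * d1 G z v = d1 F z v * d1 G z u) →
    ∀ G ∈ I, (∃ z ∈ zer I, d1 G z u ≠ 0) → (∃ z ∈ zer I, wV G z u v ≠ 0) → False

/-- (Pb) LEMMA P2.

PROOF.  Suppose not, for some `g`.  (0) `hbad`: for `IsLine I x v`, `g(x) ≠ 0`, `F, G ∈ I`:
`dd x F * dd v G - dd v F * dd x G ∈ I`: for `z ∈ zer I`, `z ≠ 0`, not `Trv I ![x, v] z`, so there is `(a, b) ≠ 0` with
`a x + b v ∈ TS I z`, `a F_x + b F_v = 0` for all `F ∈ I` and the determinant vanishes at `z`; multiply by a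
variable `X_l ∉ I` (to include `z = 0`) and use `S_Null`, `I` prime.  `X` is not empty (`∃ y ∈ zer I, y ≠ 0`, by
`hnd`: otherwise `X 0 ∈ I`).
(1) `S_Fam`: `q`.  `B = MvPolynomial (Fin (N+1) ⊕ Fin (N+1)) ℂ ⧸ q`, `L = FractionRing B`, `u_i`, `v_i` the classes of
`X (inl i)`, `X (inr i)`; they generate `L`.  `u` is linearly independent: `∑ a_i u_i = 0`, `a ≠ 0`: the linear form
`lf a` is not in `I` (`hnd`), so there is a zero `(u₀, v₀)` of `q` with `lf a (u₀) ≠ 0`, but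
`rename inl (lf a) ∈ q`: contradiction.
(2) For `z ∈ zer I`, `F, G ∈ I`: `P = d1 F z u d1 G z v - d1 F z v d1 G z u` (over the polynomial ring, `u_i = X (inl i)`) is in
`q`: let `(u₀, v₀)` be a zero of `q` with `g(u₀) ≠ 0`; if `u₀ = 0` or `u₀, v₀` are dependent then `P(u₀, v₀) = 0`; otherwise
`IsLine I u₀ v₀` and `hbad`.  So `(rename inl g) P` vanishes on the zeros of `q` and is in `q` (Nullstellensatz
`MvPolynomial.vanishingIdeal_zeroLocus_eq_radical`, `q` prime); `rename inl g ∉ q` (`S_Fam`, last part).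
(3) `z₁ ∈ zer I`, `z₁ ≠ 0`, `G ∈ I` with `grad G z₁ ≠ 0` (`Smooth`, `c ≥ 1`): `d1 G z₁ u ≠ 0` by (1).
(4) If `wV G z u v ≠ 0` in `L` for some `z ∈ zer I`: `S_CsB`.  Otherwise `wV G z (X ∘ inl) (X ∘ inr) ∈ q` for all
`z ∈ zer I` (`d1`, `d2`, `yV`, `wV` commute with `ℂ`-algebra homomorphisms).  `S_Fam` for
`g * lf (grad G z₁) ∉ I`: `(u₀, v₀)` a zero of `q`, independent, `g(u₀) ≠ 0`, `d1 G z₁ u₀ ≠ 0`; `IsLine I u₀ v₀`;
`wV G z u₀ v₀ = 0` for all `z ∈ zer I`: `S_CsA`. -/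
def S_Pb : Prop :=
  ∀ (N c : ℕ) (I : Ideal (Sx N)), 2 ≤ c → I.IsPrime → IsHom I →
    (∀ F ∈ I, F.IsHomogeneous 1 → F = 0) → Smooth I c → Covered I → ∀ g : Sx N, g ∉ I →
    ∃ x v : Vx N, IsLine I x v ∧ eval x g ≠ 0 ∧ ∃ z₀ ∈ zer I, z₀ ≠ 0 ∧ Trv I ![x, v] z₀

/-! ## Conclusion -/

/-- (ClG) `S_CloseD` for a dense set of points.

PROOF.  The proof of `closeD` (`R/CloseD.lean`) uses the hypothesis only for one point `x` with
`(g Δ X_l)(x) ≠ 0`; here apply the hypothesis to `Δ * X l ∉ I` (or to `Δ X_l g`). -/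
def S_ClG : Prop :=
  ∀ (N D : ℕ) (I : Ideal (Sx N)), I.IsPrime → IsHom I →
    (∀ g : Sx N, g ∉ I → ∃ x ∈ zer I, x ≠ 0 ∧ eval x g ≠ 0 ∧ ∃ P : Ideal (Sx N), P.IsPrime ∧
      IsHom P ∧ DimGe P (D + 2) ∧ ∀ z ∈ zer P, ∀ s t : ℂ, s • x + t • z ∈ zer I) →
    ∀ y ∈ zer I, y ≠ 0 → ∃ P : Ideal (Sx N), P.IsPrime ∧ IsHom P ∧ I ≤ P ∧ DimGe P (D + 2) ∧
      (∀ v ∈ zer P, ∀ s : ℂ, v + s • y ∈ zer P) ∧
      ∀ z ∈ zer P, ∀ s t : ℂ, s • y + t • z ∈ zer I

/-- THE THEOREM: small degree, no hypothesis on lines.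

PROOF.  `c = 1`: `wQ` (`Z/Fin.lean`), second alternative.  `c = k + 1 ≥ 2`: `D = ∑ h_i ≤ n - 1`; `gr_le` (`Z/RL.lean`),
`mCovH`: `Covered I`.  For `g ∉ I`: `S_Pb`: `x, v, z₀`; `S_Pa` (`n' = n - 1`): `b ≤ D`, `DegEq I c b x v`; `H.mLineE`:
`P` with `DimGe P (N + 1 - b)`, `N + 1 - b ≥ c + 2`.  `S_ClG` (`D := c`), `wRL`. -/
def S_QS : Prop :=
  ∀ (N n c s : ℕ) (I : Ideal (Sx N)) (h : ℕ → ℕ), N = n + c → 1 ≤ c → I.IsPrime → IsHom I →
    (∀ F ∈ I, F.IsHomogeneous 1 → F = 0) → Smooth I c → h 0 = 1 →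
    (∀ᶠ k : ℕ in Filter.atTop, Module.finrank ℂ (gr I k) = hsum n s h k) →
    (∀ (k r : ℕ) (f : Fin r → (Vx N → ℂ)), (∀ i, IsReg I k (f i)) → LinearIndependent ℂ f →
      r ≤ hsum n s h k) →
    3 * c + 2 * s + 1 ≤ N → ∑ i ∈ Finset.range (s + 1), h i + 1 ≤ n →
    ∃ (d : Fin c → ℕ) (G : Fin c → Sx N), (∀ i, 2 ≤ d i ∧ (G i).IsHomogeneous (d i)) ∧
      I = Ideal.span (Set.range G)

end Pool.Agent.Lib.MP_776403_ag.SD.LI
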