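import Pool.Agent.Lib.MP_776403_ag.SD.LI.Spec

/-!
# LEMMA I, module Cnt (helper62): the lower bound of the Hilbert function
-/

set_option autoImplicit false

open MvPolynomial

noncomputable section

namespace Pool.Agent.Lib.MP_776403_ag.SD.LI

namespace CntAux

variable {N : ℕ}

/-- exponents of degree at most `M` -/
theorem exB (n M : ℕ) : ∃ B : Finset (Fin n → ℕ), (∀ β ∈ B, ∑ r, β r ≤ M) ∧
    B.card = Nat.choose (M + n) n := by
  classical
  have hmem : ∀ f ∈ (Finset.univ : Finset (Fin (n + 1))).finsuppAntidiag M,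
      ∑ r : Fin n, f r.castSucc + f (Fin.last n) = M := by
    intro f hf
    have h1 := (Finset.mem_finsuppAntidiag.1 hf).1
    rwa [Fin.sum_univ_castSucc] at h1
  refine ⟨((Finset.univ : Finset (Fin (n + 1))).finsuppAntidiag M).image
    (fun (f : Fin (n + 1) →₀ ℕ) (r : Fin n) => f r.castSucc), ?_, ?_⟩
  · intro β hβ
    obtain ⟨f, hf, rfl⟩ := Finset.mem_image.1 hβ
    have h1 := hmem f hf
    exact Nat.le.intro h1
  · rw [Finset.card_image_of_injOn, Finset.card_finsuppAntidiag_nat_eq_choose, Finset.card_univ,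
      Fintype.card_fin]
    · have e : n + 1 + M - 1 = M + n := by omega
      rw [e]
      exact Nat.choose_symm_add
    · intro f hf g hg hfg
      have hc : ∀ r : Fin n, f r.castSucc = g r.castSucc := fun r => congrFun hfg r
      have h1 := hmem f hf
      have h2 := hmem g hg
      simp only [hc] at h1
      have hl : f (Fin.last n) = g (Fin.last n) := by omega
      ext r
      refine Fin.lastCases hl (fun r => hc r) r

/-- independent forms modulo `I` -/
theorem card_le (I : Ideal (Sx N)) (m : ℕ) {ι : Type} [Fintype ι] (f : ι → Sx N)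
    (hf : ∀ i, (f i).IsHomogeneous m)
    (hind : ∀ co : ι → ℂ, ∑ i, C (co i) * f i ∈ I → ∀ i, co i = 0) :
    Fintype.card ι ≤ Module.finrank ℂ (gr I m) := by
  have hfin : Module.Finite ℂ (gr I m) :=
    Module.Finite.iff_fg.2 ((homogeneousSubmodule_fg (Fin (N + 1)) ℂ m).map _)
  have hmem : ∀ i, Ideal.Quotient.mk I (f i) ∈ gr I m := fun i => ⟨f i, hf i, rfl⟩
  have hli : LinearIndependent ℂ (fun i => (⟨Ideal.Quotient.mk I (f i), hmem i⟩ : gr I m)) := by
    rw [Fintype.linearIndependent_iff]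
    intro co h0
    refine hind co ?_
    have h1 := congrArg (Submodule.subtype (gr I m)) h0
    rw [map_sum, map_zero] at h1
    rw [← Ideal.Quotient.eq_zero_iff_mem, map_sum, ← h1]
    refine Finset.sum_congr rfl fun i _ => ?_
    rw [map_smul, Submodule.subtype_apply, ← smul_eq_C_mul]
    exact (Submodule.Quotient.mk_smul _ _ _)
  exact hli.fintype_card_le_finrank

theorem lf_hom (a : Vx N) : (lf a).IsHomogeneous 1 := by
  unfold lf
  refine IsHomogeneous.sum _ _ _ fun i _ => ?_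
  have := (isHomogeneous_C (Fin (N + 1)) (a i)).mul (isHomogeneous_X ℂ i)
  rwa [zero_add] at this

theorem lf_pow_hom (a : Vx N) (n : ℕ) : (lf a ^ n).IsHomogeneous n := by
  have := (lf_hom a).pow n
  rwa [one_mul] at this

theorem lf_mem {x v a : Vx N} (hx : dp a x = 0) (hv : dp a v = 0) : lf a ∈ lineI x v := by
  intro s t
  have e : eval (s • x + t • v) (lf a) = s * dp a x + t * dp a v := by
    unfold lf dp
    rw [map_sum, Finset.mul_sum, Finset.mul_sum, ← Finset.sum_add_distrib]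
    refine Finset.sum_congr rfl fun i _ => ?_
    rw [map_mul, eval_C, eval_X, Pi.add_apply, Pi.smul_apply, Pi.smul_apply, smul_eq_mul, smul_eq_mul]
    ring
  rw [e, hx, hv]
  ring

/-- dual vectors -/
theorem dual {x v : Vx N} (h : LinearIndependent ℂ ![x, v]) : ∃ s₀ s₁ : Vx N,
    dp s₀ x = 1 ∧ dp s₀ v = 0 ∧ dp s₁ x = 0 ∧ dp s₁ v = 1 := by
  obtain ⟨g, hg⟩ := LinearMap.exists_leftInverse_of_injective (Fintype.linearCombination ℂ ![x, v])
    (LinearMap.ker_eq_bot.2 h.fintypeLinearCombination_injective)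
  have hgx : g x = Pi.single 0 1 := by
    have := LinearMap.congr_fun hg (Pi.single 0 1)
    rw [LinearMap.comp_apply, Fintype.linearCombination_apply_single] at this
    simpa using this
  have hgv : g v = Pi.single 1 1 := by
    have := LinearMap.congr_fun hg (Pi.single 1 1)
    rw [LinearMap.comp_apply, Fintype.linearCombination_apply_single] at this
    simpa using this
  have hdp : ∀ (i : Fin 2) (y : Vx N), dp (fun j => g (Pi.single j 1) i) y = g y i := by
    intro i y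
    have h1 : y = ∑ j, y j • (Pi.single j 1 : Vx N) := by
      ext l
      rw [Finset.sum_apply]
      simp [Pi.single_apply]
    conv_rhs => rw [h1, map_sum, Finset.sum_apply]
    unfold dp
    refine Finset.sum_congr rfl fun j _ => ?_
    rw [map_smul, Pi.smul_apply, smul_eq_mul, mul_comm]
  refine ⟨fun j => g (Pi.single j 1) 0, fun j => g (Pi.single j 1) 1, ?_, ?_, ?_, ?_⟩
  · rw [hdp, hgx]; simp
  · rw [hdp, hgv]; simp
  · rw [hdp, hgx]; simp
  · rw [hdp, hgv]; simp

theorem fA_hom {n' m : ℕ} (a : Fin n' → Vx N) (q₁ s₀ s₁ : Vx N) (e : (Fin n' → ℕ) × ℕ × ℕ)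
    (h : (∑ r, e.1 r) + e.2.1 + e.2.2 ≤ m) : (fA m a q₁ s₀ s₁ e).IsHomogeneous m := by
  have h1 : (∏ r, lf (a r) ^ e.1 r).IsHomogeneous (∑ r, e.1 r) :=
    IsHomogeneous.prod _ _ _ fun r _ => lf_pow_hom (a r) (e.1 r)
  have h2 := ((h1.mul (lf_pow_hom q₁ e.2.1)).mul
    (lf_pow_hom s₀ (m - ∑ r, e.1 r - e.2.1 - e.2.2))).mul (lf_pow_hom s₁ e.2.2)
  have e1 : ∑ r, e.1 r + e.2.1 + (m - ∑ r, e.1 r - e.2.1 - e.2.2) + e.2.2 = m := by omega
  rw [e1] at h2
  exact h2

theorem fB_hom {n m : ℕ} (b : Fin n → Vx N) (w : Vx N) (β : Fin n → ℕ) (h : ∑ r, β r ≤ m) :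
    (fB m b w β).IsHomogeneous m := by
  have h1 : (∏ r, lf (b r) ^ β r).IsHomogeneous (∑ r, β r) :=
    IsHomogeneous.prod _ _ _ fun r _ => lf_pow_hom (b r) (β r)
  have h2 := h1.mul (lf_pow_hom w (m - ∑ r, β r))
  have e1 : ∑ r, β r + (m - ∑ r, β r) = m := by omega
  rw [e1] at h2
  exact h2

theorem fB_mem {x v : Vx N} {n m : ℕ} (b : Fin n → Vx N) (w : Vx N) (β : Fin n → ℕ) (h : ∑ r, β r ≤ m)
    (hb : ∀ r, lf (b r) ∈ lineI x v) (hw : lf w ∈ lineI x v) : fB m b w β ∈ (lineI x v) ^ m := by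
  have h1 : ∏ r, lf (b r) ^ β r ∈ (lineI x v) ^ (∑ r, β r) := by
    rw [← Finset.prod_pow_eq_pow_sum]
    exact Ideal.prod_mem_prod fun r _ => Ideal.pow_mem_pow (hb r) (β r)
  have h2 := Ideal.mul_mem_mul h1 (Ideal.pow_mem_pow hw (m - ∑ r, β r))
  rw [← pow_add] at h2
  have e1 : ∑ r, β r + (m - ∑ r, β r) = m := by omega
  rw [e1] at h2
  exact h2

end CntAux

open CntAux in
theorem tCnt : S_Fa → S_Fb → S_Cnt := by
  classical
  intro hFa hFb N k n' c I hI hH hS x v hl δ a q₁ ρ ρ₀ hLD z b w hZD m hm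
  obtain ⟨s₀, s₁, d1, d2, d3, d4⟩ := dual hl.1
  set M := m - (δ + 1) with hM
  obtain ⟨B, hB, hBc⟩ := exB (n' + 1) M
  have hsum : ∀ β : Fin (n' + 1) → ℕ, ∑ r, β r = β 0 + ∑ r : Fin n', β r.succ := fun β =>
    Fin.sum_univ_succ β
  set T1 : Finset ((Fin n' → ℕ) × ℕ × ℕ) :=
    B.image (fun β => ((fun r : Fin n' => β r.succ), 0, β 0)) with hT1
  set T2 : Finset ((Fin n' → ℕ) × ℕ × ℕ) := (B ×ˢ (Finset.univ : Finset (Fin δ))).image
    (fun p => ((fun r : Fin n' => p.1 r.succ), p.1 0 + 1, (p.2 : ℕ))) with hT2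
  set TB : Finset (Fin k × (Fin (n' + 1) → ℕ)) := Finset.univ ×ˢ B with hTB
  have hcons : ∀ β γ : Fin (n' + 1) → ℕ, (fun r : Fin n' => β r.succ) = (fun r : Fin n' => γ r.succ) →
      β 0 = γ 0 → β = γ := by
    intro β γ h1 h2
    funext r
    refine Fin.cases h2 (fun r => congrFun h1 r) r
  have c1 : T1.card = B.card := by
    refine Finset.card_image_of_injective _ ?_
    intro β γ h
    simp only [Prod.mk.injEq] at h
    exact hcons β γ h.1 h.2.2
  have c2 : T2.card = B.card * δ := by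
    rw [hT2, Finset.card_image_of_injective, Finset.card_product, Finset.card_univ, Fintype.card_fin]
    rintro ⟨β, i⟩ ⟨γ, j⟩ h
    simp only [Prod.mk.injEq] at h
    have h1 : β = γ := hcons β γ h.1 (by omega)
    have h2 : i = j := Fin.ext h.2.2
    rw [h1, h2]
  have hdis : Disjoint T1 T2 := by
    rw [Finset.disjoint_left]
    intro e h1 h2
    obtain ⟨β, _, rfl⟩ := Finset.mem_image.1 h1
    obtain ⟨p, _, hp⟩ := Finset.mem_image.1 h2
    simp only [Prod.mk.injEq] at hp
    omega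
  have c3 : TB.card = k * B.card := by
    rw [hTB, Finset.card_product, Finset.card_univ, Fintype.card_fin]
  -- the conditions
  have hTA : ∀ e ∈ T1 ∪ T2, (∑ r, e.1 r) + e.2.1 + e.2.2 ≤ m ∧ (∑ r, e.1 r) + e.2.1 < m ∧
      (e.2.1 = 0 ∨ e.2.2 < δ) := by
    intro e he
    rcases Finset.mem_union.1 he with h | h
    · obtain ⟨β, hβ, rfl⟩ := Finset.mem_image.1 h
      have h1 := hB β hβ
      rw [hsum] at h1
      refine ⟨?_, ?_, Or.inl rfl⟩
      · simp only
        omega
      · simp only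
        omega
    · obtain ⟨⟨β, i⟩, hβ, rfl⟩ := Finset.mem_image.1 h
      have h1 := hB β (Finset.mem_product.1 hβ).1
      rw [hsum] at h1
      have h2 := i.2
      refine ⟨?_, ?_, Or.inr h2⟩
      · simp only
        omega
      · simp only
        omega
  have hTBm : ∀ e ∈ TB, ∑ r, e.2 r < m := by
    intro e he
    have h1 := hB e.2 (Finset.mem_product.1 he).2
    omega
  have hbm : ∀ r, lf (b r) ∈ lineI x v := fun r => lf_mem (hZD.bx r) (hZD.bv r)
  have hwm : ∀ i, lf (w i) ∈ lineI x v := fun i => lf_mem (hZD.wx i) (hZD.wv i)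
  have key := card_le I m (ι := (T1 ∪ T2 : Finset ((Fin n' → ℕ) × ℕ × ℕ)) ⊕ TB)
    (Sum.elim (fun e => fA m a q₁ s₀ s₁ e.1) (fun e => fB m b (w e.1.1) e.1.2)) (by
      rintro (e | e)
      · exact fA_hom a q₁ s₀ s₁ e.1 (hTA e.1 e.2).1
      · exact fB_hom b (w e.1.1) e.1.2 (hTBm e.1 e.2).le) (by
      intro co hco
      set coA : (Fin n' → ℕ) × ℕ × ℕ → ℂ := fun e =>
        if h : e ∈ T1 ∪ T2 then co (Sum.inl ⟨e, h⟩) else 0 with hcoA
      set coB : Fin k × (Fin (n' + 1) → ℕ) → ℂ := fun e =>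
        if h : e ∈ TB then co (Sum.inr ⟨e, h⟩) else 0 with hcoB
      have eA : ∀ e : (T1 ∪ T2 : Finset ((Fin n' → ℕ) × ℕ × ℕ)), co (Sum.inl e) = coA e.1 := by
        intro e
        simp only [hcoA]
        rw [dif_pos e.2]
      have eB : ∀ e : TB, co (Sum.inr e) = coB e.1 := by
        intro e
        simp only [hcoB]
        rw [dif_pos e.2]
      set R : Sx N := ∑ e ∈ TB, C (coB e) * fB m b (w e.1) e.2 with hR
      have hsplit : ∑ i, C (co i) * (Sum.elim (fun e : (T1 ∪ T2 : Finset ((Fin n' → ℕ) × ℕ × ℕ)) =>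
            fA m a q₁ s₀ s₁ e.1) (fun e : TB => fB m b (w e.1.1) e.1.2)) i =
          (∑ e ∈ T1 ∪ T2, C (coA e) * fA m a q₁ s₀ s₁ e) + R := by
        rw [Fintype.sum_sum_type]
        congr 1
        · rw [← Finset.sum_coe_sort (T1 ∪ T2) (fun e => C (coA e) * fA m a q₁ s₀ s₁ e)]
          refine Finset.sum_congr rfl fun e _ => ?_
          rw [eA, Sum.elim_inl]
        · rw [hR, ← Finset.sum_coe_sort TB (fun e => C (coB e) * fB m b (w e.1) e.2)]
          refine Finset.sum_congr rfl fun e _ => ?_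
          rw [eB, Sum.elim_inr]
      rw [hsplit] at hco
      have hRm : R ∈ (lineI x v) ^ m := by
        rw [hR]
        exact Ideal.sum_mem _ fun e he => Ideal.mul_mem_left _ _
          (fB_mem b (w e.1) e.2 (hTBm e he).le hbm (hwm e.1))
      have hA0 := hFa N c I hI hH hS x v hl n' δ a q₁ ρ ρ₀ hLD s₀ s₁ d1 d2 d3 d4 m (T1 ∪ T2) hTA coA R
        hRm hco
      have hzero : ∑ e ∈ T1 ∪ T2, C (coA e) * fA m a q₁ s₀ s₁ e = 0 :=
        Finset.sum_eq_zero fun e he => by rw [hA0 e he, C_0, zero_mul]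
      rw [hzero, zero_add] at hco
      have hB0 := hFb N c I hI hH hS x v k (n' + 1) z b w hZD m TB hTBm coB hco
      rintro (e | e)
      · rw [eA]
        exact hA0 e.1 e.2
      · rw [eB]
        exact hB0 e.1 e.2)
  rw [Fintype.card_sum, Fintype.card_coe, Fintype.card_coe, Finset.card_union_of_disjoint hdis, c1, c2, c3,
    hBc] at key
  refine le_trans (le_of_eq ?_) key
  ring

end Pool.Agent.Lib.MP_776403_ag.SD.LI
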