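import Pool.Agent.Lib.MP_776403_ag.SD.LI.Spec

/-!
# Independence of the first family
-/

set_option autoImplicit false

open MvPolynomial

noncomputable section

namespace Pool.Agent.Lib.MP_776403_ag.SD.LI

variable {N : ℕ}

namespace FaAux

theorem eval_lf (a y : Vx N) : eval y (lf a) = dp a y := by
  simp [lf, dp]

theorem lf_mem {a y : Vx N} (h : dp a y = 0) : lf a ∈ ptI y := by
  rw [ptI, RingHom.mem_ker, eval_lf, h]

theorem lin_lf (y τ a : Vx N) :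
    lin y τ (lf a) = Polynomial.C (dp a y) + Polynomial.C (dp a τ) * Polynomial.X := by
  simp only [lf, dp, map_sum, map_mul]
  rw [Finset.sum_mul, ← Finset.sum_add_distrib]
  refine Finset.sum_congr rfl fun i _ => ?_
  rw [lin, aeval_C, aeval_X]
  rw [Polynomial.algebraMap_eq]
  ring

theorem dp_add_smul (a x v : Vx N) (t : ℂ) : dp a (x + t • v) = dp a x + t * dp a v := by
  simp only [dp, Pi.add_apply, Pi.smul_apply, smul_eq_mul, mul_add, Finset.sum_add_distrib,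
    Finset.mul_sum]
  congr 1
  exact Finset.sum_congr rfl fun i _ => by ring

theorem prod_mem {n : ℕ} {y : Vx N} {b : Fin n → Vx N} (hb : ∀ r, dp (b r) y = 0)
    (β : Fin n → ℕ) : (∏ r, lf (b r) ^ β r) ∈ (ptI y) ^ (∑ r, β r) := by
  rw [← Finset.prod_pow_eq_pow_sum]
  exact Ideal.prod_mem_prod fun r _ => Ideal.pow_mem_pow (lf_mem (hb r)) _

section

variable {n' : ℕ} {y : Vx N} {a : Fin n' → Vx N} {q₁ : Vx N}

theorem fA_mem (ha : ∀ r, dp (a r) y = 0) (hq : dp q₁ y = 0) (m : ℕ) (s₀ s₁ : Vx N)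
    (e : (Fin n' → ℕ) × ℕ × ℕ) : fA m a q₁ s₀ s₁ e ∈ (ptI y) ^ (∑ r, e.1 r + e.2.1) := by
  refine Ideal.mul_mem_right _ _ (Ideal.mul_mem_right _ _ ?_)
  rw [pow_add]
  exact Ideal.mul_mem_mul (prod_mem ha e.1) (Ideal.pow_mem_pow (lf_mem hq) _)

theorem lin_fA (ha : ∀ r, dp (a r) y = 0) (hq : dp q₁ y = 0) (m : ℕ) (s₀ s₁ τ : Vx N)
    (e : (Fin n' → ℕ) × ℕ × ℕ) : lin y τ (fA m a q₁ s₀ s₁ e) =
      Polynomial.C ((∏ r, dp (a r) τ ^ e.1 r) * dp q₁ τ ^ e.2.1) *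
        (Polynomial.X ^ (∑ r, e.1 r + e.2.1) *
        ((Polynomial.C (dp s₀ y) + Polynomial.C (dp s₀ τ) * Polynomial.X) ^
          (m - ∑ r, e.1 r - e.2.1 - e.2.2) *
        (Polynomial.C (dp s₁ y) + Polynomial.C (dp s₁ τ) * Polynomial.X) ^ e.2.2)) := by
  have h1 : lin y τ (∏ r, lf (a r) ^ e.1 r) =
      Polynomial.C (∏ r, dp (a r) τ ^ e.1 r) * Polynomial.X ^ (∑ r, e.1 r) := by
    rw [map_prod, map_prod, ← Finset.prod_pow_eq_pow_sum, ← Finset.prod_mul_distrib]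
    refine Finset.prod_congr rfl fun r _ => ?_
    rw [map_pow, lin_lf, ha r, map_zero, zero_add, mul_pow, map_pow]
  rw [fA, map_mul, map_mul, map_mul, map_pow, map_pow, map_pow, h1, lin_lf, lin_lf, lin_lf, hq,
    map_zero, zero_add, mul_pow, Polynomial.C_mul, Polynomial.C_pow, pow_add]
  ring

theorem coeff_fA_lt (ha : ∀ r, dp (a r) y = 0) (hq : dp q₁ y = 0) (m : ℕ) (s₀ s₁ τ : Vx N)
    {e : (Fin n' → ℕ) × ℕ × ℕ} {k : ℕ} (hk : k < ∑ r, e.1 r + e.2.1) :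
    (lin y τ (fA m a q₁ s₀ s₁ e)).coeff k = 0 := by
  rw [lin_fA ha hq, Polynomial.coeff_C_mul, Polynomial.coeff_X_pow_mul', if_neg (by omega),
    mul_zero]

theorem coeff_fA_eq (ha : ∀ r, dp (a r) y = 0) (hq : dp q₁ y = 0) (m : ℕ) (s₀ s₁ τ : Vx N)
    (hs₀ : dp s₀ y = 1) (e : (Fin n' → ℕ) × ℕ × ℕ) :
    (lin y τ (fA m a q₁ s₀ s₁ e)).coeff (∑ r, e.1 r + e.2.1) =
      (∏ r, dp (a r) τ ^ e.1 r) * dp q₁ τ ^ e.2.1 * dp s₁ y ^ e.2.2 := by
  rw [lin_fA ha hq, Polynomial.coeff_C_mul, Polynomial.coeff_X_pow_mul', if_pos le_rfl,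
    Nat.sub_self, Polynomial.coeff_zero_eq_eval_zero, hs₀]
  simp

end

theorem eval_zero_lin (y τ : Vx N) (F : Sx N) : Polynomial.eval 0 (lin y τ F) = eval y F := by
  have h : (Polynomial.aeval (0 : ℂ)).comp (lin y τ) = (aeval y : Sx N →ₐ[ℂ] ℂ) := by
    refine MvPolynomial.algHom_ext fun i => ?_
    rw [AlgHom.comp_apply, lin, aeval_X, aeval_X]
    simp
  have h1 := DFunLike.congr_fun h F
  rw [AlgHom.comp_apply, Polynomial.coe_aeval_eq_eval] at h1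
  rw [h1, MvPolynomial.aeval_eq_eval]

theorem dvd_lin {y : Vx N} (τ : Vx N) {m : ℕ} {R : Sx N} (h : R ∈ (ptI y) ^ m) :
    Polynomial.X ^ m ∣ lin y τ R := by
  have h1 : (ptI y).map (lin y τ) ≤ Ideal.span {Polynomial.X} := by
    rw [Ideal.map_le_iff_le_comap]
    intro F hF
    rw [Ideal.mem_comap, Ideal.mem_span_singleton, Polynomial.X_dvd_iff,
      Polynomial.coeff_zero_eq_eval_zero, eval_zero_lin]
    exact hF
  have h2 := Ideal.mem_map_of_mem (lin y τ) h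
  rw [Ideal.map_pow] at h2
  have h3 := Ideal.pow_right_mono h1 m h2
  rwa [Ideal.span_singleton_pow, Ideal.mem_span_singleton] at h3

/-- the monomial of `e` -/
def mo {n' : ℕ} (e : (Fin n' → ℕ) × ℕ × ℕ) : Option (Fin n') →₀ ℕ :=
  Finsupp.equivFunOnFinite.symm fun o => o.elim e.2.1 e.1

theorem mo_none {n' : ℕ} (e : (Fin n' → ℕ) × ℕ × ℕ) : mo e none = e.2.1 := rfl

theorem mo_some {n' : ℕ} (e : (Fin n' → ℕ) × ℕ × ℕ) (r : Fin n') : mo e (some r) = e.1 r := rfl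

theorem mo_inj {n' : ℕ} {e e' : (Fin n' → ℕ) × ℕ × ℕ} (h : mo e = mo e') (h2 : e.2.2 = e'.2.2) :
    e = e' := by
  refine Prod.ext (funext fun r => ?_) (Prod.ext ?_ h2)
  · rw [← mo_some, ← mo_some, h]
  · rw [← mo_none, ← mo_none, h]

/-- the polynomial of the lowest terms -/
def SS {n' : ℕ} (T : Finset ((Fin n' → ℕ) × ℕ × ℕ)) (co : (Fin n' → ℕ) × ℕ × ℕ → ℂ) :
    MvPolynomial (Option (Fin n')) (Polynomial ℂ) :=
  ∑ e ∈ T, monomial (mo e) (Polynomial.C (co e) * Polynomial.X ^ e.2.2)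

theorem coeff_SS {n' : ℕ} (T : Finset ((Fin n' → ℕ) × ℕ × ℕ)) (co : (Fin n' → ℕ) × ℕ × ℕ → ℂ)
    (α : Option (Fin n') →₀ ℕ) : coeff α (SS T co) =
      ∑ e ∈ T, if mo e = α then Polynomial.C (co e) * Polynomial.X ^ e.2.2 else 0 := by
  rw [SS, coeff_sum]
  exact Finset.sum_congr rfl fun e _ => coeff_monomial _ _ _

theorem coeff_coeff_SS {n' : ℕ} (T : Finset ((Fin n' → ℕ) × ℕ × ℕ))
    (co : (Fin n' → ℕ) × ℕ × ℕ → ℂ) {e₀ : (Fin n' → ℕ) × ℕ × ℕ} (he₀ : e₀ ∈ T) :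
    (coeff (mo e₀) (SS T co)).coeff e₀.2.2 = co e₀ := by
  rw [coeff_SS, Polynomial.finsetSum_coeff, Finset.sum_eq_single e₀]
  · rw [if_pos rfl, Polynomial.coeff_C_mul, Polynomial.coeff_X_pow_self, mul_one]
  · intro e _ hee
    split_ifs with h
    · rw [Polynomial.coeff_C_mul, Polynomial.coeff_X_pow, if_neg, mul_zero]
      intro h2
      exact hee (mo_inj h h2.symm)
    · rw [Polynomial.coeff_zero]
  · intro h
    exact absurd he₀ h

theorem SS_deg {n' δ : ℕ} {T : Finset ((Fin n' → ℕ) × ℕ × ℕ)}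
    (hT : ∀ e ∈ T, e.2.1 = 0 ∨ e.2.2 < δ) (co : (Fin n' → ℕ) × ℕ × ℕ → ℂ) :
    ∀ α ∈ (SS T co).support, α none = 0 ∨ (coeff α (SS T co)).natDegree < δ := by
  intro α hα
  by_cases h0 : α none = 0
  · exact Or.inl h0
  refine Or.inr ?_
  rw [Polynomial.natDegree_lt_iff_degree_lt (mem_support_iff.1 hα), ← Polynomial.mem_degreeLT,
    coeff_SS]
  refine Submodule.sum_mem _ fun e he => ?_
  split_ifs with h
  · have h1 : e.2.2 < δ := by
      rcases hT e he with h2 | h2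
      · exact absurd (by rw [← h, mo_none, h2]) h0
      · exact h2
    rw [Polynomial.mem_degreeLT]
    refine lt_of_le_of_lt (Polynomial.degree_C_mul_X_pow_le _ _) ?_
    exact_mod_cast h1
  · exact Submodule.zero_mem _

theorem eval_SS {n' : ℕ} (T : Finset ((Fin n' → ℕ) × ℕ × ℕ)) (co : (Fin n' → ℕ) × ℕ × ℕ → ℂ)
    (t : ℂ) (l : Fin n' → ℂ) (l₀ : ℂ) :
    eval₂ (Polynomial.evalRingHom t) (fun o : Option (Fin n') => o.elim l₀ l) (SS T co) =
      ∑ e ∈ T, co e * ((∏ r, l r ^ e.1 r) * l₀ ^ e.2.1 * t ^ e.2.2) := by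
  rw [SS, eval₂_sum]
  refine Finset.sum_congr rfl fun e _ => ?_
  rw [eval₂_monomial, Finsupp.prod_fintype _ _ (fun r => pow_zero _), Fintype.prod_option, mo_none]
  simp only [mo_some, Option.elim_none, Option.elim_some, map_mul, map_pow,
    Polynomial.coe_evalRingHom, Polynomial.eval_C, Polynomial.eval_X]
  ring

end FaAux

open FaAux

theorem tFa : S_Ini → S_Div → S_Fa := by
  intro hIni hDiv N c I hI hH hS x v hxv n' δ a q₁ ρ ρ₀ hL s₀ s₁ h0x h0v h1x h1v m T hT co R hR hG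
    e₁ he₁
  by_contra hne
  obtain ⟨e₀, he₀, hmin⟩ := Finset.exists_min_image
    (T.filter fun e => co e ≠ 0) (fun e => ∑ r, e.1 r + e.2.1)
    ⟨e₁, Finset.mem_filter.2 ⟨he₁, hne⟩⟩
  obtain ⟨he₀T, he₀c⟩ := Finset.mem_filter.1 he₀
  have hk : ∑ r, e₀.1 r + e₀.2.1 < m := (hT e₀ he₀T).2.1
  have key : ∀ (t : ℂ) (l : Fin n' → ℂ) (l₀ : ℂ),
      (∑ i, (ρ i).eval t * l i) + ρ₀.eval t * l₀ = 0 →
      ∑ e ∈ T.filter (fun e => ∑ r, e.1 r + e.2.1 = ∑ r, e₀.1 r + e₀.2.1),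
        co e * ((∏ r, l r ^ e.1 r) * l₀ ^ e.2.1 * t ^ e.2.2) = 0 := by
    intro t l l₀ hl
    obtain ⟨τ, hτ, hτl, hτ₀⟩ := hL.sur t l l₀ hl
    have ha : ∀ r, dp (a r) (x + t • v) = 0 := fun r => by
      rw [dp_add_smul, hL.ax, hL.av, mul_zero, add_zero]
    have hq : dp q₁ (x + t • v) = 0 := by
      rw [dp_add_smul, hL.qx, hL.qv, mul_zero, add_zero]
    have hs₀ : dp s₀ (x + t • v) = 1 := by
      rw [dp_add_smul, h0x, h0v, mul_zero, add_zero]
    have hs₁ : dp s₁ (x + t • v) = t := by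
      rw [dp_add_smul, h1x, h1v, mul_one, zero_add]
    have hyI : x + t • v ∈ zer I := by
      have h := hxv.2 1 t
      rwa [one_smul] at h
    have hy0 : x + t • v ≠ 0 := by
      intro h
      have h2 := LinearIndependent.pair_iff.1 hxv.1 1 t (by rw [one_smul, h])
      exact one_ne_zero h2.1
    have hRy : R ∈ (ptI (x + t • v)) ^ m := by
      refine Ideal.pow_right_mono ?_ m hR
      intro F hF
      rw [ptI, RingHom.mem_ker]
      have h := hF 1 t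
      rwa [one_smul] at h
    have hGk : (∑ e ∈ T, C (co e) * fA m a q₁ s₀ s₁ e) + R ∈
        (ptI (x + t • v)) ^ (∑ r, e₀.1 r + e₀.2.1) := by
      refine Ideal.add_mem _ (Ideal.sum_mem _ fun e he => ?_) (Ideal.pow_le_pow_right hk.le hRy)
      by_cases hc : co e = 0
      · rw [hc, map_zero, zero_mul]
        exact Ideal.zero_mem _
      · exact Ideal.mul_mem_left _ _ (Ideal.pow_le_pow_right
          (hmin e (Finset.mem_filter.2 ⟨he, hc⟩)) (fA_mem ha hq m s₀ s₁ e))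
    have h1 := hIni N c I hI hH hS (x + t • v) hyI hy0 (∑ r, e₀.1 r + e₀.2.1) _ hG hGk τ hτ
    rw [map_add, Polynomial.coeff_add, Polynomial.X_pow_dvd_iff.1 (dvd_lin τ hRy) _ hk, add_zero,
      map_sum, Polynomial.finsetSum_coeff] at h1
    rw [Finset.sum_filter]
    refine (Finset.sum_congr rfl fun e he => ?_).trans h1
    rw [map_mul, lin, aeval_C, ← lin, Polynomial.algebraMap_eq, Polynomial.coeff_C_mul]
    split_ifs with h
    · rw [← h, coeff_fA_eq ha hq m s₀ s₁ τ hs₀, hs₁, hτ₀]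
      simp only [hτl]
    · by_cases hc : co e = 0
      · rw [hc, zero_mul]
      · have h2 := hmin e (Finset.mem_filter.2 ⟨he, hc⟩)
        rw [coeff_fA_lt ha hq m s₀ s₁ τ (lt_of_le_of_ne h2 fun h4 => h h4.symm), mul_zero]
  have hS0 := hDiv n' δ ρ ρ₀ hL.mon hL.deg hL.ne
    (SS (T.filter (fun e => ∑ r, e.1 r + e.2.1 = ∑ r, e₀.1 r + e₀.2.1)) co)
    (SS_deg (fun e he => (hT e (Finset.mem_filter.1 he).1).2.2) co)
    (fun t l l₀ hl => by rw [eval_SS]; exact key t l l₀ hl)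
  have hc := coeff_coeff_SS (T.filter (fun e => ∑ r, e.1 r + e.2.1 = ∑ r, e₀.1 r + e₀.2.1)) co
    (Finset.mem_filter.2 ⟨he₀T, rfl⟩)
  rw [hS0, coeff_zero, Polynomial.coeff_zero] at hc
  exact he₀c hc.symm

end Pool.Agent.Lib.MP_776403_ag.SD.LI
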