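import Pool.Agent.Lib.MP_776403_ag.SD.LI.Spec

/-!
# Independence of the second family
-/

set_option autoImplicit false

open MvPolynomial

noncomputable section

namespace Pool.Agent.Lib.MP_776403_ag.SD.LI

variable {N : ℕ}

namespace FbAux

theorem eval_lf (a y : Vx N) : eval y (lf a) = dp a y := by
  simp [lf, dp]

theorem lf_mem {a y : Vx N} (h : dp a y = 0) : lf a ∈ ptI y := by
  rw [ptI, RingHom.mem_ker, eval_lf, h]

theorem lin_lf (y τ a : Vx N) :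
    lin y τ (lf a) = Polynomial.C (dp a y) + Polynomial.C (dp a τ) * Polynomial.X := by
  simp only [lf, dp, map_sum, map_mul]
  rw [Finset.sum_mul, ← Finset.sum_add_distrib]
  refine Finset.sum_congr rfl fun i _ => ?_
  rw [lin, aeval_C, aeval_X]
  rw [Polynomial.algebraMap_eq]
  ring

theorem prod_mem {n : ℕ} {y : Vx N} {b : Fin n → Vx N} (hb : ∀ r, dp (b r) y = 0)
    (β : Fin n → ℕ) : (∏ r, lf (b r) ^ β r) ∈ (ptI y) ^ (∑ r, β r) := by
  rw [← Finset.prod_pow_eq_pow_sum]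
  exact Ideal.prod_mem_prod fun r _ => Ideal.pow_mem_pow (lf_mem (hb r)) _

theorem fB_mem {n : ℕ} {y : Vx N} {b : Fin n → Vx N} (hb : ∀ r, dp (b r) y = 0)
    (m : ℕ) (w : Vx N) (β : Fin n → ℕ) : fB m b w β ∈ (ptI y) ^ (∑ r, β r) :=
  Ideal.mul_mem_right _ _ (prod_mem hb β)

theorem fB_mem' {n : ℕ} {y : Vx N} {b : Fin n → Vx N} (hb : ∀ r, dp (b r) y = 0)
    {m : ℕ} {w : Vx N} (hw : dp w y = 0) {β : Fin n → ℕ} (hβ : ∑ r, β r < m) :
    fB m b w β ∈ (ptI y) ^ m := by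
  have h : m = ∑ r, β r + (m - ∑ r, β r) := by omega
  rw [h, pow_add]
  have h2 := Ideal.mul_mem_mul (prod_mem hb β)
    (Ideal.pow_mem_pow (lf_mem (a := w) hw) (m - ∑ r, β r))
  rw [← h]
  exact h2

theorem lin_fB {n : ℕ} {y : Vx N} {b : Fin n → Vx N} (hb : ∀ r, dp (b r) y = 0)
    (m : ℕ) (w τ : Vx N) (β : Fin n → ℕ) : lin y τ (fB m b w β) =
      Polynomial.C (∏ r, dp (b r) τ ^ β r) * Polynomial.X ^ (∑ r, β r) *
        (Polynomial.C (dp w y) + Polynomial.C (dp w τ) * Polynomial.X) ^ (m - ∑ r, β r) := by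
  rw [fB, map_mul, map_pow, lin_lf, map_prod]
  congr 1
  rw [map_prod, ← Finset.prod_pow_eq_pow_sum, ← Finset.prod_mul_distrib]
  refine Finset.prod_congr rfl fun r _ => ?_
  rw [map_pow, lin_lf, hb r, map_zero, zero_add, mul_pow, map_pow]

theorem coeff_fB_lt {n : ℕ} {y : Vx N} {b : Fin n → Vx N} (hb : ∀ r, dp (b r) y = 0)
    (m : ℕ) (w τ : Vx N) {β : Fin n → ℕ} {k : ℕ} (hk : k < ∑ r, β r) :
    (lin y τ (fB m b w β)).coeff k = 0 := by
  rw [lin_fB hb, mul_assoc, Polynomial.coeff_C_mul, Polynomial.coeff_X_pow_mul', if_neg (by omega),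
    mul_zero]

theorem coeff_fB_other {n : ℕ} {y : Vx N} {b : Fin n → Vx N} (hb : ∀ r, dp (b r) y = 0)
    {m : ℕ} {w : Vx N} (hw : dp w y = 0) (τ : Vx N) {β : Fin n → ℕ} {k : ℕ}
    (hβ : ∑ r, β r < m) (hk : k < m) : (lin y τ (fB m b w β)).coeff k = 0 := by
  rw [lin_fB hb, hw, map_zero, zero_add, mul_pow, mul_assoc, Polynomial.coeff_C_mul,
    Polynomial.coeff_X_pow_mul']
  split_ifs with h
  · rw [← Polynomial.C_pow, Polynomial.coeff_C_mul, Polynomial.coeff_X_pow, if_neg (by omega),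
      mul_zero, mul_zero]
  · rw [mul_zero]

theorem coeff_fB_eq {n : ℕ} {y : Vx N} {b : Fin n → Vx N} (hb : ∀ r, dp (b r) y = 0)
    (m : ℕ) {w : Vx N} (hw : dp w y = 1) (τ : Vx N) (β : Fin n → ℕ) :
    (lin y τ (fB m b w β)).coeff (∑ r, β r) = ∏ r, dp (b r) τ ^ β r := by
  rw [lin_fB hb, hw, mul_assoc, Polynomial.coeff_C_mul, Polynomial.coeff_X_pow_mul', if_pos le_rfl,
    Nat.sub_self, Polynomial.coeff_zero_eq_eval_zero]
  simp

end FbAux

open FbAux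

theorem tFb : S_Ini → S_Fb := by
  intro hIni N c I hI hH hS x v k n z b w hZ m T hT co hG e₁ he₁
  by_contra hne
  obtain ⟨e₀, he₀, hmin⟩ := Finset.exists_min_image
    (T.filter fun e => e.1 = e₁.1 ∧ co e ≠ 0) (fun e => ∑ r, e.2 r)
    ⟨e₁, Finset.mem_filter.2 ⟨he₁, rfl, hne⟩⟩
  obtain ⟨he₀T, he₀i, he₀c⟩ := Finset.mem_filter.1 he₀
  have hk : ∑ r, e₀.2 r < m := hT e₀ he₀T
  have hb : ∀ r, dp (b r) (z e₁.1) = 0 := fun r => hZ.bz r e₁.1
  have hwi : dp (w e₁.1) (z e₁.1) = 1 := by rw [hZ.wz, if_pos rfl]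
  have hwj : ∀ j, j ≠ e₁.1 → dp (w j) (z e₁.1) = 0 := fun j hj => by rw [hZ.wz, if_neg hj]
  -- the sum is in the power of the ideal of the point
  have hGk : ∑ e ∈ T, C (co e) * fB m b (w e.1) e.2 ∈ (ptI (z e₁.1)) ^ (∑ r, e₀.2 r) := by
    refine Ideal.sum_mem _ fun e he => ?_
    by_cases hc : co e = 0
    · rw [hc, map_zero, zero_mul]
      exact Ideal.zero_mem _
    by_cases hi : e.1 = e₁.1
    · have h1 := hmin e (Finset.mem_filter.2 ⟨he, hi, hc⟩)
      exact Ideal.mul_mem_left _ _ (Ideal.pow_le_pow_right h1 (fB_mem hb m (w e.1) e.2))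
    · exact Ideal.mul_mem_left _ _ (Ideal.pow_le_pow_right hk.le
        (fB_mem' hb (hwj _ hi) (hT e he)))
  have key : ∀ l : Fin n → ℂ, ∑ e ∈ T.filter (fun e => e.1 = e₁.1 ∧ ∑ r, e.2 r = ∑ r, e₀.2 r),
      co e * ∏ r, l r ^ e.2 r = 0 := by
    intro l
    obtain ⟨τ, hτ, hτl⟩ := hZ.sur e₁.1 l
    have h1 := hIni N c I hI hH hS (z e₁.1) (hZ.zI e₁.1).1 (hZ.zI e₁.1).2 (∑ r, e₀.2 r) _ hG hGk τ hτ
    rw [map_sum, Polynomial.finsetSum_coeff] at h1
    rw [Finset.sum_filter]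
    refine (Finset.sum_congr rfl fun e he => ?_).trans h1
    rw [map_mul, lin, aeval_C, ← lin, Polynomial.algebraMap_eq, Polynomial.coeff_C_mul]
    split_ifs with h
    · obtain ⟨hi, hs⟩ := h
      rw [← hs, hi, coeff_fB_eq hb m hwi]
      simp only [hτl]
    · by_cases hc : co e = 0
      · rw [hc, zero_mul]
      by_cases hi : e.1 = e₁.1
      · have h2 := hmin e (Finset.mem_filter.2 ⟨he, hi, hc⟩)
        have h3 : ∑ r, e₀.2 r < ∑ r, e.2 r := by
          refine lt_of_le_of_ne h2 fun h4 => h ⟨hi, h4.symm⟩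
        rw [coeff_fB_lt hb m _ τ h3, mul_zero]
      · rw [coeff_fB_other hb (hwj _ hi) τ (hT e he) hk, mul_zero]
  have hP : (∑ e ∈ T.filter (fun e => e.1 = e₁.1 ∧ ∑ r, e.2 r = ∑ r, e₀.2 r),
      monomial (Finsupp.equivFunOnFinite.symm e.2) (co e) : MvPolynomial (Fin n) ℂ) = 0 := by
    refine MvPolynomial.funext fun l => ?_
    rw [map_sum, map_zero]
    refine (Finset.sum_congr rfl fun e _ => ?_).trans (key l)
    rw [eval_monomial, Finsupp.prod_fintype _ _ (fun r => pow_zero _)]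
    rfl
  have hc := congrArg (coeff (Finsupp.equivFunOnFinite.symm e₀.2)) hP
  rw [coeff_sum, coeff_zero, Finset.sum_eq_single e₀] at hc
  · rw [coeff_monomial, if_pos rfl] at hc
    exact he₀c hc
  · intro e he hee
    rw [coeff_monomial, if_neg]
    intro h
    apply hee
    have h2 : e.2 = e₀.2 := Finsupp.equivFunOnFinite.symm.injective h
    exact Prod.ext ((Finset.mem_filter.1 he).2.1.trans he₀i.symm) h2
  · intro h
    exact absurd (Finset.mem_filter.2 ⟨he₀T, he₀i, rfl⟩) h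

end Pool.Agent.Lib.MP_776403_ag.SD.LI
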