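import Pool.Agent.Lib.MP_776403_ag.SD.LI.Spec

/-!
# LEMMA I, module Hy: linear forms on the line
-/

set_option autoImplicit false

open MvPolynomial

noncomputable section

namespace Pool.Agent.Lib.MP_776403_ag.SD.LI

namespace HyAux

variable {N : ℕ}

/-- the linear form `y ↦ dp a y` -/
def dpR (a : Vx N) : Vx N →ₗ[ℂ] ℂ where
  toFun y := dp a y
  map_add' y z := by
    simp only [dp, Pi.add_apply, mul_add, Finset.sum_add_distrib]
  map_smul' r y := by
    simp only [dp, Pi.smul_apply, smul_eq_mul, Finset.mul_sum, RingHom.id_apply]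
    exact Finset.sum_congr rfl fun i _ => by ring

theorem dp_comm (a y : Vx N) : dp a y = dp y a := Finset.sum_congr rfl fun i _ => mul_comm _ _

theorem dual_eq (f : Vx N →ₗ[ℂ] ℂ) : ∃ a : Vx N, ∀ y, f y = dp a y := by
  refine ⟨fun i => f fun j => if i = j then 1 else 0, fun y => ?_⟩
  rw [LinearMap.pi_apply_eq_sum_univ f y]
  exact Finset.sum_congr rfl fun i _ => by rw [smul_eq_mul, mul_comm]

/-- the orthogonal space -/
def WW {ι : Type} [Fintype ι] (w : ι → Vx N) : Submodule ℂ (Vx N) :=
  LinearMap.ker (Matrix.mulVecLin (Matrix.of w))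

theorem mem_WW {ι : Type} [Fintype ι] {w : ι → Vx N} {c : Vx N} :
    c ∈ WW w ↔ ∀ i, dp (w i) c = 0 := by
  unfold WW
  rw [LinearMap.mem_ker, funext_iff]
  rfl

theorem finrank_WW {ι : Type} [Fintype ι] {w : ι → Vx N} (hw : LinearIndependent ℂ w) :
    Module.finrank ℂ (WW w) + Fintype.card ι = N + 1 := by
  have h1 := LinearMap.finrank_range_add_finrank_ker (Matrix.mulVecLin (Matrix.of w))
  have h2 : (Matrix.of w).rank = Fintype.card ι := LinearIndependent.rank_matrix hw
  rw [Module.finrank_fin_fun] at h1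
  unfold Matrix.rank at h2
  rw [h2, add_comm] at h1
  exact h1

theorem perp_perp {ι : Type} [Fintype ι] {w : ι → Vx N} {τ : Vx N}
    (h : ∀ c ∈ WW w, dp c τ = 0) : τ ∈ Submodule.span ℂ (Set.range w) := by
  by_contra hn
  obtain ⟨f, hf, hf0⟩ := Submodule.exists_le_ker_of_notMem hn
  obtain ⟨a, ha⟩ := dual_eq f
  refine hf ?_
  rw [ha]
  refine h a (mem_WW.2 fun i => ?_)
  rw [dp_comm, ← ha]
  exact hf0 (Submodule.subset_span ⟨i, rfl⟩)

/-- chain rule -/
theorem lin_der (x v : Vx N) (F : Sx N) : Polynomial.derivative (lin x v F) =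
    ∑ i, Polynomial.C (v i) * lin x v (pderiv i F) := by
  induction F using MvPolynomial.induction_on with
  | C a =>
    have h : lin x v (C a) = Polynomial.C a := by
      unfold lin
      rw [MvPolynomial.aeval_C]
      rfl
    rw [h, Polynomial.derivative_C]
    simp
  | add p q hp hq =>
    simp only [map_add, hp, hq, mul_add, Finset.sum_add_distrib]
  | mul_X p j hp =>
    have hX : lin x v (X j) = Polynomial.C (x j) + Polynomial.C (v j) * Polynomial.X := by
      unfold lin
      rw [MvPolynomial.aeval_X]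
    have hd : Polynomial.derivative (lin x v (X j)) = Polynomial.C (v j) := by
      rw [hX]
      simp
    rw [map_mul, Polynomial.derivative_mul, hp, hd]
    have h1 : ∀ i, pderiv i (p * X j) = pderiv i p * X j + (if i = j then p else 0) := by
      intro i
      rw [Derivation.leibniz, pderiv_X]
      by_cases h : i = j
      · subst h
        simp only [Pi.single_eq_same, if_true, smul_eq_mul]
        ring
      · rw [if_neg h, Pi.single_eq_of_ne (fun h' => h h'.symm)]
        simp only [smul_eq_mul]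
        ring
    have h2 : ∀ i, Polynomial.C (v i) * lin x v (pderiv i (p * X j)) =
        Polynomial.C (v i) * lin x v (pderiv i p) * lin x v (X j) +
          (if i = j then Polynomial.C (v j) * lin x v p else 0) := by
      intro i
      rw [h1, map_add, map_mul]
      by_cases h : i = j
      · subst h
        simp only [if_true]
        ring
      · simp only [if_neg h, map_zero]
        ring
    simp only [h2, Finset.sum_add_distrib, Finset.sum_mul]
    rw [Finset.sum_ite_eq' Finset.univ j, if_pos (Finset.mem_univ j)]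
    ring

theorem v_mem {I : Ideal (Sx N)} {x v : Vx N} (hL : IsLine I x v) (t : ℂ) :
    v ∈ TS I (x + t • v) := by
  intro F hF
  have h1 := lin_der x v F
  rw [lin_eq_zero hL hF, Polynomial.derivative_zero] at h1
  have h2 := congrArg (Polynomial.eval t) h1
  rw [Polynomial.eval_zero, Polynomial.eval_finsetSum] at h2
  rw [h2]
  unfold dp grad
  refine Finset.sum_congr rfl fun i _ => ?_
  rw [Polynomial.eval_mul, Polynomial.eval_C, lin_eval, mul_comm]

theorem cn_ts {I : Ideal (Sx N)} {y φ τ : Vx N} (hφ : φ ∈ CN I y) (hτ : τ ∈ TS I y) :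
    dp φ τ = 0 := by
  have h : CN I y ≤ LinearMap.ker (dpR τ) := by
    unfold CN
    rw [Submodule.span_le]
    rintro _ ⟨F, hF, rfl⟩
    change dp τ (grad F y) = 0
    rw [dp_comm]
    exact hτ F hF
  rw [dp_comm]
  exact h hφ

/-- Expansion of the vectors of `W` with a given vector of the basis. -/
theorem expand {W : Submodule ℂ (Vx N)} {n : ℕ} (hW : Module.finrank ℂ W = n + 1) {q₁ : Vx N}
    (h1 : q₁ ∈ W) (h0 : q₁ ≠ 0) : ∃ (a : Fin n → Vx N) (f : Vx N → ℂ) (g : Vx N → Fin n → ℂ),
      (∀ i, a i ∈ W) ∧ f q₁ = 1 ∧ ∀ c ∈ W, c = ∑ i, g c i • a i + f c • q₁ := by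
  classical
  have hne : (⟨q₁, h1⟩ : W) ≠ 0 := fun h => h0 (congrArg Subtype.val h)
  obtain ⟨φ, hφ⟩ : ∃ φ : Module.Dual ℂ W, φ ⟨q₁, h1⟩ ≠ 0 := by
    by_contra hc
    push Not at hc
    exact hne ((Module.forall_dual_apply_eq_zero_iff ℂ _).1 hc)
  set f : Module.Dual ℂ W := (φ ⟨q₁, h1⟩)⁻¹ • φ with hf
  have hf1 : f ⟨q₁, h1⟩ = 1 := by
    rw [hf, LinearMap.smul_apply, smul_eq_mul, inv_mul_cancel₀ hφ]
  have hf0 : f ≠ 0 := by
    intro h
    rw [h] at hf1
    simp at hf1
  have hk : Module.finrank ℂ (LinearMap.ker f) = n := by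
    have h := Module.Dual.finrank_ker_add_one_of_ne_zero hf0
    omega
  have hmem : ∀ c : W, c - f c • (⟨q₁, h1⟩ : W) ∈ LinearMap.ker f := by
    intro c
    rw [LinearMap.mem_ker, map_sub, map_smul, hf1, smul_eq_mul, mul_one, sub_self]
  have : Module.Free ℂ (LinearMap.ker f) := Module.Free.of_divisionRing ℂ (LinearMap.ker f)
  let bas := Module.finBasisOfFinrankEq ℂ (LinearMap.ker f) hk
  refine ⟨fun i => ((bas i : LinearMap.ker f) : W), fun c => if h : c ∈ W then f ⟨c, h⟩ else 0,
    fun c => if h : c ∈ W then fun i => bas.repr ⟨_, hmem ⟨c, h⟩⟩ i else 0, fun i => ?_, ?_, ?_⟩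
  · exact ((bas i : LinearMap.ker f) : W).2
  · simp only [h1, dif_pos, hf1]
  · intro c hc
    simp only [hc, dif_pos]
    have h2 := bas.sum_repr ⟨_, hmem ⟨c, hc⟩⟩
    have h3 := congrArg (fun z : LinearMap.ker f => ((z : W) : Vx N)) h2
    simp only [Submodule.coe_sum, Submodule.coe_smul, Submodule.coe_sub] at h3
    rw [h3, sub_add_cancel]

end HyAux

open HyAux

theorem tHy : S_TS → S_LinB → S_Hy := by
  intro hTS _ N k n' I hN hP hH hS x v hL u hu δ q hq
  -- the vectors `x, v, u_j` are independent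
  have hy0 : ∀ t : ℂ, x + t • v ∈ zer I ∧ x + t • v ≠ 0 := fun t =>
    ⟨mem_zer_line hL t, line_ne_zero' hL t⟩
  have hxT : ∀ t : ℂ, x ∈ TS I (x + t • v) := by
    intro t
    have h1 := (hTS N (k + 1) I hP hH hS _ (hy0 t).1 (hy0 t).2).2.1
    have h2 := (TS I (x + t • v)).sub_mem h1 ((TS I (x + t • v)).smul_mem t (v_mem hL t))
    rwa [add_sub_cancel_right] at h2
  have hTrv : ∀ t : ℂ, Trv I u (x + t • v) := by
    intro t
    have h := hu 1 t (Or.inl one_ne_zero)
    rwa [one_smul] at h
  set w : Fin 2 ⊕ Fin k → Vx N := Sum.elim ![x, v] u with hw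
  have hli : LinearIndependent ℂ w := by
    rw [Fintype.linearIndependent_iff]
    intro g hg
    rw [Fintype.sum_sum_type, Fin.sum_univ_two] at hg
    simp only [hw, Sum.elim_inl, Sum.elim_inr, Matrix.cons_val_zero, Matrix.cons_val_one] at hg
    have h1 : ∑ j, g (Sum.inr j) • u j ∈ TS I (x + (0 : ℂ) • v) := by
      have h2 : ∑ j, g (Sum.inr j) • u j = -(g (Sum.inl 0) • x + g (Sum.inl 1) • v) :=
        eq_neg_of_add_eq_zero_right hg
      rw [h2]
      exact Submodule.neg_mem _ (Submodule.add_mem _ (Submodule.smul_mem _ _ (hxT 0))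
        (Submodule.smul_mem _ _ (v_mem hL 0)))
    have h3 : (fun j => g (Sum.inr j)) = 0 := hTrv 0 _ h1
    have h4 : ∀ j, g (Sum.inr j) = 0 := fun j => congrFun h3 j
    simp only [h4, zero_smul, Finset.sum_const_zero, add_zero] at hg
    have h5 := Fintype.linearIndependent_iff.1 hL.1 ![g (Sum.inl 0), g (Sum.inl 1)] (by
      rw [Fin.sum_univ_two]
      simpa using hg)
    rintro (i | j)
    · fin_cases i
      · exact h5 0
      · exact h5 1
    · exact h4 j
  have hfr : Module.finrank ℂ (WW w) = n' + 1 := by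
    have h := finrank_WW hli
    rw [Fintype.card_sum, Fintype.card_fin, Fintype.card_fin] at h
    omega
  -- the coefficient vectors are in `W`
  have hz : ∀ z : Vx N, (∀ t, dp z (fun i => (q i).eval t) = 0) →
      ∀ r, dp z (fun i => (q i).coeff r) = 0 := by
    intro z hz r
    have h : ∑ i, Polynomial.C (z i) * q i = 0 := by
      refine poly_ext fun t => ?_
      rw [Polynomial.eval_finsetSum, Polynomial.eval_zero, ← hz t]
      unfold dp
      exact Finset.sum_congr rfl fun i _ => by rw [Polynomial.eval_mul, Polynomial.eval_C]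
    have h2 := congrArg (fun p : Polynomial ℂ => p.coeff r) h
    simp only [Polynomial.finsetSum_coeff, Polynomial.coeff_C_mul, Polynomial.coeff_zero] at h2
    exact h2
  have hcf : ∀ r, (fun i => (q i).coeff r) ∈ WW w := by
    intro r
    rw [mem_WW]
    rintro (i | j)
    · fin_cases i
      · refine hz x (fun t => ?_) r
        rw [dp_comm]
        exact cn_ts (hq.mem t) (hxT t)
      · refine hz v (fun t => ?_) r
        rw [dp_comm]
        exact cn_ts (hq.mem t) (v_mem hL t)
    · have h := congrArg (fun p : Polynomial ℂ => p.coeff r) (hq.uq j)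
      simp only [Polynomial.finsetSum_coeff, Polynomial.coeff_C_mul, Polynomial.coeff_zero] at h
      exact h
  obtain ⟨a, f, g, haW, hf1, hexp⟩ := expand hfr (hcf δ) hq.nev
  set q₁ : Vx N := fun i => (q i).coeff δ with hq₁
  set ρ : Fin n' → Polynomial ℂ := fun i => ∑ r ∈ Finset.range (δ + 1),
    Polynomial.C (g (fun l => (q l).coeff r) i) * Polynomial.X ^ r with hρ
  set ρ₀ : Polynomial ℂ := ∑ r ∈ Finset.range (δ + 1),
    Polynomial.C (f fun l => (q l).coeff r) * Polynomial.X ^ r with hρ₀
  have hqt : ∀ t : ℂ, (fun i => (q i).eval t) =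
      ∑ i, (ρ i).eval t • a i + ρ₀.eval t • q₁ := by
    intro t
    funext l
    have h1 : (q l).eval t = ∑ r ∈ Finset.range (δ + 1), (q l).coeff r * t ^ r :=
      Polynomial.eval_eq_sum_range' (Nat.lt_succ_of_le (hq.deg l)) t
    have h2 : ∀ r, (q l).coeff r = (∑ i, g (fun l => (q l).coeff r) i * a i l) +
        f (fun l => (q l).coeff r) * q₁ l := by
      intro r
      have h := congrFun (hexp _ (hcf r)) l
      simpa only [Pi.add_apply, Finset.sum_apply, Pi.smul_apply, smul_eq_mul] using h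
    have h3 : ∀ i, (ρ i).eval t = ∑ r ∈ Finset.range (δ + 1),
        g (fun l => (q l).coeff r) i * t ^ r := by
      intro i
      simp only [hρ, Polynomial.eval_finsetSum, Polynomial.eval_mul, Polynomial.eval_C,
        Polynomial.eval_pow, Polynomial.eval_X]
    have h4 : ρ₀.eval t = ∑ r ∈ Finset.range (δ + 1), f (fun l => (q l).coeff r) * t ^ r := by
      simp only [hρ₀, Polynomial.eval_finsetSum, Polynomial.eval_mul, Polynomial.eval_C,
        Polynomial.eval_pow, Polynomial.eval_X]
    simp only [Pi.add_apply, Finset.sum_apply, Pi.smul_apply, smul_eq_mul]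
    rw [h1, h4]
    simp only [h3, Finset.sum_mul]
    rw [Finset.sum_comm, ← Finset.sum_add_distrib]
    refine Finset.sum_congr rfl fun r _ => ?_
    rw [h2 r, add_mul, Finset.sum_mul]
    congr 1
    · exact Finset.sum_congr rfl fun i _ => by ring
    · ring
  have hc1 : ρ₀.coeff δ = 1 := by
    rw [hρ₀, Polynomial.finsetSum_coeff, Finset.sum_eq_single δ]
    · rw [Polynomial.coeff_C_mul, Polynomial.coeff_X_pow_self, mul_one]
      exact hf1
    · intro r _ hr
      rw [Polynomial.coeff_C_mul, Polynomial.coeff_X_pow, if_neg (fun h => hr h.symm), mul_zero]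
    · intro h
      exact absurd (Finset.mem_range.2 (Nat.lt_succ_self δ)) h
  have hdeg : ρ₀.natDegree ≤ δ := by
    rw [hρ₀]
    refine Polynomial.natDegree_sum_le_of_forall_le _ _ fun r hr => ?_
    refine (Polynomial.natDegree_C_mul_X_pow_le _ _).trans ?_
    exact Nat.lt_succ_iff.1 (Finset.mem_range.1 hr)
  have hne : ∀ t : ℂ, ρ₀.eval t ≠ 0 ∨ ∃ i, (ρ i).eval t ≠ 0 := by
    intro t
    by_contra hc
    push Not at hc
    refine hq.ne t ?_
    rw [hqt t, hc.1]
    simp only [hc.2, zero_smul, Finset.sum_const_zero, add_zero]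
  refine ⟨a, q₁, ρ, ρ₀, ⟨fun i => ?_, fun i => ?_, ?_, ?_, ?_, ?_, hne, ?_⟩⟩
  · rw [dp_comm]
    exact mem_WW.1 (haW i) (Sum.inl 0)
  · rw [dp_comm]
    exact mem_WW.1 (haW i) (Sum.inl 1)
  · rw [dp_comm]
    exact mem_WW.1 (hcf δ) (Sum.inl 0)
  · rw [dp_comm]
    exact mem_WW.1 (hcf δ) (Sum.inl 1)
  · exact Polynomial.monic_of_natDegree_le_of_coeff_eq_one δ hdeg hc1
  · exact Polynomial.natDegree_eq_of_le_of_coeff_ne_zero hdeg (by rw [hc1]; exact one_ne_zero)
  intro t l l₀ hrel
  obtain ⟨hfin, _⟩ := hTS N (k + 1) I hP hH hS _ (hy0 t).1 (hy0 t).2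
  set T := TS I (x + t • v) with hT
  let Ψ : Vx N →ₗ[ℂ] (Fin n' → ℂ) × ℂ := (LinearMap.pi fun i => dpR (a i)).prod (dpR q₁)
  let κ : Module.Dual ℂ ((Fin n' → ℂ) × ℂ) :=
    { toFun := fun p => (∑ i, (ρ i).eval t * p.1 i) + ρ₀.eval t * p.2
      map_add' := fun p p' => by
        simp only [Prod.fst_add, Prod.snd_add, Pi.add_apply, mul_add, Finset.sum_add_distrib]
        ring
      map_smul' := fun c p => by
        simp only [Prod.smul_fst, Prod.smul_snd, Pi.smul_apply, smul_eq_mul, RingHom.id_apply,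
          mul_add, Finset.mul_sum]
        congr 1
        · exact Finset.sum_congr rfl fun i _ => by ring
        · ring }
  have hκ : κ ≠ 0 := by
    intro h
    rcases hne t with h1 | ⟨i, h1⟩
    · refine h1 ?_
      have h2 : κ (0, 1) = 0 := by rw [h]; rfl
      simpa [κ] using h2
    · refine h1 ?_
      have h2 : κ (Pi.single i 1, 0) = 0 := by rw [h]; rfl
      simpa [κ, Pi.single_apply] using h2
  have hκr : Module.finrank ℂ (LinearMap.ker κ) = n' := by
    have h := Module.Dual.finrank_ker_add_one_of_ne_zero hκ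
    rw [Module.finrank_prod, Module.finrank_fin_fun, Module.finrank_self] at h
    omega
  have hle : T.map Ψ ≤ LinearMap.ker κ := by
    rintro _ ⟨τ, hτ, rfl⟩
    rw [LinearMap.mem_ker]
    have h1 := cn_ts (hq.mem t) hτ
    rw [hqt t, dp_comm] at h1
    have h2 : dpR τ (∑ i, (ρ i).eval t • a i + ρ₀.eval t • q₁) = 0 := h1
    rw [map_add, map_sum, map_smul] at h2
    simp only [map_smul, smul_eq_mul] at h2
    change (∑ i, (ρ i).eval t * dp (a i) τ) + ρ₀.eval t * dp q₁ τ = 0
    have h3 : ∀ i, dp (a i) τ = dpR τ (a i) := fun i => dp_comm _ _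
    have h4 : dp q₁ τ = dpR τ q₁ := dp_comm _ _
    simp only [h3, h4]
    exact h2
  -- the kernel on the tangent space
  have hker : Module.finrank ℂ (LinearMap.ker (Ψ.domRestrict T)) ≤ 2 := by
    have h1 : (LinearMap.ker (Ψ.domRestrict T)).map T.subtype ≤
        Submodule.span ℂ (Set.range ![x, v]) := by
      rintro _ ⟨⟨τ, hτ⟩, hk, rfl⟩
      have hk' : Ψ τ = 0 := hk
      have ha0 : ∀ i, dp (a i) τ = 0 := fun i => congrFun (congrArg Prod.fst hk') i
      have hq0 : dp q₁ τ = 0 := congrArg Prod.snd hk'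
      have h2 : τ ∈ Submodule.span ℂ (Set.range w) := by
        refine perp_perp fun c hc => ?_
        rw [hexp c hc, dp_comm]
        have h3 : dpR τ (∑ i, g c i • a i + f c • q₁) = 0 := by
          rw [map_add, map_sum, map_smul]
          simp only [map_smul]
          have h4 : ∀ i, dpR τ (a i) = 0 := fun i => (dp_comm _ _).trans (ha0 i)
          have h5 : dpR τ q₁ = 0 := (dp_comm _ _).trans hq0
          simp only [h4, h5, smul_zero, Finset.sum_const_zero, add_zero]
        exact h3
      obtain ⟨e, he⟩ := (Submodule.mem_span_range_iff_exists_fun ℂ).1 h2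
      rw [Fintype.sum_sum_type, Fin.sum_univ_two] at he
      simp only [hw, Sum.elim_inl, Sum.elim_inr, Matrix.cons_val_zero, Matrix.cons_val_one] at he
      have h6 : ∑ j, e (Sum.inr j) • u j ∈ TS I (x + t • v) := by
        have h7 : ∑ j, e (Sum.inr j) • u j = τ - (e (Sum.inl 0) • x + e (Sum.inl 1) • v) := by
          rw [← he]
          abel
        rw [h7]
        exact Submodule.sub_mem _ hτ (Submodule.add_mem _ (Submodule.smul_mem _ _ (hxT t))
          (Submodule.smul_mem _ _ (v_mem hL t)))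
      have h8 : (fun j => e (Sum.inr j)) = 0 := hTrv t _ h6
      have h9 : ∀ j, e (Sum.inr j) = 0 := fun j => congrFun h8 j
      simp only [h9, zero_smul, Finset.sum_const_zero, add_zero] at he
      change τ ∈ _
      rw [← he]
      exact Submodule.add_mem _ (Submodule.smul_mem _ _ (Submodule.subset_span ⟨0, rfl⟩))
        (Submodule.smul_mem _ _ (Submodule.subset_span ⟨1, rfl⟩))
    have h2 := Submodule.finrank_mono h1
    have h3 : Module.finrank ℂ ((LinearMap.ker (Ψ.domRestrict T)).map T.subtype) =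
        Module.finrank ℂ (LinearMap.ker (Ψ.domRestrict T)) :=
      (Submodule.equivMapOfInjective T.subtype T.injective_subtype _).finrank_eq.symm
    have h4 := finrank_range_le_card (R := ℂ) (M := Vx N) ![x, v]
    rw [Fintype.card_fin] at h4
    have h5 : Module.finrank ℂ (Submodule.span ℂ (Set.range ![x, v])) ≤ 2 := h4
    omega
  have hrk := LinearMap.finrank_range_add_finrank_ker (Ψ.domRestrict T)
  rw [LinearMap.range_domRestrict] at hrk
  have heq : T.map Ψ = LinearMap.ker κ := by
    refine Submodule.eq_of_le_of_finrank_le hle ?_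
    rw [hκr]
    omega
  have hmem : ((l, l₀) : (Fin n' → ℂ) × ℂ) ∈ LinearMap.ker κ := by
    rw [LinearMap.mem_ker]
    exact hrel
  rw [← heq] at hmem
  obtain ⟨τ, hτ, hτ'⟩ := hmem
  exact ⟨τ, hτ, fun i => congrFun (congrArg Prod.fst hτ') i, congrArg Prod.snd hτ'⟩

end Pool.Agent.Lib.MP_776403_ag.SD.LI
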