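import Pool.Agent.Lib.MP_776403_ag.SD.LI.Spec

/-!
# LEMMA I: linear forms for the points (helper17)
-/

set_option autoImplicit false

open MvPolynomial

noncomputable section

namespace Pool.Agent.Lib.MP_776403_ag.SD.LI

namespace HzAux

variable {N : ℕ}

/-- The coefficient vector of a linear functional. -/
def fv (f : Vx N →ₗ[ℂ] ℂ) : Vx N := fun i => f (Pi.single i 1)

theorem dp_fv (f : Vx N →ₗ[ℂ] ℂ) (y : Vx N) : dp (fv f) y = f y := by
  have h2 : y = ∑ i, y i • (Pi.single i 1 : Vx N) := by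
    funext j
    rw [Finset.sum_apply, Finset.sum_eq_single j]
    · rw [Pi.smul_apply, Pi.single_eq_same, smul_eq_mul, mul_one]
    · intro i _ hi
      rw [Pi.smul_apply, Pi.single_eq_of_ne (Ne.symm hi), smul_zero]
    · intro h
      exact absurd (Finset.mem_univ j) h
  conv_rhs => rw [h2]
  rw [map_sum]
  unfold dp fv
  refine Finset.sum_congr rfl fun i _ => ?_
  rw [map_smul, smul_eq_mul, mul_comm]

theorem sumExtend_inl {ι : Type} (e : ι → Vx N) (he : LinearIndependent ℂ e) (i : ι) :
    Module.Basis.sumExtend he (Sum.inl i) = e i := by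
  simp [Module.Basis.sumExtend]
  rfl

/-- Extension of an independent family to a basis. -/
theorem ext_basis {ι : Type} [Fintype ι] {n : ℕ} (e : ι → Vx N) (he : LinearIndependent ℂ e)
    (hc : Fintype.card ι + n = N + 1) :
    ∃ B : Module.Basis (ι ⊕ Fin n) ℂ (Vx N), ∀ i, B (Sum.inl i) = e i := by
  classical
  have hfin : Finite (ι ⊕ Module.Basis.sumExtendIndex he) :=
    Module.Finite.finite_basis (Module.Basis.sumExtend he)
  have hfin2 : Finite (Module.Basis.sumExtendIndex he) :=
    Finite.of_injective (Sum.inr : _ → ι ⊕ Module.Basis.sumExtendIndex he) Sum.inr_injective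
  let F2 : Fintype (Module.Basis.sumExtendIndex he) := Fintype.ofFinite _
  have h1 := Module.finrank_eq_card_basis (Module.Basis.sumExtend he)
  rw [Module.finrank_fin_fun, Fintype.card_sum] at h1
  have h2 : Fintype.card (Module.Basis.sumExtendIndex he) = n := by omega
  let E : Module.Basis.sumExtendIndex he ≃ Fin n := Fintype.equivFinOfCardEq h2
  refine ⟨(Module.Basis.sumExtend he).reindex (Equiv.sumCongr (Equiv.refl ι) E), fun i => ?_⟩
  rw [Module.Basis.reindex_apply]
  exact sumExtend_inl e he i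

/-- The points of the line and the points `z` are independent. -/
theorem indep {k : ℕ} (I : Ideal (Sx N)) (x v : Vx N) (hl : LinearIndependent ℂ ![x, v])
    (z : Fin k → Vx N) (hz : ∀ i, z i ≠ 0)
    (h : ∀ i, ∀ (a b : ℂ) (γ : Fin k → ℂ), a • x + b • v + ∑ j, γ j • z j ∈ TS I (z i) →
        a = 0 ∧ b = 0 ∧ ∀ j, j ≠ i → γ j = 0) :
    LinearIndependent ℂ (Sum.elim ![x, v] z) := by
  rw [Fintype.linearIndependent_iff]
  intro g hg
  rw [Fintype.sum_sum_type, Fin.sum_univ_two] at hg
  simp only [Sum.elim_inl, Sum.elim_inr, Matrix.cons_val_zero, Matrix.cons_val_one] at hg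
  have key : g (Sum.inl 0) = 0 ∧ g (Sum.inl 1) = 0 ∧ ∀ j, g (Sum.inr j) = 0 := by
    have hmem : ∀ i, g (Sum.inl 0) = 0 ∧ g (Sum.inl 1) = 0 ∧
        ∀ j, j ≠ i → g (Sum.inr j) = 0 := fun i =>
      h i _ _ (fun j => g (Sum.inr j)) (by rw [hg]; exact (TS I (z i)).zero_mem)
    rcases Nat.eq_zero_or_pos k with hk | hk
    · subst hk
      rw [Finset.univ_eq_empty, Finset.sum_empty, add_zero] at hg
      have h2 := LinearIndependent.pair_iff.1 hl _ _ hg
      exact ⟨h2.1, h2.2, fun j => j.elim0⟩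
    · refine ⟨(hmem ⟨0, hk⟩).1, (hmem ⟨0, hk⟩).2.1, fun j => ?_⟩
      obtain ⟨h0, h1, h2⟩ := hmem j
      rw [h0, h1, zero_smul, zero_smul, add_zero, zero_add,
        Finset.sum_eq_single j (fun b _ hb => by rw [h2 b hb, zero_smul])
          (fun hj => absurd (Finset.mem_univ j) hj)] at hg
      exact (smul_eq_zero.1 hg).resolve_right (hz j)
  rintro (i | j)
  · fin_cases i
    · exact key.1
    · exact key.2.1
  · exact key.2.2 j

end HzAux

open HzAux in
theorem tHz : S_TS → S_Hz := by
  classical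
  intro hTS N k n' I hN hIp hIh hIs x v hl z hz h
  have hz0 : ∀ i, z i ≠ 0 := fun i => (hz i).2
  have hLI := indep I x v hl.1 z hz0 h
  obtain ⟨B, hB⟩ := ext_basis (n := n' + 1) (Sum.elim ![x, v] z) hLI
    (by rw [Fintype.card_sum, Fintype.card_fin, Fintype.card_fin]; omega)
  have hBx : B (Sum.inl (Sum.inl 0)) = x := hB _
  have hBv : B (Sum.inl (Sum.inl 1)) = v := hB _
  have hBz : ∀ j, B (Sum.inl (Sum.inr j)) = z j := fun j => hB _
  have hco : ∀ p q, B.coord p (B q) = if q = p then 1 else 0 := fun p q => by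
    rw [Module.Basis.coord_apply, Module.Basis.repr_self, Finsupp.single_apply]
  have hcx : ∀ p, B.coord p x = if Sum.inl (Sum.inl 0) = p then 1 else 0 := fun p => by
    rw [← hBx]; exact hco _ _
  have hcv : ∀ p, B.coord p v = if Sum.inl (Sum.inl 1) = p then 1 else 0 := fun p => by
    rw [← hBv]; exact hco _ _
  have hcz : ∀ p j, B.coord p (z j) = if Sum.inl (Sum.inr j) = p then 1 else 0 := fun p j => by
    rw [← hBz]; exact hco _ _
  refine ⟨fun r => fv (B.coord (Sum.inr r)), fun i => fv (B.coord (Sum.inl (Sum.inr i))),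
    ⟨hz, fun r => ?_, fun r => ?_, fun r i => ?_, fun i => ?_, fun i => ?_, fun i j => ?_,
      fun i l => ?_⟩⟩
  · rw [dp_fv, hcx, if_neg Sum.inl_ne_inr]
  · rw [dp_fv, hcv, if_neg Sum.inl_ne_inr]
  · rw [dp_fv, hcz, if_neg Sum.inl_ne_inr]
  · rw [dp_fv, hcx, if_neg (fun hh => Sum.inl_ne_inr (Sum.inl_injective hh))]
  · rw [dp_fv, hcv, if_neg (fun hh => Sum.inl_ne_inr (Sum.inl_injective hh))]
  · rw [dp_fv, hcz]
    by_cases hij : i = j
    · subst hij
      rw [if_pos rfl, if_pos rfl]
    · rw [if_neg hij, if_neg (fun hh => hij (Sum.inr_injective (Sum.inl_injective hh)).symm)]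
  · obtain ⟨hdim, hzT, -⟩ := hTS N (k + 1) I hIp hIh hIs (z i) (hz i).1 (hz i).2
    let f : TS I (z i) →ₗ[ℂ] (Fin (n' + 1) → ℂ) :=
      LinearMap.pi (fun r => (B.coord (Sum.inr r)).comp (TS I (z i)).subtype)
    have hf : ∀ (τ : TS I (z i)) (r : Fin (n' + 1)), f τ r = B.coord (Sum.inr r) τ :=
      fun τ r => rfl
    have hker : LinearMap.ker f ≤ Submodule.span ℂ {(⟨z i, hzT⟩ : TS I (z i))} := by
      intro τ hτ
      have hτ0 : ∀ r, B.coord (Sum.inr r) τ = 0 := fun r => by
        rw [← hf, LinearMap.mem_ker.1 hτ, Pi.zero_apply]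
      have hsum := B.sum_repr (τ : Vx N)
      rw [Fintype.sum_sum_type, Fintype.sum_sum_type, Fin.sum_univ_two, hBx, hBv,
        Finset.sum_eq_zero (s := Finset.univ)
          (f := fun r : Fin (n' + 1) => B.repr (τ : Vx N) (Sum.inr r) • B (Sum.inr r))
          (fun r _ => by
            have := hτ0 r
            rw [Module.Basis.coord_apply] at this
            rw [this, zero_smul]), add_zero] at hsum
      simp only [hBz] at hsum
      obtain ⟨ha, hb, hγ⟩ := h i _ _ (fun j => B.repr (τ : Vx N) (Sum.inl (Sum.inr j)))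
        (by rw [hsum]; exact τ.2)
      rw [ha, hb, zero_smul, zero_smul, add_zero, zero_add,
        Finset.sum_eq_single i (fun b _ hb' => by rw [hγ b hb', zero_smul])
          (fun hj => absurd (Finset.mem_univ i) hj)] at hsum
      rw [Submodule.mem_span_singleton]
      exact ⟨_, Subtype.ext hsum⟩
    have hk1 : Module.finrank ℂ (LinearMap.ker f) ≤ 1 :=
      (Submodule.finrank_mono hker).trans ((finrank_span_le_card _).trans (by simp))
    have hrn := LinearMap.finrank_range_add_finrank_ker f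
    have hr : Module.finrank ℂ (LinearMap.range f) = Module.finrank ℂ (Fin (n' + 1) → ℂ) := by
      have h3 := Submodule.finrank_le (LinearMap.range f)
      rw [Module.finrank_fin_fun] at h3 ⊢
      omega
    have htop : LinearMap.range f = ⊤ := Submodule.eq_top_of_finrank_eq hr
    obtain ⟨τ, hτ⟩ := LinearMap.range_eq_top.1 htop l
    refine ⟨τ, τ.2, fun r => ?_⟩
    rw [dp_fv, ← hf, hτ]

end Pool.Agent.Lib.MP_776403_ag.SD.LI
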