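import Pool.Agent.Lib.MP_776403_ag.SD.LI.Spec
import Pool.Agent.Lib.MP_776403_ag.SD.Bas

/-!
# LEMMA I: the relation along the line (Qa)
-/

set_option autoImplicit false

open MvPolynomial

noncomputable section

namespace Pool.Agent.Lib.MP_776403_ag.SD.LI

namespace QaAux

variable {N k : ℕ}

/-! ### Determinants with a variable last column -/

/-- the signed minors -/
def mi {R : Type} [CommRing R] (A : Fin (k + 1) → Fin k → R) (i : Fin (k + 1)) : R :=
  (-1) ^ ((i : ℕ) + k) * Matrix.det (Matrix.of fun (a b : Fin k) => A (i.succAbove a) b)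

theorem det_last {R : Type} [CommRing R] (A : Fin (k + 1) → Fin k → R) (w : Fin (k + 1) → R) :
    Matrix.det (Matrix.of fun i : Fin (k + 1) =>
      (Fin.snoc (α := fun _ => R) (A i) (w i) : Fin (k + 1) → R)) = ∑ i, mi A i * w i := by
  rw [Matrix.det_succ_column _ (Fin.last k)]
  refine Finset.sum_congr rfl fun i _ => ?_
  have e1 : (Matrix.of fun i : Fin (k + 1) =>
      (Fin.snoc (α := fun _ => R) (A i) (w i) : Fin (k + 1) → R)).submatrix i.succAbove
        (Fin.last k).succAbove = Matrix.of fun (a b : Fin k) => A (i.succAbove a) b := by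
    ext a b
    rw [Matrix.submatrix_apply, Fin.succAbove_last, Matrix.of_apply, Matrix.of_apply,
      Fin.snoc_castSucc]
  rw [e1, Matrix.of_apply, Fin.snoc_last, Fin.val_last, mi]
  ring

theorem det_rep {R : Type} [CommRing R] (A : Fin (k + 1) → Fin k → R) (j : Fin k) :
    ∑ i, mi A i * A i j = 0 := by
  rw [← det_last]
  refine Matrix.det_zero_of_column_eq (i := Fin.castSucc j) (j := Fin.last k)
    (Fin.castSucc_lt_last j).ne fun r => ?_
  show (Fin.snoc (α := fun _ => R) (A r) (A r j) : Fin (k + 1) → R) (Fin.castSucc j) =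
    (Fin.snoc (α := fun _ => R) (A r) (A r j) : Fin (k + 1) → R) (Fin.last k)
  rw [Fin.snoc_castSucc, Fin.snoc_last]

theorem mi_map {R S : Type} [CommRing R] [CommRing S] (φ : R →+* S)
    (A : Fin (k + 1) → Fin k → R) (i : Fin (k + 1)) : φ (mi A i) = mi (fun i j => φ (A i j)) i := by
  unfold mi
  rw [map_mul, map_pow, map_neg, map_one, RingHom.map_det]
  rfl

/-- if all the minors vanish then the columns are dependent -/
theorem dep (A : Fin (k + 1) → Fin k → ℂ) (h : ∀ i, mi A i = 0) :
    ∃ a : Fin k → ℂ, a ≠ 0 ∧ ∀ i, ∑ j, a j * A i j = 0 := by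
  by_contra hc
  push Not at hc
  have hli : LinearIndependent ℂ (fun (j : Fin k) (i : Fin (k + 1)) => A i j) := by
    rw [Fintype.linearIndependent_iff]
    intro g hg
    by_contra hne
    push Not at hne
    obtain ⟨j, hj⟩ := hne
    obtain ⟨i, hi⟩ := hc g fun h0 => hj (congrFun h0 j)
    refine hi ?_
    have := congrFun hg i
    rw [Finset.sum_apply] at this
    exact this
  obtain ⟨b, hb⟩ : ∃ b : Fin (k + 1) → ℂ, b ∉ Submodule.span ℂ
      (Set.range fun (j : Fin k) (i : Fin (k + 1)) => A i j) := by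
    by_contra hall
    push Not at hall
    have htop : Submodule.span ℂ (Set.range fun (j : Fin k) (i : Fin (k + 1)) => A i j) = ⊤ :=
      Submodule.eq_top_iff'.2 hall
    have h1 := finrank_span_eq_card hli
    rw [htop, finrank_top, Module.finrank_fin_fun, Fintype.card_fin] at h1
    omega
  have h2 := linearIndependent_finSnoc.2 ⟨hli, hb⟩
  have h3 : (Matrix.of fun i : Fin (k + 1) =>
      (Fin.snoc (α := fun _ => ℂ) (A i) (b i) : Fin (k + 1) → ℂ)).col =
      Fin.snoc (fun (j : Fin k) (i : Fin (k + 1)) => A i j) b := by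
    funext j
    refine Fin.lastCases ?_ (fun j => ?_) j
    · funext i
      rw [Fin.snoc_last]
      show (Fin.snoc (α := fun _ => ℂ) (A i) (b i) : Fin (k + 1) → ℂ) (Fin.last k) = b i
      rw [Fin.snoc_last]
    · funext i
      rw [Fin.snoc_castSucc]
      show (Fin.snoc (α := fun _ => ℂ) (A i) (b i) : Fin (k + 1) → ℂ) (Fin.castSucc j) = A i j
      rw [Fin.snoc_castSucc]
  rw [← h3] at h2
  have h4 := (Matrix.isUnit_iff_isUnit_det _).1 (Matrix.linearIndependent_cols_iff_isUnit.1 h2)
  rw [det_last] at h4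
  refine h4.ne_zero ?_
  simp [h]

/-! ### The conormal field -/

theorem sV_eq (F : Fin (k + 1) → Sx N) (u : Fin k → Vx N) (l : Fin (N + 1)) :
    sV F u l = ∑ i, mi (fun i j => dd (u j) (F i)) i * pderiv l (F i) :=
  det_last _ _

theorem eval_dd (a y : Vx N) (F : Sx N) : eval y (dd a F) = dp (grad F y) a := by
  simp only [dd, dp, grad, map_sum, map_mul, eval_C]
  exact Finset.sum_congr rfl fun i _ => mul_comm _ _

theorem sV_kill (F : Fin (k + 1) → Sx N) (u : Fin k → Vx N) (j : Fin k) :
    ∑ l, C (u j l) * sV F u l = 0 := by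
  have h1 : ∑ l, C (u j l) * sV F u l =
      ∑ i, mi (fun i j => dd (u j) (F i)) i * dd (u j) (F i) := by
    simp only [sV_eq, dd, Finset.mul_sum]
    rw [Finset.sum_comm]
    exact Finset.sum_congr rfl fun i _ => Finset.sum_congr rfl fun l _ => by ring
  rw [h1]
  exact det_rep (fun i j => dd (u j) (F i)) j

theorem sV_CN {I : Ideal (Sx N)} {F : Fin (k + 1) → Sx N} (hF : ∀ i, F i ∈ I)
    (u : Fin k → Vx N) (y : Vx N) : (fun l => eval y (sV F u l)) ∈ CN I y := by
  have h1 : (fun l => eval y (sV F u l)) =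
      ∑ i, eval y (mi (fun i j => dd (u j) (F i)) i) • grad (F i) y := by
    funext l
    rw [sV_eq, map_sum, Finset.sum_apply]
    exact Finset.sum_congr rfl fun i _ => map_mul _ _ _
  rw [h1]
  exact Submodule.sum_mem _ fun i _ => Submodule.smul_mem _ _
    (Submodule.subset_span ⟨F i, hF i, rfl⟩)

/-- pairing with a fixed vector -/
def dpL (w : Vx N) : Vx N →ₗ[ℂ] ℂ where
  toFun φ := dp φ w
  map_add' φ ψ := by
    simp only [dp, Pi.add_apply, add_mul, Finset.sum_add_distrib]
  map_smul' r φ := by
    simp only [dp, Pi.smul_apply, smul_eq_mul, RingHom.id_apply, Finset.mul_sum, mul_assoc]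

/-- the field does not vanish where the gradients of the `F i` are independent -/
theorem sV_ne (hCN : S_CN) {I : Ideal (Sx N)} (hS : Smooth I (k + 1)) {y : Vx N}
    (hy : y ∈ zer I) (hy0 : y ≠ 0) {F : Fin (k + 1) → Sx N} (hF : ∀ i, F i ∈ I)
    {B : Fin (k + 1) → Fin (N + 1)}
    (hdet : eval y (Matrix.det (Matrix.of fun i b => pderiv (B b) (F i))) ≠ 0)
    {u : Fin k → Vx N} (hu : Trv I u y) : (fun l => eval y (sV F u l)) ≠ 0 := by
  intro h0
  have hdet' : (Matrix.of fun i b => eval y (pderiv (B b) (F i)) :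
      Matrix (Fin (k + 1)) (Fin (k + 1)) ℂ).det ≠ 0 := by
    rw [RingHom.map_det] at hdet
    exact hdet
  -- the minors vanish
  have h1 : (fun i => mi (fun i j => dp (grad (F i) y) (u j)) i) = 0 := by
    refine Matrix.eq_zero_of_vecMul_eq_zero hdet' ?_
    funext b
    have h2 := congrFun h0 (B b)
    simp only [Pi.zero_apply] at h2
    rw [sV_eq, map_sum] at h2
    rw [Matrix.vecMul, dotProduct, Pi.zero_apply, ← h2]
    refine Finset.sum_congr rfl fun i _ => ?_
    rw [map_mul, mi_map, Matrix.of_apply]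
    simp only [eval_dd]
  obtain ⟨a, ha, ha'⟩ := dep (fun i j => dp (grad (F i) y) (u j)) fun i => congrFun h1 i
  -- the gradients of the `F i` span the conormal space
  have hli : LinearIndependent ℂ fun i => grad (F i) y := by
    rw [Fintype.linearIndependent_iff]
    intro g hg
    have h3 : g = 0 := by
      refine Matrix.eq_zero_of_vecMul_eq_zero hdet' ?_
      funext b
      have h4 := congrFun hg (B b)
      rw [Finset.sum_apply] at h4
      exact h4
    exact fun i => congrFun h3 i
  have hspan : Submodule.span ℂ (Set.range fun i => grad (F i) y) = CN I y := by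
    refine Submodule.eq_of_le_of_finrank_eq ?_ ?_
    · rw [Submodule.span_le]
      rintro _ ⟨i, rfl⟩
      exact Submodule.subset_span ⟨F i, hF i, rfl⟩
    · rw [finrank_span_eq_card hli, (hCN N (k + 1) I hS y hy hy0).1, Fintype.card_fin]
  have hker : CN I y ≤ LinearMap.ker (dpL (∑ j, a j • u j)) := by
    rw [← hspan, Submodule.span_le]
    rintro _ ⟨i, rfl⟩
    show dp (grad (F i) y) (∑ j, a j • u j) = 0
    rw [← ha' i]
    simp only [dp, Finset.sum_apply, Pi.smul_apply, smul_eq_mul, Finset.mul_sum]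
    rw [Finset.sum_comm]
    exact Finset.sum_congr rfl fun j _ => Finset.sum_congr rfl fun l _ => by ring
  refine ha (hu a fun G hG => ?_)
  exact hker (Submodule.subset_span ⟨G, hG, rfl⟩)

theorem dd_hom {F : Sx N} {m : ℕ} (hF : F.IsHomogeneous m) (a : Vx N) :
    (dd a F).IsHomogeneous (m - 1) := by
  unfold dd
  refine IsHomogeneous.sum _ _ _ fun i _ => ?_
  have h := (isHomogeneous_C (Fin (N + 1)) (a i)).mul (hF.pderiv (i := i))
  rwa [zero_add] at h

theorem lin_C (x v : Vx N) (a : ℂ) : lin x v (C a) = Polynomial.C a := by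
  unfold lin
  rw [aeval_C]
  rfl

end QaAux

open QaAux in
theorem tQa : S_CN → S_Perp → S_DetHom → S_LinB → S_Qa := by
  intro hCN hPerp hDH hLB N k I hP hH hS x v hl L hgood u hu
  classical
  have hv : v ∈ zer I := by
    have := hl.2 0 1
    rwa [zero_smul, one_smul, zero_add] at this
  have hv0 : v ≠ 0 := hl.1.ne_zero 1
  have hux : Trv I u x := by
    have := hu 1 0 (Or.inl one_ne_zero)
    rwa [one_smul, zero_smul, add_zero] at this
  have huv : Trv I u v := by
    have := hu 0 1 (Or.inr one_ne_zero)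
    rwa [one_smul, zero_smul, zero_add] at this
  set s : Fin (N + 1) → Sx N := sV L.F u with hs
  have shom : ∀ l, (s l).IsHomogeneous L.dg := by
    intro l
    refine hDH N (Fin (k + 1)) _ (fun i => L.f i - 1) fun i j => ?_
    rw [Matrix.of_apply]
    refine Fin.lastCases ?_ (fun j => ?_) j
    · rw [Fin.snoc_last]
      exact (L.homF i).pderiv
    · rw [Fin.snoc_castSucc]
      exact dd_hom (L.homF i) _
  have sx : (fun l => eval x (s l)) ≠ 0 :=
    sV_ne hCN hS L.memx L.nex L.memF L.detx hux
  have sv : (fun l => eval v (s l)) ≠ 0 :=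
    sV_ne hCN hS hv hv0 L.memF (B := L.B) hgood huv
  set S : Fin (N + 1) → Polynomial ℂ := fun l => lin x v (s l) with hSd
  have Sdeg : ∀ l, (S l).natDegree ≤ L.dg := fun l => ((hLB N x v (s l)).2.1 _ (shom l)).1
  have Stop : ∀ l, (S l).coeff L.dg = eval v (s l) := fun l =>
    ((hLB N x v (s l)).2.1 _ (shom l)).2.1
  -- the greatest common divisor
  set J : Ideal (Polynomial ℂ) := Ideal.span (Set.range S) with hJ
  set p : Polynomial ℂ := Submodule.IsPrincipal.generator J with hp
  have hpJ : Ideal.span {p} = J := Ideal.span_singleton_generator J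
  have hdvd : ∀ l, p ∣ S l := by
    intro l
    rw [← Ideal.mem_span_singleton, hpJ]
    exact Ideal.subset_span ⟨l, rfl⟩
  choose q hq using hdvd
  obtain ⟨c, hc⟩ : ∃ c : Fin (N + 1) → Polynomial ℂ, ∑ l, c l * S l = p := by
    have h1 : p ∈ J := by
      rw [← hpJ]
      exact Ideal.mem_span_singleton_self p
    obtain ⟨c, hc⟩ := (Ideal.mem_span_range_iff_exists_fun).1 h1
    exact ⟨c, hc⟩
  obtain ⟨l₀, hl₀⟩ : ∃ l, eval v (s l) ≠ 0 := by
    by_contra hcon
    push Not at hcon
    exact sv (funext hcon)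
  have hS0 : S l₀ ≠ 0 := by
    intro h
    refine hl₀ ?_
    rw [← Stop, h, Polynomial.coeff_zero]
  have hp0 : p ≠ 0 := by
    intro h
    refine hS0 ?_
    rw [hq l₀, h, zero_mul]
  have hcq : ∑ l, c l * q l = 1 := by
    have h1 : p * ∑ l, c l * q l = p * 1 := by
      calc p * ∑ l, c l * q l = ∑ l, c l * S l := by
            rw [Finset.mul_sum]
            refine Finset.sum_congr rfl fun l _ => ?_
            rw [hq l]
            ring
        _ = p * 1 := by rw [hc, mul_one]
    exact mul_left_cancel₀ hp0 h1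
  have hdl₀ : (S l₀).natDegree = L.dg := by
    refine le_antisymm (Sdeg l₀) (Polynomial.le_natDegree_of_ne_zero ?_)
    rw [Stop]
    exact hl₀
  have hpd : p.natDegree ≤ L.dg := by
    rw [← hdl₀]
    exact Polynomial.natDegree_le_of_dvd ⟨q l₀, hq l₀⟩ hS0
  have hδ : p.natDegree + (L.dg - p.natDegree) = L.dg := by omega
  have qdeg : ∀ l, (q l).natDegree ≤ L.dg - p.natDegree := by
    intro l
    by_cases h0 : q l = 0
    · rw [h0, Polynomial.natDegree_zero]
      exact Nat.zero_le _
    · have h1 := Sdeg l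
      rw [hq l, Polynomial.natDegree_mul hp0 h0] at h1
      omega
  have qtop : ∀ l, p.leadingCoeff * (q l).coeff (L.dg - p.natDegree) = eval v (s l) := by
    intro l
    have h1 := Polynomial.coeff_mul_add_eq_of_natDegree_le (le_refl p.natDegree) (qdeg l)
    rw [hδ] at h1
    rw [← Stop l, hq l, h1]
    rfl
  have lc0 : p.leadingCoeff ≠ 0 := Polynomial.leadingCoeff_ne_zero.2 hp0
  refine ⟨L.dg - p.natDegree, p, q, hp0, hδ, hq, ?_⟩
  refine ⟨qdeg, ?_, ?_, ?_, ?_, ?_⟩
  · intro j
    have h1 : p * ∑ i, Polynomial.C (u j i) * q i = 0 := by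
      have h2 := congrArg (lin x v) (sV_kill L.F u j)
      rw [map_zero, map_sum] at h2
      rw [← h2, Finset.mul_sum]
      refine Finset.sum_congr rfl fun l _ => ?_
      rw [map_mul, lin_C]
      have h3 : lin x v (sV L.F u l) = p * q l := hq l
      rw [h3]
      ring
    exact (mul_eq_zero.1 h1).resolve_left hp0
  · intro t
    refine (hPerp N (k + 1) I hP hH hS (x + t • v) (mem_zer_line hl t)
      (line_ne_zero' hl t)).2.2.2 _ fun w hw m hm => ?_
    have h1 : p * ∑ i, q i * lin x v (w i) = 0 := by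
      have h2 : ∑ i, s i * w i ∈ I := by
        have h3 : ∑ l, s l * w l = ∑ i, mi (fun i j => dd (u j) (L.F i)) i *
            ∑ l, pderiv l (L.F i) * w l := by
          simp only [hs, sV_eq, Finset.mul_sum, Finset.sum_mul]
          rw [Finset.sum_comm]
          exact Finset.sum_congr rfl fun i _ => Finset.sum_congr rfl fun l _ => by ring
        rw [h3]
        exact Ideal.sum_mem _ fun i _ => Ideal.mul_mem_left _ _ (hw (L.F i) (L.memF i))
      have h4 := lin_eq_zero hl h2
      rw [map_sum] at h4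
      rw [← h4, Finset.mul_sum]
      refine Finset.sum_congr rfl fun l _ => ?_
      rw [map_mul]
      have h3 : lin x v (s l) = p * q l := hq l
      rw [h3]
      ring
    have h5 := (mul_eq_zero.1 h1).resolve_left hp0
    have h6 := congrArg (Polynomial.eval t) h5
    rw [Polynomial.eval_finsetSum, Polynomial.eval_zero] at h6
    rw [← h6]
    refine Finset.sum_congr rfl fun i _ => ?_
    rw [Polynomial.eval_mul, lin_eval]
  · intro t h0
    have h1 := congrArg (Polynomial.eval t) hcq
    rw [Polynomial.eval_finsetSum, Polynomial.eval_one] at h1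
    refine zero_ne_one (α := ℂ) ?_
    rw [← h1]
    refine (Finset.sum_eq_zero fun l _ => ?_).symm
    rw [Polynomial.eval_mul, congrFun h0 l]
    exact mul_zero _
  · have h1 : (fun i => (q i).coeff (L.dg - p.natDegree)) =
        (p.leadingCoeff)⁻¹ • fun l => eval v (s l) := by
      funext l
      rw [Pi.smul_apply, smul_eq_mul, ← qtop l, inv_mul_cancel_left₀ lc0]
    rw [h1]
    exact Submodule.smul_mem _ _ (sV_CN L.memF u v)
  · intro h0
    refine hl₀ ?_
    have h1 := congrFun h0 l₀
    rw [← qtop l₀, h1]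
    exact mul_zero _

end Pool.Agent.Lib.MP_776403_ag.SD.LI
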