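import Pool.Agent.Lib.MP_776403_ag.SD.LI.Spec
import Pool.Agent.Lib.MP_776403_ag.SD.J.Spec
import Pool.Agent.Lib.MP_776403_ag.SD.Bas

/-!
# LEMMA I, module Qb (helper28): the degree of the relation is the colength

For `G : Fin (k + 1) → I` and `w = (u, e_l)` let `sgq G w = det (lin (dd (w j) (G i)))` and
`dBq G = det (lin (∂_(B b) (G i)))`.  Cramer's rule gives `sgq G w * lin Δ = dBq G * p * q_l`.  The `sgq G w`
generate the unit ideal (transversality), so `lin Δ = p * a` with `a` in the Fitting ideal.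
-/

set_option autoImplicit false

open MvPolynomial

noncomputable section

namespace Pool.Agent.Lib.MP_776403_ag.SD.LI

variable {N : ℕ}

namespace QbAux

/-- constant columns -/
def Um {k : ℕ} (w : Fin (k + 1) → Vx N) : Matrix (Fin (N + 1)) (Fin (k + 1)) (Polynomial ℂ) :=
  Matrix.of fun i j => Polynomial.C (w j i)

/-- gradients along the line -/
def Pm (x v : Vx N) {k : ℕ} (G : Fin (k + 1) → Sx N) :
    Matrix (Fin (k + 1)) (Fin (N + 1)) (Polynomial ℂ) :=
  Matrix.of fun i l => lin x v (pderiv l (G i))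

/-- the determinants -/
def sgq (x v : Vx N) {k : ℕ} (w : Fin (k + 1) → Vx N) (G : Fin (k + 1) → Sx N) : Polynomial ℂ :=
  (Pm x v G * Um w).det

theorem dp_single (φ : Vx N) (l : Fin (N + 1)) : dp φ (Pi.single l 1) = φ l := by
  unfold dp
  rw [Finset.sum_eq_single l]
  · rw [Pi.single_eq_same, mul_one]
  · intro i _ hi
    rw [Pi.single_eq_of_ne hi, mul_zero]
  · intro h
    exact absurd (Finset.mem_univ l) h

theorem lin_sV (x v : Vx N) {k : ℕ} (F : Fin (k + 1) → Sx N) (u : Fin k → Vx N)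
    (l : Fin (N + 1)) :
    lin x v (sV F u l) =
      sgq x v (Fin.snoc (α := fun _ => Vx N) u (Pi.single l 1) : Fin (k + 1) → Vx N) F := by
  unfold sV sgq
  rw [AlgHom.map_det]
  congr 1
  ext1 i j
  rw [AlgHom.mapMatrix_apply, Matrix.map_apply, Matrix.of_apply, Matrix.mul_apply]
  refine Fin.lastCases ?_ (fun j' => ?_) j
  · rw [Fin.snoc_last]
    rw [Finset.sum_eq_single l]
    · simp [Pm, Um]
    · intro i' _ hi
      simp [Pm, Um, Pi.single_eq_of_ne hi]
    · intro h
      exact absurd (Finset.mem_univ l) h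
  · rw [Fin.snoc_castSucc]
    unfold dd
    rw [map_sum]
    refine Finset.sum_congr rfl fun i' _ => ?_
    rw [map_mul, mul_comm]
    simp [Pm, Um, lin]

theorem eval_sg (x v : Vx N) {k : ℕ} (w : Fin (k + 1) → Vx N) (G : Fin (k + 1) → Sx N) (t : ℂ) :
    (sgq x v w G).eval t =
      (Matrix.of fun i j : Fin (k + 1) => dp (grad (G i) (x + t • v)) (w j)).det := by
  have h : (sgq x v w G).eval t = Polynomial.evalRingHom t (sgq x v w G) := rfl
  rw [h]
  unfold sgq
  rw [RingHom.map_det]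
  congr 1
  ext1 i j
  rw [RingHom.mapMatrix_apply, Matrix.map_apply, Matrix.of_apply, Matrix.mul_apply, map_sum]
  unfold dp
  refine Finset.sum_congr rfl fun l _ => ?_
  rw [map_mul]
  simp only [Pm, Um, Matrix.of_apply, Polynomial.coe_evalRingHom, Polynomial.eval_C, lin_eval, grad]

/-- the minors of the coordinates `B` -/
def dBq (x v : Vx N) {k : ℕ} (B : Fin (k + 1) → Fin (N + 1)) (G : Fin (k + 1) → Sx N) :
    Polynomial ℂ := (Matrix.of fun i b : Fin (k + 1) => lin x v (pderiv (B b) (G i))).det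

theorem cram {I : Ideal (Sx N)} {x v : Vx N} {k : ℕ} (L : Loc I x (k + 1))
    (hCr : ∀ G ∈ I, ∀ j, lin x v L.dt * lin x v (pderiv j G) =
      ∑ b, lin x v (L.coef b j) * lin x v (pderiv (L.B b) G))
    (w : Fin (k + 1) → Vx N) {G : Fin (k + 1) → Sx N} (hG : ∀ i, G i ∈ I) :
    lin x v L.dt ^ (k + 1) * sgq x v w G = dBq x v L.B G *
      ((Matrix.of fun (b : Fin (k + 1)) (j : Fin (N + 1)) => lin x v (L.coef b j)) * Um w).det := by
  have e : (Matrix.of fun i b : Fin (k + 1) => lin x v (pderiv (L.B b) (G i))) *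
      (Matrix.of fun (b : Fin (k + 1)) (j : Fin (N + 1)) => lin x v (L.coef b j)) =
      lin x v L.dt • Pm x v G := by
    ext1 i j
    rw [Matrix.mul_apply, Matrix.smul_apply, smul_eq_mul]
    simp only [Pm, Matrix.of_apply]
    rw [hCr (G i) (hG i) j]
    exact Finset.sum_congr rfl fun b _ => mul_comm _ _
  unfold dBq
  rw [← Matrix.det_mul, ← Matrix.mul_assoc, e, Matrix.smul_mul, Matrix.det_smul, Fintype.card_fin]
  rfl

theorem dB_F {I : Ideal (Sx N)} {x v : Vx N} {k : ℕ} (L : Loc I x (k + 1)) :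
    dBq x v L.B L.F = lin x v L.dt := by
  unfold dBq Loc.dt
  rw [AlgHom.map_det]
  congr 1

theorem idn {I : Ideal (Sx N)} {x v : Vx N} {k : ℕ} (L : Loc I x (k + 1))
    (hD : lin x v L.dt ≠ 0)
    (hCr : ∀ G ∈ I, ∀ j, lin x v L.dt * lin x v (pderiv j G) =
      ∑ b, lin x v (L.coef b j) * lin x v (pderiv (L.B b) G))
    (w : Fin (k + 1) → Vx N) {G : Fin (k + 1) → Sx N} (hG : ∀ i, G i ∈ I) :
    sgq x v w G * lin x v L.dt = dBq x v L.B G * sgq x v w L.F := by
  have h1 := cram L hCr w hG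
  have h2 := cram L hCr w L.memF
  rw [dB_F] at h2
  have hn : lin x v L.dt ^ (k + 1) ≠ 0 := pow_ne_zero _ hD
  refine mul_left_cancel₀ hn ?_
  set W := ((Matrix.of fun (b : Fin (k + 1)) (j : Fin (N + 1)) => lin x v (L.coef b j)) *
    Um w).det
  calc lin x v L.dt ^ (k + 1) * (sgq x v w G * lin x v L.dt)
      = (lin x v L.dt ^ (k + 1) * sgq x v w G) * lin x v L.dt := by ring
    _ = dBq x v L.B G * (lin x v L.dt * W) := by rw [h1]; ring
    _ = lin x v L.dt ^ (k + 1) * (dBq x v L.B G * sgq x v w L.F) := by rw [← h2]; ring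

/-- a tuple with determinant `1` -/
theorem exists_tuple {I : Ideal (Sx N)} {k : ℕ} (hCN : S_CN) (hS : Smooth I (k + 1)) {y : Vx N}
    (hy : y ∈ zer I) (hy0 : y ≠ 0) (u : Fin k → Vx N) (hT : Trv I u y) :
    ∃ (G : Fin (k + 1) → Sx N) (l : Fin (N + 1)), (∀ i, G i ∈ I) ∧
      (Matrix.of fun i j : Fin (k + 1) => dp (grad (G i) y)
        ((Fin.snoc (α := fun _ => Vx N) u (Pi.single l 1) : Fin (k + 1) → Vx N) j)).det = 1 := by
  obtain ⟨hfr, hmem, hex⟩ := hCN N (k + 1) I hS y hy hy0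
  have hadd : ∀ (a φ ψ : Vx N), dp (φ + ψ) a = dp φ a + dp ψ a := by
    intro a φ ψ
    unfold dp
    rw [← Finset.sum_add_distrib]
    exact Finset.sum_congr rfl fun i _ => by rw [Pi.add_apply, add_mul]
  have hsm : ∀ (a φ : Vx N) (c : ℂ), dp (c • φ) a = c * dp φ a := by
    intro a φ c
    unfold dp
    rw [Finset.mul_sum]
    exact Finset.sum_congr rfl fun i _ => by rw [Pi.smul_apply, smul_eq_mul, mul_assoc]
  let ev : ∀ {m : ℕ}, (Fin m → Vx N) → (CN I y →ₗ[ℂ] (Fin m → ℂ)) := fun {m} w =>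
    { toFun := fun φ j => dp φ.1 (w j)
      map_add' := fun φ ψ => by
        funext j
        exact hadd _ _ _
      map_smul' := fun c φ => by
        funext j
        exact hsm _ _ _ }
  -- the kernel vector
  have hker : LinearMap.ker (ev u) ≠ ⊥ := by
    refine LinearMap.ker_ne_bot_of_finrank_lt ?_
    rw [hfr, Module.finrank_fin_fun]
    omega
  obtain ⟨κ, hκ, hκ0⟩ := Submodule.exists_mem_ne_zero_of_ne_bot hker
  have hκu : ∀ j, dp κ.1 (u j) = 0 := fun j => congrFun (LinearMap.mem_ker.mp hκ) j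
  obtain ⟨l, hl⟩ : ∃ l, κ.1 l ≠ 0 := by
    by_contra h
    push Not at h
    exact hκ0 (Subtype.ext (funext h))
  set w : Fin (k + 1) → Vx N := Fin.snoc (α := fun _ => Vx N) u (Pi.single l 1) with hw
  have hwl : w (Fin.last k) = Pi.single l 1 := by rw [hw, Fin.snoc_last]
  have hwc : ∀ j : Fin k, w j.castSucc = u j := fun j => by rw [hw, Fin.snoc_castSucc]
  have hsur : LinearMap.range (ev w) = ⊤ := by
    by_contra hne
    obtain ⟨f, hf0, hf⟩ := Submodule.exists_le_ker_of_lt_top _ (lt_top_iff_ne_top.mpr hne)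
    have hfs : ∀ z : Fin (k + 1) → ℂ, f z = ∑ i, z i * f (Pi.single i 1) := by
      intro z
      conv_lhs => rw [← Finset.univ_sum_single z]
      rw [map_sum]
      refine Finset.sum_congr rfl fun i _ => ?_
      have : (Pi.single i (z i) : Fin (k + 1) → ℂ) = z i • Pi.single i 1 := by
        rw [← Pi.single_smul, smul_eq_mul, mul_one]
      rw [this, map_smul, smul_eq_mul]
    have hφ : ∀ φ : CN I y, ∑ i, dp φ.1 (w i) * f (Pi.single i 1) = 0 := by
      intro φ
      rw [← hfs fun i => dp φ.1 (w i)]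
      exact LinearMap.mem_ker.mp (hf ⟨φ, rfl⟩)
    have hlast : f (Pi.single (Fin.last k) 1) = 0 := by
      have := hφ κ
      rw [Fin.sum_univ_castSucc] at this
      simp only [hwc, hκu, hwl, dp_single, zero_mul, Finset.sum_const_zero, zero_add] at this
      exact (mul_eq_zero.mp this).resolve_left hl
    have hTS : ∑ j, (fun j : Fin k => f (Pi.single j.castSucc 1)) j • u j ∈ TS I y := by
      intro F hF
      have h1 := hφ ⟨grad F y, hmem F hF⟩
      rw [Fin.sum_univ_castSucc, hlast, mul_zero, add_zero] at h1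
      simp only [hwc] at h1
      have e : dp (grad F y) (∑ j, (fun j : Fin k => f (Pi.single j.castSucc 1)) j • u j) =
          ∑ j : Fin k, dp (grad F y) (u j) * f (Pi.single j.castSucc 1) := by
        unfold dp
        simp only [Finset.sum_apply, Pi.smul_apply, smul_eq_mul, Finset.mul_sum, Finset.sum_mul]
        rw [Finset.sum_comm]
        exact Finset.sum_congr rfl fun j _ => Finset.sum_congr rfl fun i _ => by ring
      rw [e, h1]
    have h0 := hT _ hTS
    refine hf0 ?_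
    ext i
    refine Fin.lastCases ?_ (fun j => ?_) i
    · simpa using hlast
    · have := congrFun h0 j
      simpa using this
  have hch : ∀ i : Fin (k + 1), ∃ G ∈ I, ∀ j, dp (grad G y) (w j) =
      (Pi.single i 1 : Fin (k + 1) → ℂ) j := by
    intro i
    obtain ⟨φ, hφ⟩ := LinearMap.range_eq_top.mp hsur (Pi.single i 1)
    obtain ⟨G, hG, hGe⟩ := hex φ.1 φ.2
    refine ⟨G, hG, fun j => ?_⟩
    rw [← hGe]
    exact congrFun hφ j
  choose G hG hGw using hch
  refine ⟨G, l, hG, ?_⟩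
  have : (Matrix.of fun i j : Fin (k + 1) => dp (grad (G i) y) (w j)) = 1 := by
    ext i j
    rw [Matrix.of_apply, hGw, Matrix.one_apply, Pi.single_apply]
    by_cases h : i = j
    · rw [if_pos h, if_pos h.symm]
    · rw [if_neg h, if_neg (Ne.symm h)]
  rw [this, Matrix.det_one]

end QbAux

open QbAux in
theorem tQb : S_CN → S_Perp → S_Cr → S_CrL → S_Hom → S_JFit → S_JPid → S_Qb := by
  intro hCN _ _ hCrL hHom hFit hPid N k I hI hIh hS x v hl L hgood u hu δ p q hp hpd hpq _
  obtain ⟨hD, _, hCr, _⟩ := hCrL N (k + 1) I x v x 0 L (by simp) hl.2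
  have hHm := hHom N (k + 1) I x v L
  have hdeg : (lin x v L.dt).natDegree = L.dg := hHm.2.2.2.2.2.2 hgood
  set D := lin x v L.dt with hDdef
  set 𝒢 : Set (Fin (k + 1) → Polynomial ℂ) :=
    {e | ∃ F ∈ I, e = fun b => lin x v (pderiv (L.B b) F)} with h𝒢
  have hE : L.E v = Submodule.span (Polynomial ℂ) 𝒢 := rfl
  -- `D ℂ[t]^(k+1) ≤ E`
  have hDE : ∀ e : Fin (k + 1) → Polynomial ℂ,
      (fun b => D * e b) ∈ Submodule.span (Polynomial ℂ) 𝒢 := by
    intro e
    set M : Matrix (Fin (k + 1)) (Fin (k + 1)) (Polynomial ℂ) :=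
      Matrix.of fun i b => lin x v (pderiv (L.B b) (L.F i)) with hM
    have hMd : M.det = D := dB_F (v := v) L
    have h1 : (fun b => D * e b) = ∑ i, (Matrix.vecMul e M.adjugate i) • M i := by
      have h2 : Matrix.vecMul (Matrix.vecMul e M.adjugate) M = fun b => D * e b := by
        rw [Matrix.vecMul_vecMul, Matrix.adjugate_mul, hMd, Matrix.vecMul_smul, Matrix.vecMul_one]
        rfl
      rw [← h2]
      funext b
      simp only [Matrix.vecMul, dotProduct, Finset.sum_apply, Pi.smul_apply, smul_eq_mul]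
    rw [h1]
    exact Submodule.sum_mem _ fun i _ => Submodule.smul_mem _ _
      (Submodule.subset_span ⟨L.F i, L.memF i, rfl⟩)
  obtain ⟨_, hfr⟩ := hFit (k + 1) 𝒢 D hD hDE
  set A : Ideal (Polynomial ℂ) := Ideal.span {p | ∃ e : Fin (k + 1) → (Fin (k + 1) → Polynomial ℂ),
    (∀ i, e i ∈ 𝒢) ∧ p = Matrix.det (Matrix.of e)} with hA
  -- the unit ideal
  set Sg : Ideal (Polynomial ℂ) := Ideal.span {s | ∃ G : Fin (k + 1) → Sx N, (∀ i, G i ∈ I) ∧
    ∃ l : Fin (N + 1), s = sgq x v (Fin.snoc (α := fun _ => Vx N) u (Pi.single l 1) :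
      Fin (k + 1) → Vx N) G} with hSg
  have hone : (1 : Polynomial ℂ) ∈ Sg := by
    rw [← Ideal.eq_top_iff_one]
    by_contra hne
    have hpt : ∃ t : ℂ, ∀ s ∈ Sg, s.eval t = 0 := by
      by_cases hbot : Sg = ⊥
      · refine ⟨0, fun s hs => ?_⟩
        rw [hbot, Ideal.mem_bot] at hs
        rw [hs, Polynomial.eval_zero]
      · obtain ⟨w, _, hw, _⟩ := hPid Sg hbot
        have hwu : ¬ IsUnit w := by
          intro h
          exact hne (by rw [hw]; exact Ideal.span_singleton_eq_top.mpr h)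
        have hw0 : w ≠ 0 := by
          intro h
          rw [hw, h] at hbot
          exact hbot (by simp)
        have hdw : w.degree ≠ 0 := fun h => hwu (Polynomial.isUnit_iff_degree_eq_zero.mpr h)
        obtain ⟨t, ht⟩ := IsAlgClosed.exists_root w hdw
        refine ⟨t, fun s hs => ?_⟩
        rw [hw, Ideal.mem_span_singleton] at hs
        obtain ⟨c, rfl⟩ := hs
        rw [Polynomial.eval_mul, ht, zero_mul]
    obtain ⟨t, ht⟩ := hpt
    have hT : Trv I u (x + t • v) := by
      have := hu 1 t (Or.inl one_ne_zero)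
      rwa [one_smul] at this
    obtain ⟨G, l, hG, hdet⟩ := exists_tuple hCN hS (mem_zer_line hl t) (line_ne_zero' hl t) u hT
    have := ht _ (Ideal.subset_span ⟨G, hG, l, rfl⟩)
    rw [eval_sg, hdet] at this
    exact one_ne_zero this
  -- `s D ∈ p A`
  have hkey : ∀ s ∈ Sg, ∃ a ∈ A, s * D = p * a := by
    intro s hs
    refine Submodule.span_induction (p := fun s _ => ∃ a ∈ A, s * D = p * a) ?_ ?_ ?_ ?_ hs
    · rintro s ⟨G, hG, l, rfl⟩
      refine ⟨q l * dBq x v L.B G, ?_, ?_⟩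
      · refine Ideal.mul_mem_left _ _ (Ideal.subset_span ?_)
        exact ⟨fun i b => lin x v (pderiv (L.B b) (G i)), fun i => ⟨G i, hG i, rfl⟩, rfl⟩
      · rw [idn L hD hCr _ hG, ← lin_sV, hpq l]
        ring
    · exact ⟨0, Submodule.zero_mem _, by simp⟩
    · rintro s s' _ _ ⟨a, ha, h⟩ ⟨a', ha', h'⟩
      exact ⟨a + a', Submodule.add_mem _ ha ha', by rw [add_mul, h, h', mul_add]⟩
    · rintro c s _ ⟨a, ha, h⟩
      exact ⟨c * a, Ideal.mul_mem_left _ _ ha, by rw [smul_eq_mul, mul_assoc, h]; ring⟩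
  obtain ⟨a, haA, ha⟩ := hkey 1 hone
  rw [one_mul] at ha
  have ha0 : a ≠ 0 := by
    rintro rfl
    exact hD (by rw [ha, mul_zero])
  have hda : a.natDegree = δ := by
    have := congrArg Polynomial.natDegree ha
    rw [Polynomial.natDegree_mul hp ha0, hdeg] at this
    omega
  have hAb : A ≠ ⊥ := by
    intro h
    rw [h, Ideal.mem_bot] at haA
    exact ha0 haA
  obtain ⟨w, _, hw, hwd⟩ := hPid A hAb
  rw [hE, hfr, hwd]
  have hdvd : w ∣ a := by
    rw [← Ideal.mem_span_singleton, ← hw]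
    exact haA
  exact le_trans (Polynomial.natDegree_le_of_dvd hdvd ha0) (le_of_eq hda)

end Pool.Agent.Lib.MP_776403_ag.SD.LI
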