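import Pool.Agent.Lib.MP_776403_ag.SD.LI.Spec

/-!
# LEMMA I, module Us: general directions along a line
-/

set_option autoImplicit false

open MvPolynomial

noncomputable section

namespace Pool.Agent.Lib.MP_776403_ag.SD.LI

variable {N : ℕ}

namespace UsAux

theorem eval_lf (a z : Vx N) : eval z (lf a) = ∑ i, a i * z i := by
  simp only [lf, map_sum, map_mul, eval_C, eval_X]

/-- A proper subspace is contained in the zero set of a linear form. -/
theorem exists_lf (W : Submodule ℂ (Vx N)) (h : Module.finrank ℂ W < N + 1) :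
    ∃ a : Vx N, lf a ≠ 0 ∧ ∀ z ∈ W, eval z (lf a) = 0 := by
  have hlt : W < ⊤ := by
    refine lt_top_iff_ne_top.2 fun e => ?_
    rw [e, finrank_top, Module.finrank_fin_fun] at h
    exact lt_irrefl _ h
  obtain ⟨f, hf, hW⟩ := W.exists_le_ker_of_lt_top hlt
  have hfz : ∀ z : Vx N, f z = eval z (lf fun i => f fun j => if i = j then 1 else 0) := by
    intro z
    rw [eval_lf, LinearMap.pi_apply_eq_sum_univ f z]
    exact Finset.sum_congr rfl fun i _ => by rw [smul_eq_mul, mul_comm]
  refine ⟨fun i => f fun j => if i = j then 1 else 0,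
    fun h0 => hf (LinearMap.ext fun z => ?_), fun z hz => ?_⟩
  · rw [hfz z, h0, map_zero, LinearMap.zero_apply]
  · rw [← hfz z]
    exact LinearMap.mem_ker.1 (hW hz)

theorem exists_pt (P : Sx N) (h : P ≠ 0) : ∃ u : Vx N, eval u P ≠ 0 := by
  by_contra hc
  push Not at hc
  exact h (MvPolynomial.funext fun u => by rw [hc u, map_zero])

/-- Too many polynomials are algebraically dependent. -/
theorem dep {σ : Type} [Fintype σ] (hσ : Fintype.card σ ≤ N)
    (Ψ : Fin (N + 1) → MvPolynomial σ ℂ) : ∃ R : Sx N, R ≠ 0 ∧ aeval Ψ R = 0 := by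
  by_contra hc
  push Not at hc
  have hai : AlgebraicIndependent ℂ Ψ := by
    refine (injective_iff_map_eq_zero _).2 fun R hR => ?_
    by_contra hne
    exact hc R hne hR
  have h1 := hai.cardinalMk_le_trdeg
  rw [MvPolynomial.trdeg_of_isDomain, Cardinal.mk_fintype, Cardinal.mk_fintype,
    Cardinal.lift_natCast, Nat.cast_le, Fintype.card_fin] at h1
  omega

/-- One more direction. -/
theorem snoc {j : ℕ} (I : Ideal (Sx N)) (u : Fin j → Vx N) (w z : Vx N) (hu : Trv I u z)
    (hw : w ∉ TS I z ⊔ Submodule.span ℂ (Set.range u)) :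
    Trv I (Fin.snoc (α := fun _ => Vx N) u w : Fin (j + 1) → Vx N) z := by
  intro a ha
  rw [Fin.sum_univ_castSucc] at ha
  simp only [Fin.snoc_castSucc, Fin.snoc_last] at ha
  have h0 : a (Fin.last j) = 0 := by
    by_contra hne
    apply hw
    have e : w = (a (Fin.last j))⁻¹ • (∑ i : Fin j, a i.castSucc • u i + a (Fin.last j) • w) -
        (a (Fin.last j))⁻¹ • ∑ i : Fin j, a i.castSucc • u i := by
      rw [smul_add, smul_smul (a (Fin.last j))⁻¹ (a (Fin.last j)) w, inv_mul_cancel₀ hne, one_smul,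
        add_sub_cancel_left]
    rw [e]
    exact Submodule.sub_mem _ (Submodule.smul_mem _ _ (Submodule.mem_sup_left ha))
      (Submodule.smul_mem _ _ (Submodule.mem_sup_right (Submodule.sum_mem _ fun i _ =>
        Submodule.smul_mem _ _ (Submodule.subset_span ⟨i, rfl⟩))))
  rw [h0, zero_smul, add_zero] at ha
  have h1 := hu _ ha
  funext i
  refine Fin.lastCases h0 (fun i => congrFun h1 i) i

theorem card_Bc {I : Ideal (Sx N)} {x : Vx N} {c : ℕ} (L : Loc I x c) :
    Fintype.card L.Bc + c ≤ N + 1 := by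
  have hinj : Function.Injective (Sum.elim (Subtype.val : L.Bc → Fin (N + 1)) L.B) := by
    refine Function.Injective.sumElim Subtype.val_injective L.injB fun a b e => ?_
    exact a.2 ⟨b, e.symm⟩
  have h := Fintype.card_le_of_injective _ hinj
  rwa [Fintype.card_sum, Fintype.card_fin, Fintype.card_fin] at h

/-- The condition on the new direction at the general points of the line. -/
theorem gen (hTS : S_TS) (hCr : S_Cr) {k : ℕ} {I : Ideal (Sx N)} (hp : I.IsPrime) (hI : IsHom I)
    (hS : Smooth I (k + 1)) {x v : Vx N} (hz : ∀ t : ℂ, x + t • v ∈ zer I ∧ x + t • v ≠ 0)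
    (L : Loc I x (k + 1)) {j : ℕ} (hj : j < k) (u : Fin j → Vx N) :
    ∃ R : Sx N, R ≠ 0 ∧ ∀ w : Vx N, eval w R ≠ 0 → ∀ t : ℂ, eval (x + t • v) L.dt ≠ 0 →
      w ∉ TS I (x + t • v) ⊔ Submodule.span ℂ (Set.range u) := by
  have hcard : Fintype.card (Option (L.Bc ⊕ Fin j)) ≤ N := by
    have h := card_Bc L
    rw [Fintype.card_option, Fintype.card_sum, Fintype.card_fin]
    omega
  obtain ⟨R, hR, hR0⟩ := dep hcard (fun i : Fin (N + 1) =>
    ∑ b : L.Bc, X (some (Sum.inl b)) *
      aeval (fun l => C (x l) + C (v l) * X none : Fin (N + 1) →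
        MvPolynomial (Option (L.Bc ⊕ Fin j)) ℂ) (L.cr b.1 i) +
    ∑ l : Fin j, X (some (Sum.inr l)) * C (u l i))
  refine ⟨R, hR, fun w hw t ht hmem => hw ?_⟩
  obtain ⟨τ, hτ, z, hzs, hw'⟩ := Submodule.mem_sup.1 hmem
  obtain ⟨B, hB⟩ := (Submodule.mem_span_range_iff_exists_fun ℂ).1 hzs
  obtain ⟨hy, hy0⟩ := hz t
  obtain ⟨-, -, h3, -, -⟩ := hTS N (k + 1) I hp hI hS _ hy hy0
  obtain ⟨g, hg, hgτ⟩ := h3 τ hτ
  have hc := (hCr N (k + 1) I hp hI hS x L).2 g hg
  have hA : ∀ i, τ i = ∑ b : L.Bc, (τ b.1 / eval (x + t • v) L.dt) *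
      eval (x + t • v) (L.cr b.1 i) := by
    intro i
    have h := hy _ (hc i)
    rw [map_sub, map_mul, map_sum, hgτ, sub_eq_zero] at h
    rw [← mul_right_inj' ht, h, Finset.mul_sum]
    refine Finset.sum_congr rfl fun b _ => ?_
    rw [map_mul, hgτ]
    field_simp
  set pt : Option (L.Bc ⊕ Fin j) → ℂ := fun o => o.elim t
    (Sum.elim (fun b => τ b.1 / eval (x + t • v) L.dt) B) with hpt
  have h1 := congrArg (eval pt) hR0
  rw [map_zero] at h1
  have h2 : ∀ P : Sx N, eval pt (aeval (fun l => C (x l) + C (v l) * X none : Fin (N + 1) →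
        MvPolynomial (Option (L.Bc ⊕ Fin j)) ℂ) P) = eval (x + t • v) P := by
    intro P
    induction P using MvPolynomial.induction_on with
    | C a => simp
    | add p q hp hq => rw [map_add, map_add, map_add, hp, hq]
    | mul_X p i hp =>
      rw [map_mul, map_mul, map_mul, hp, aeval_X, eval_X, map_add, map_mul, eval_C, eval_C, eval_X]
      simp only [hpt, Option.elim_none, Pi.add_apply, Pi.smul_apply, smul_eq_mul]
      ring
  have h3 : ∀ (Ψ : Fin (N + 1) → MvPolynomial (Option (L.Bc ⊕ Fin j)) ℂ) (P : Sx N),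
      eval pt (aeval Ψ P) = eval (fun i => eval pt (Ψ i)) P := by
    intro Ψ P
    induction P using MvPolynomial.induction_on with
    | C a => simp
    | add p q hp hq => rw [map_add, map_add, map_add, hp, hq]
    | mul_X p i hp => rw [map_mul, map_mul, map_mul, hp, aeval_X, eval_X]
  rw [h3] at h1
  rw [← h1]
  congr 1
  congr 1
  funext i
  rw [← hw', Pi.add_apply, hA i, ← hB, Finset.sum_apply, map_add, map_sum, map_sum]
  congr 1
  · refine Finset.sum_congr rfl fun b _ => ?_
    rw [map_mul, h2, eval_X, hpt]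
    rfl
  · refine Finset.sum_congr rfl fun b _ => ?_
    rw [map_mul, eval_C, eval_X, hpt]
    rfl

/-- The induction. -/
theorem main (hTS : S_TS) (hLoc : S_Loc) (hCr : S_Cr) {k : ℕ} {I : Ideal (Sx N)} (hp : I.IsPrime)
    (hI : IsHom I) (hS : Smooth I (k + 1)) {x v : Vx N} (hl : IsLine I x v) (j : ℕ) (hj : j ≤ k) :
    ∃ u : Fin j → Vx N, ∀ s t : ℂ, (s ≠ 0 ∨ t ≠ 0) → Trv I u (s • x + t • v) := by
  classical
  have hne : ∀ s t : ℂ, (s ≠ 0 ∨ t ≠ 0) → s • x + t • v ≠ 0 := by
    intro s t hst h0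
    have h := LinearIndependent.pair_iff.1 hl.1 s t h0
    rcases hst with h' | h'
    · exact h' h.1
    · exact h' h.2
  have hz : ∀ t : ℂ, x + t • v ∈ zer I ∧ x + t • v ≠ 0 := by
    intro t
    have h1 := hl.2 1 t
    have h2 := hne 1 t (Or.inl one_ne_zero)
    rw [one_smul] at h1 h2
    exact ⟨h1, h2⟩
  have hv : v ∈ zer I ∧ v ≠ 0 := by
    have h1 := hl.2 0 1
    have h2 := hne 0 1 (Or.inr one_ne_zero)
    rw [zero_smul, one_smul, zero_add] at h1 h2
    exact ⟨h1, h2⟩
  have hx : x ∈ zer I ∧ x ≠ 0 := by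
    have h := hz 0
    rwa [zero_smul, add_zero] at h
  -- it is enough to consider the points `x + t v` and `v`
  have hred : ∀ (m : ℕ) (u : Fin m → Vx N), (∀ t : ℂ, Trv I u (x + t • v)) → Trv I u v →
      ∀ s t : ℂ, (s ≠ 0 ∨ t ≠ 0) → Trv I u (s • x + t • v) := by
    intro m u h1 h2 s t hst
    by_cases hs : s = 0
    · have ht : t ≠ 0 := by
        rcases hst with h | h
        · exact absurd hs h
        · exact h
      obtain ⟨-, -, -, h4, -⟩ := hTS N (k + 1) I hp hI hS v hv.1 hv.2
      intro a ha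
      rw [hs, zero_smul, zero_add, h4 t ht] at ha
      exact h2 a ha
    · obtain ⟨hy, hy0⟩ := hz (t / s)
      obtain ⟨-, -, -, h4, -⟩ := hTS N (k + 1) I hp hI hS _ hy hy0
      have e : s • x + t • v = s • (x + (t / s) • v) := by
        rw [smul_add, smul_smul, mul_div_cancel₀ _ hs]
      intro a ha
      rw [e, h4 s hs] at ha
      exact h1 _ a ha
  induction j with
  | zero =>
    refine ⟨Fin.elim0, fun s t _ a _ => ?_⟩
    exact Subsingleton.elim _ _
  | succ j ih =>
    obtain ⟨u, hu⟩ := ih (by omega)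
    obtain ⟨L⟩ := hLoc N (k + 1) I hS x hx.1 hx.2
    obtain ⟨R, hR, hRw⟩ := gen hTS hCr hp hI hS hz L (by omega : j < k) u
    -- the linear forms for the special points
    have hsp : ∀ y : Vx N, y ∈ zer I → y ≠ 0 → ∃ a : Vx N, lf a ≠ 0 ∧
        ∀ z ∈ TS I y ⊔ Submodule.span ℂ (Set.range u), eval z (lf a) = 0 := by
      intro y hy hy0
      obtain ⟨h1, -, -, -, -⟩ := hTS N (k + 1) I hp hI hS y hy hy0
      refine exists_lf _ ?_
      have h2 := Submodule.finrank_add_le_finrank_add_finrank (TS I y)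
        (Submodule.span ℂ (Set.range u))
      have h3 := finrank_range_le_card (R := ℂ) u
      rw [Set.finrank, Fintype.card_fin] at h3
      omega
    choose a ha ha' using fun t : ℂ => hsp (x + t • v) (hz t).1 (hz t).2
    obtain ⟨av, hav, hav'⟩ := hsp v hv.1 hv.2
    have hev : ∀ t : ℂ, (lin x v L.dt).eval t = eval (x + t • v) L.dt := by
      intro t
      rw [lin, ← Polynomial.coe_evalRingHom, ← AlgHom.coe_toRingHom]
      rw [← RingHom.comp_apply]
      have : (Polynomial.evalRingHom t).comp (aeval fun i =>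
          Polynomial.C (x i) + Polynomial.C (v i) * Polynomial.X :
          Sx N →ₐ[ℂ] Polynomial ℂ).toRingHom = eval (x + t • v) := by
        refine MvPolynomial.ringHom_ext (fun r => ?_) fun i => ?_
        · simp
        · simp only [AlgHom.toRingHom_eq_coe, RingHom.coe_comp, RingHom.coe_coe, Function.comp_apply,
            aeval_X, Polynomial.coe_evalRingHom, Polynomial.eval_add, Polynomial.eval_C,
            Polynomial.eval_mul, Polynomial.eval_X, eval_X, Pi.add_apply, Pi.smul_apply, smul_eq_mul]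
          ring
      exact congrFun (congrArg DFunLike.coe this) L.dt
    have hlin : lin x v L.dt ≠ 0 := by
      intro h0
      apply L.detx
      have h := hev 0
      rw [h0, Polynomial.eval_zero, zero_smul, add_zero] at h
      exact h.symm
    obtain ⟨w, hw⟩ := exists_pt (R * lf av * ∏ t ∈ (lin x v L.dt).roots.toFinset, lf (a t))
      (mul_ne_zero (mul_ne_zero hR hav) (Finset.prod_ne_zero_iff.2 fun t _ => ha t))
    rw [map_mul, map_mul, map_prod] at hw
    have hw1 : eval w R ≠ 0 := fun h => hw (by rw [h, zero_mul, zero_mul])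
    have hw2 : eval w (lf av) ≠ 0 := fun h => hw (by rw [h, mul_zero, zero_mul])
    have hw3 : ∀ t ∈ (lin x v L.dt).roots.toFinset, eval w (lf (a t)) ≠ 0 := fun t ht h =>
      hw (by rw [Finset.prod_eq_zero ht h, mul_zero])
    refine ⟨Fin.snoc (α := fun _ => Vx N) u w, hred _ _ (fun t => ?_) ?_⟩
    · refine snoc I u w _ ?_ ?_
      · have h := hu 1 t (Or.inl one_ne_zero)
        rwa [one_smul] at h
      · by_cases hD : eval (x + t • v) L.dt = 0
        · intro hmem
          refine hw3 t ?_ (ha' t w hmem)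
          rw [Multiset.mem_toFinset, Polynomial.mem_roots hlin, Polynomial.IsRoot, hev, hD]
        · exact hRw w hw1 t hD
    · refine snoc I u w _ ?_ fun hmem => hw2 (hav' w hmem)
      have h := hu 0 1 (Or.inr one_ne_zero)
      rwa [zero_smul, one_smul, zero_add] at h

end UsAux

theorem tUs : S_TS → S_Loc → S_Cr → S_TB → S_Us :=
  fun hTS hLoc hCr _ _ k _ hp hI hS _ _ hl => UsAux.main hTS hLoc hCr hp hI hS hl k le_rfl

end Pool.Agent.Lib.MP_776403_ag.SD.LI
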