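import Pool.Agent.Lib.MP_776403_ag.SD.LI.Spec

/-!
# LEMMA I: general points (Zs)
-/

set_option autoImplicit false

open MvPolynomial

noncomputable section

namespace Pool.Agent.Lib.MP_776403_ag.SD.LI

namespace ZsAux

variable {N k : ℕ}

/-- `x`, `v` and the `z l`, `l ∈ A`, are independent modulo the tangent space at `y`. -/
def QA (I : Ideal (Sx N)) (x v : Vx N) (z : Fin k → Vx N) (A : Finset (Fin k)) (y : Vx N) :
    Prop :=
  ∀ (a b : ℂ) (γ : Fin k → ℂ), (∀ l, l ∉ A → γ l = 0) →
    a • x + b • v + ∑ l, γ l • z l ∈ TS I y → a = 0 ∧ b = 0 ∧ γ = 0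

/-- The family of `x`, `v` and the `z l`, `l ∈ A`. -/
def fam (x v : Vx N) (z : Fin k → Vx N) (A : Finset (Fin k)) : Fin 2 ⊕ A → Vx N :=
  Sum.elim ![x, v] fun l => z l

/-- Extension by zero. -/
def ez (A : Finset (Fin k)) (a : A → ℂ) (l : Fin k) : ℂ := if h : l ∈ A then a ⟨l, h⟩ else 0

theorem sum_ez (z : Fin k → Vx N) (A : Finset (Fin k)) (a : A → ℂ) :
    ∑ l : A, a l • z l = ∑ l, ez A a l • z l := by
  have h1 : ∑ l, ez A a l • z l = ∑ l ∈ A, ez A a l • z l := by
    refine (Finset.sum_subset (Finset.subset_univ A) fun l _ hl => ?_).symm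
    simp [ez, hl]
  rw [h1, ← Finset.sum_coe_sort A fun l => ez A a l • z l]
  refine Finset.sum_congr rfl fun l _ => ?_
  simp [ez]

theorem sum_fam (x v : Vx N) (z : Fin k → Vx N) (A : Finset (Fin k)) (a : Fin 2 ⊕ A → ℂ) :
    ∑ j, a j • fam x v z A j = a (Sum.inl 0) • x + a (Sum.inl 1) • v +
      ∑ l, ez A (fun l => a (Sum.inr l)) l • z l := by
  rw [Fintype.sum_sum_type, Fin.sum_univ_two, ← sum_ez]
  rfl

theorem trv_of {I : Ideal (Sx N)} {x v y : Vx N} {z : Fin k → Vx N} {A : Finset (Fin k)}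
    (h : QA I x v z A y) : Trv I (fam x v z A) y := by
  intro a ha
  rw [sum_fam] at ha
  obtain ⟨h1, h2, h3⟩ := h _ _ _ (fun l hl => by simp [ez, hl]) ha
  funext o
  rcases o with i | l
  · fin_cases i
    · exact h1
    · exact h2
  · have h4 := congrFun h3 l
    simpa [ez] using h4

theorem of_trv {I : Ideal (Sx N)} {x v y : Vx N} {z : Fin k → Vx N} {A : Finset (Fin k)}
    (h : Trv I (fam x v z A) y) : QA I x v z A y := by
  intro a b γ hγ hm
  have e : ez A (fun l : A => γ l) = γ := by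
    funext l
    by_cases hl : l ∈ A
    · simp [ez, hl]
    · simp [ez, hl, hγ l hl]
  have h1 := h (Sum.elim ![a, b] fun l : A => γ l) (by
    rw [sum_fam]
    simp only [Sum.elim_inl, Sum.elim_inr, Matrix.cons_val_zero, Matrix.cons_val_one, e]
    exact hm)
  refine ⟨congrFun h1 (Sum.inl 0), congrFun h1 (Sum.inl 1), ?_⟩
  funext l
  by_cases hl : l ∈ A
  · exact congrFun h1 (Sum.inr ⟨l, hl⟩)
  · exact hγ l hl

theorem of_opt {I : Ideal (Sx N)} {x v y w' : Vx N} {z : Fin k → Vx N} {A : Finset (Fin k)}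
    {m : Fin k} (hm : m ∉ A)
    (h : Trv I (fun o : Option (Fin 2 ⊕ A) => o.elim w' (fam x v z A)) y) :
    QA I x v (Function.update z m w') (insert m A) y := by
  intro a b γ hγ hmem
  have e1 : ∑ l, γ l • Function.update z m w' l =
      γ m • w' + ∑ l ∈ Finset.univ.erase m, γ l • z l := by
    rw [← Finset.add_sum_erase _ _ (Finset.mem_univ m), Function.update_self]
    congr 1
    refine Finset.sum_congr rfl fun l hl => ?_
    rw [Function.update_of_ne (Finset.ne_of_mem_erase hl)]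
  have e2 : ∑ l, ez A (fun l : A => γ l) l • z l = ∑ l ∈ Finset.univ.erase m, γ l • z l := by
    rw [← Finset.add_sum_erase _ _ (Finset.mem_univ m)]
    have h0 : ez A (fun l : A => γ l) m = 0 := by simp [ez, hm]
    rw [h0, zero_smul, zero_add]
    refine Finset.sum_congr rfl fun l hl => ?_
    by_cases hA : l ∈ A
    · simp [ez, hA]
    · have h2 : γ l = 0 := hγ l (by
        rw [Finset.mem_insert]
        rintro (h3 | h3)
        · exact Finset.ne_of_mem_erase hl h3
        · exact hA h3)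
      simp [ez, hA, h2]
  have h1 := h (fun o => o.elim (γ m) (Sum.elim ![a, b] fun l : A => γ l)) (by
    rw [Fintype.sum_option]
    simp only [Option.elim]
    rw [sum_fam]
    simp only [Sum.elim_inl, Sum.elim_inr, Matrix.cons_val_zero, Matrix.cons_val_one, e2]
    rw [e1] at hmem
    have e3 : γ m • w' + (a • x + b • v + ∑ l ∈ Finset.univ.erase m, γ l • z l) =
        a • x + b • v + (γ m • w' + ∑ l ∈ Finset.univ.erase m, γ l • z l) := by abel
    rw [e3]
    exact hmem)
  refine ⟨congrFun h1 (some (Sum.inl 0)), congrFun h1 (some (Sum.inl 1)), ?_⟩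
  funext l
  by_cases hlm : l = m
  · subst hlm
    exact congrFun h1 none
  · by_cases hl : l ∈ A
    · exact congrFun h1 (some (Sum.inr ⟨l, hl⟩))
    · exact hγ l (by simp [hlm, hl])

/-- Only the vectors in `A` count. -/
theorem QA.congr {I : Ideal (Sx N)} {x v y : Vx N} {z z' : Fin k → Vx N} {A : Finset (Fin k)}
    (h : QA I x v z A y) (hz : ∀ l ∈ A, z' l = z l) : QA I x v z' A y := by
  intro a b γ hγ hm
  refine h a b γ hγ ?_
  have e : ∑ l, γ l • z l = ∑ l, γ l • z' l := by
    refine Finset.sum_congr rfl fun l _ => ?_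
    by_cases hl : l ∈ A
    · rw [hz l hl]
    · rw [hγ l hl, zero_smul, zero_smul]
  rw [e]
  exact hm

theorem ext' (hExt : S_Ext) {I : Ideal (Sx N)} {c : ℕ} (hP : I.IsPrime) (hH : IsHom I)
    (hS : Smooth I c) (hnd : ∀ F ∈ I, F.IsHomogeneous 1 → F = 0) {x v y : Vx N}
    {z : Fin k → Vx N} {A : Finset (Fin k)} (hy : y ∈ zer I) (hy0 : y ≠ 0)
    (h : QA I x v z A y) (hc : A.card + 3 ≤ c) :
    ∃ g : Sx N, g ∉ I ∧ ∀ w', eval w' g ≠ 0 → ∀ m, m ∉ A →
      QA I x v (Function.update z m w') (insert m A) y := by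
  obtain ⟨a, _, h1, h2⟩ := hExt N c I hP hH hS hnd (Fin 2 ⊕ A) (fam x v z A) y hy hy0 (trv_of h)
    (by
      rw [Fintype.card_sum, Fintype.card_fin, Fintype.card_coe]
      omega)
  refine ⟨lf a, h1, fun w' hw m hm => of_opt hm (h2 w' ?_)⟩
  have e : eval w' (lf a) = dp a w' := by
    simp [lf, dp]
  rwa [e] at hw

theorem main (hOpn : S_Opn) (hExt : S_Ext) (hNull : S_Null) {I : Ideal (Sx N)} (hP : I.IsPrime)
    (hH : IsHom I) (hS : Smooth I (k + 1)) (hnd : ∀ F ∈ I, F.IsHomogeneous 1 → F = 0)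
    {x v : Vx N} (hl : IsLine I x v) (h0 : ∃ z₀ ∈ zer I, z₀ ≠ 0 ∧ Trv I ![x, v] z₀)
    (S : Finset (Fin k)) : ∃ z : Fin k → Vx N, (∀ i ∈ S, z i ∈ zer I ∧ z i ≠ 0 ∧
      QA I x v z (S.erase i) (z i)) ∧
      (S ≠ Finset.univ → ∃ z' ∈ zer I, z' ≠ 0 ∧ QA I x v z S z') := by
  classical
  have hx : x ∈ zer I := by
    have := hl.2 1 0
    simpa using this
  have hx0 : x ≠ 0 := hl.1.ne_zero 0
  obtain ⟨l, hl0⟩ : ∃ l, x l ≠ 0 := by
    by_contra hc
    push Not at hc
    exact hx0 (funext hc)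
  have hXl : (X l : Sx N) ∉ I := fun h => hl0 (by
    have := hx _ h
    simpa using this)
  induction S using Finset.induction_on with
  | empty =>
    refine ⟨fun _ => 0, fun i hi => absurd hi (Finset.notMem_empty i), fun _ => ?_⟩
    obtain ⟨z₀, h1, h2, h3⟩ := h0
    refine ⟨z₀, h1, h2, fun a b γ hγ hm => ?_⟩
    have hγ0 : γ = 0 := funext fun l => hγ l (Finset.notMem_empty l)
    have h4 := h3 ![a, b] (by
      rw [Fin.sum_univ_two]
      simpa using hm)
    exact ⟨congrFun h4 0, congrFun h4 1, hγ0⟩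
  | insert m S hm ih =>
    obtain ⟨z, hA, hB⟩ := ih
    have hSu : S ≠ Finset.univ := fun h => hm (h ▸ Finset.mem_univ m)
    obtain ⟨z', hz', hz0, hQ⟩ := hB hSu
    have hcard : S.card + 1 ≤ k := by
      have := Finset.card_le_univ (insert m S)
      rwa [Finset.card_insert_of_notMem hm, Fintype.card_fin] at this
    -- open condition for the new point
    obtain ⟨g₀, hg₀, hg₀'⟩ := hOpn N (k + 1) I hS (Fin 2 ⊕ S) (fam x v z S) z' hz' hz0 (trv_of hQ)
    -- conditions at the old points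
    have hi : ∀ i : S, ∃ g : Sx N, g ∉ I ∧ ∀ w', eval w' g ≠ 0 →
        QA I x v (Function.update z m w') (insert m (S.erase i)) (z i) := by
      intro i
      obtain ⟨h1, h2, h3⟩ := hA i i.2
      have h4 : 0 < S.card := Finset.card_pos.2 ⟨i, i.2⟩
      obtain ⟨g, hg, hg'⟩ := ext' hExt hP hH hS hnd h1 h2 h3 (by
        rw [Finset.card_erase_of_mem i.2]
        omega)
      exact ⟨g, hg, fun w' hw => hg' w' hw m fun h5 => hm (Finset.mem_of_mem_erase h5)⟩
    choose g hg hg' using hi
    -- condition at `z'`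
    obtain ⟨g₁, hg₁, hg₁'⟩ : ∃ g : Sx N, g ∉ I ∧ ∀ w', eval w' g ≠ 0 →
        insert m S ≠ Finset.univ → QA I x v (Function.update z m w') (insert m S) z' := by
      by_cases hu : insert m S = Finset.univ
      · exact ⟨X l, hXl, fun _ _ h => absurd hu h⟩
      · have hlt : (insert m S).card < k := by
          have := Finset.card_lt_univ_of_notMem (s := insert m S)
            (x := (Classical.not_forall.1 fun h => hu (Finset.eq_univ_iff_forall.2 h)).choose)
            (Classical.not_forall.1 fun h => hu (Finset.eq_univ_iff_forall.2 h)).choose_spec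
          rwa [Fintype.card_fin] at this
        rw [Finset.card_insert_of_notMem hm] at hlt
        obtain ⟨g, hg, hg'⟩ := ext' hExt hP hH hS hnd hz' hz0 hQ (by omega)
        exact ⟨g, hg, fun w' hw _ => hg' w' hw m hm⟩
    have hprod : X l * (g₀ * (g₁ * ∏ i, g i)) ∉ I := by
      intro h
      rcases hP.mem_or_mem h with h | h
      · exact hXl h
      rcases hP.mem_or_mem h with h | h
      · exact hg₀ h
      rcases hP.mem_or_mem h with h | h
      · exact hg₁ h
      obtain ⟨i, _, hi⟩ := (hP.prod_mem_iff).1 h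
      exact hg i hi
    obtain ⟨w', hw', hwne⟩ : ∃ w' ∈ zer I, eval w' (X l * (g₀ * (g₁ * ∏ i, g i))) ≠ 0 := by
      by_contra hc
      push Not at hc
      exact hprod ((hNull N I hP hH).1 _ hc)
    rw [map_mul, map_mul, map_mul, map_prod, eval_X] at hwne
    have n1 : w' l ≠ 0 := left_ne_zero_of_mul hwne
    have n2 : eval w' g₀ ≠ 0 := left_ne_zero_of_mul (right_ne_zero_of_mul hwne)
    have n3 : eval w' g₁ ≠ 0 :=
      left_ne_zero_of_mul (right_ne_zero_of_mul (right_ne_zero_of_mul hwne))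
    have n4 : ∀ i, eval w' (g i) ≠ 0 := fun i => Finset.prod_ne_zero_iff.1
      (right_ne_zero_of_mul (right_ne_zero_of_mul (right_ne_zero_of_mul hwne))) i
      (Finset.mem_univ i)
    have hw0 : w' ≠ 0 := fun h => n1 (by rw [h]; rfl)
    refine ⟨Function.update z m w', fun i hi => ?_, fun hu => ⟨z', hz', hz0, hg₁' w' n3 hu⟩⟩
    by_cases him : i = m
    · subst him
      rw [Function.update_self, Finset.erase_insert hm]
      refine ⟨hw', hw0, (of_trv (hg₀' w' hw' n2)).congr fun l' hl' => ?_⟩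
      exact Function.update_of_ne (fun h : l' = i => hm (h ▸ hl')) _ _
    · have hiS : i ∈ S := Finset.mem_of_mem_insert_of_ne hi him
      rw [Function.update_of_ne him]
      refine ⟨(hA i hiS).1, (hA i hiS).2.1, ?_⟩
      have e : (insert m S).erase i = insert m (S.erase i) :=
        Finset.erase_insert_of_ne (Ne.symm him)
      rw [e]
      exact hg' ⟨i, hiS⟩ w' (n4 ⟨i, hiS⟩)

end ZsAux

open ZsAux in
theorem tZs : S_TS → S_Opn → S_Ext → S_Null → S_Zs := by
  intro hTS hOpn hExt hNull N k I hP hH hS hnd _ x v hl h0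
  obtain ⟨z, hA, _⟩ := ZsAux.main hOpn hExt hNull hP hH hS hnd hl h0 Finset.univ
  refine ⟨z, fun i => ⟨(hA i (Finset.mem_univ i)).1, (hA i (Finset.mem_univ i)).2.1⟩, ?_⟩
  intro i a b γ hm
  obtain ⟨h1, h2, h3⟩ := hA i (Finset.mem_univ i)
  have h4 : z i ∈ TS I (z i) := (hTS N (k + 1) I hP hH hS (z i) h1 h2).2.1
  have e : a • x + b • v + ∑ j, (Function.update γ i 0) j • z j =
      (a • x + b • v + ∑ j, γ j • z j) - γ i • z i := by
    have e1 : ∑ j, (Function.update γ i 0) j • z j = ∑ j, γ j • z j - γ i • z i := by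
      rw [← Finset.add_sum_erase _ _ (Finset.mem_univ i),
        ← Finset.add_sum_erase Finset.univ (fun j => γ j • z j) (Finset.mem_univ i),
        Function.update_self, zero_smul, zero_add, add_sub_cancel_left]
      refine Finset.sum_congr rfl fun j hj => ?_
      rw [Function.update_of_ne (Finset.ne_of_mem_erase hj)]
    rw [e1]
    abel
  obtain ⟨h5, h6, h7⟩ := h3 a b (Function.update γ i 0) (fun l hl => by
    have : l = i := by
      by_contra hc
      exact hl (Finset.mem_erase.2 ⟨hc, Finset.mem_univ l⟩)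
    rw [this, Function.update_self]) (by
      rw [e]
      exact (TS I (z i)).sub_mem hm ((TS I (z i)).smul_mem _ h4))
  refine ⟨h5, h6, fun j hj => ?_⟩
  have h8 := congrFun h7 j
  rwa [Function.update_of_ne hj] at h8

end Pool.Agent.Lib.MP_776403_ag.SD.LI
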