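import Pool.Agent.Lib.MP_776403_ag.SD.LI.Spec
import Pool.Agent.Lib.MP_776403_ag.SD.R.CloseD

/-!
# LEMMA ClG: large cones of lines through a dense set of points give large cones through all points
-/

set_option autoImplicit false

open MvPolynomial

noncomputable section

namespace Pool.Agent.Lib.MP_776403_ag.SD.LI

open CloseDAux in
theorem tClG : S_CElim → S_CLin → S_CUp → S_CJn → S_CLp → S_Meet → S_Null → S_LinS → S_LinB →
    S_ClG := by
  intro hElim hCLin hUp hJn hLp hMeet _ hS hB N D I hI hH hl y hy hy0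
  obtain ⟨l, hl0⟩ : ∃ l, y l ≠ 0 := by
    by_contra h
    push Not at h
    exact hy0 (funext h)
  have hbh : IsHom (Ideal.span (Set.range (gen I l y))) := by
    refine span_hom _ ?_
    rintro _ ⟨k, rfl⟩
    exact gen_hom hS I l y k
  by_cases hP0 : ∃ P : Ideal (Sx N), P.IsPrime ∧ IsHom P ∧
      Ideal.span (Set.range (gen I l y)) ≤ P ∧ DimGe P (D + 1)
  · obtain ⟨P0, hp, hh, hle, hdim⟩ := hP0
    have hline : ∀ z ∈ zer P0, ∀ s t : ℂ, s • y + t • z ∈ zer I := by
      intro z hz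
      have hzb : z ∈ zer (Ideal.span (Set.range (gen I l y))) := fun F hF => hz F (hle hF)
      exact line_of_lin hH ((mem_zer_b hS I l y z).mp hzb).2
    have hXl : (X l : Sx N) ∈ P0 :=
      hle (Ideal.subset_span (Set.mem_range_self (f := gen I l y) (Sum.inr ())))
    obtain ⟨k1, k2, k3, k4, k5⟩ := hJn N I P0 hp hh y hline
    exact ⟨H.joinI P0 y, k1, k2, k4, hUp N P0 hp hh y l hl0 hXl (D + 1) hdim, k3, k5⟩
  · exfalso
    have hno : ∀ P : Ideal (Sx N), P.IsPrime → IsHom P →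
        Ideal.span (Set.range (gen I l y)) ≤ P → ¬ DimGe P (D + 1) := by
      intro P h1 h2 h3 h4
      exact hP0 ⟨P, h1, h2, h3, h4⟩
    obtain ⟨h, hh1, hh2⟩ := hCLin N D _ hbh hno
    obtain ⟨Δ, hΔ1, hΔ2⟩ := hElim N I l y D h hh1
      (fun v hv1 hv2 hv3 => hh2 v ((mem_zer_b hS I l y v).mpr ⟨hv1, hv3⟩) hv2)
    have h2 : Δ * X l ∉ I := by
      intro h3
      rcases hI.mem_or_mem h3 with h4 | h4
      · exact hΔ1 (hy _ h4)
      · have h6 := hy _ h4
        rw [eval_X] at h6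
        exact hl0 h6
    obtain ⟨x, _, _, hx1, P, hPp, hPh, hPd, hPl⟩ := hl _ h2
    rw [map_mul, eval_X] at hx1
    have hxΔ : eval x Δ ≠ 0 := left_ne_zero_of_mul hx1
    obtain ⟨P', hp', hh', hm', hd'⟩ := hLp N (D + 1) (Fin.cons (X l) h) (by
      intro i
      refine Fin.cases ?_ (fun j => ?_) i
      · rw [Fin.cons_zero]
        exact isHomogeneous_X ℂ l
      · rw [Fin.cons_succ]
        exact hh1 j)
    obtain ⟨z, hz0, hzP, hzP'⟩ := hMeet N P P' (D + 2) (N + 1 - (D + 1)) hPp hp' hPh hh' hPd hd'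
      (by omega)
    have hzl : z l = 0 := by
      have h6 := hm' 0
      rw [Fin.cons_zero] at h6
      have h7 := hzP' _ h6
      rwa [eval_X] at h7
    have hzh : ∀ i, eval z (h i) = 0 := by
      intro i
      have h6 := hm' (Fin.succ i)
      rw [Fin.cons_succ] at h6
      exact hzP' _ h6
    exact hz0 (hΔ2 x hxΔ z hzl hzh (fun F hF => (hB N x z F).2.2 I (hPl z hzP) hF))

end Pool.Agent.Lib.MP_776403_ag.SD.LI
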