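import Pool.Agent.Lib.MP_776403_ag.SD.LI.Spec
import Pool.Agent.Lib.MP_776403_ag.SD.Bas

/-!
# LEMMA I, case A: the plane curves are lines (helper24)
-/

set_option autoImplicit false

open MvPolynomial

noncomputable section

namespace Pool.Agent.Lib.MP_776403_ag.SD.LI

namespace CsAAux

variable {N : ℕ}

theorem eval_dd (z a : Vx N) (F : Sx N) : eval z (dd a F) = dp (grad F z) a := by
  unfold dd dp grad
  rw [map_sum]
  refine Finset.sum_congr rfl fun i _ => ?_
  rw [map_mul, eval_C, mul_comm]

theorem eval_lf (z a : Vx N) : eval z (lf a) = dp a z := by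
  unfold lf dp
  rw [map_sum]
  refine Finset.sum_congr rfl fun i _ => ?_
  rw [map_mul, eval_C, eval_X]

theorem dp_add (a y y' : Vx N) : dp a (y + y') = dp a y + dp a y' := by
  simp only [dp, Pi.add_apply, mul_add, Finset.sum_add_distrib]

theorem dp_smul (r : ℂ) (a y : Vx N) : dp a (r • y) = r * dp a y := by
  simp only [dp, Pi.smul_apply, smul_eq_mul, Finset.mul_sum]
  exact Finset.sum_congr rfl fun i _ => by ring

theorem dp_sub (a y y' : Vx N) : dp a (y - y') = dp a y - dp a y' := by
  simp only [dp, Pi.sub_apply, mul_sub, Finset.sum_sub_distrib]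

theorem d1_eq (F : Sx N) (z a : Vx N) : d1 F z a = eval z (dd a F) := by
  rw [eval_dd]
  unfold d1 dp grad
  rfl

theorem lf_hom (a : Vx N) : (lf a).IsHomogeneous 1 := by
  unfold lf
  refine IsHomogeneous.sum _ _ _ fun i _ => ?_
  have h := (isHomogeneous_C (Fin (N + 1)) (a i)).mul (isHomogeneous_X ℂ i)
  rwa [zero_add] at h

/-- `zer I` is a cone. -/
theorem smul_zer {I : Ideal (Sx N)} (hI : IsHom I) {z : Vx N} (hz : z ∈ zer I) (a : ℂ) :
    a • z ∈ zer I := by
  intro F hF
  rw [← sum_homogeneousComponent F, map_sum]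
  refine Finset.sum_eq_zero fun m _ => ?_
  rw [eval_smul_form (homogeneousComponent_isHomogeneous m F), hz _ (hI F hF m), mul_zero]

section

variable (Y : Fin (N + 1) → Sx N)

/-- `F ↦ F(X + T Y)`. -/
def Ph : Sx N →ₐ[ℂ] Polynomial (Sx N) :=
  aeval fun i => Polynomial.C (X i) + Polynomial.C (Y i) * Polynomial.X

theorem Ph_C (a : ℂ) : Ph Y (C a) = Polynomial.C (C a) := by
  unfold Ph
  rw [aeval_C]
  rfl

theorem Ph_X (i : Fin (N + 1)) :
    Ph Y (X i) = Polynomial.C (X i) + Polynomial.C (Y i) * Polynomial.X := by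
  unfold Ph
  rw [aeval_X]

theorem coeff_mulX_zero (F : Sx N) (i : Fin (N + 1)) :
    (Ph Y (F * X i)).coeff 0 = (Ph Y F).coeff 0 * X i := by
  rw [map_mul, Ph_X, mul_add, Polynomial.coeff_add, Polynomial.coeff_mul_C, ← mul_assoc,
    Polynomial.coeff_mul_X_zero, add_zero]

theorem coeff_mulX_succ (F : Sx N) (i : Fin (N + 1)) (k : ℕ) :
    (Ph Y (F * X i)).coeff (k + 1) = (Ph Y F).coeff (k + 1) * X i + (Ph Y F).coeff k * Y i := by
  rw [map_mul, Ph_X, mul_add, Polynomial.coeff_add, Polynomial.coeff_mul_C, ← mul_assoc,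
    Polynomial.coeff_mul_X, Polynomial.coeff_mul_C]

theorem coeff_zero (F : Sx N) : (Ph Y F).coeff 0 = F := by
  induction F using MvPolynomial.induction_on with
  | C a => rw [Ph_C, Polynomial.coeff_C_zero]
  | add p q hp hq => rw [map_add, Polynomial.coeff_add, hp, hq]
  | mul_X p i hp => rw [coeff_mulX_zero, hp]

/-- The basic congruence. -/
theorem key (I : Ideal (Sx N)) (D : Derivation ℂ (Sx N) (Sx N)) (al : Sx N)
    (hY : ∀ i, D (X i) = Y i) (hD : ∀ i, al * D (Y i) - D al * Y i ∈ I) (F : Sx N) :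
    ∀ k : ℕ, al * D ((Ph Y F).coeff k) - ((k : Sx N) + 1) * al * (Ph Y F).coeff (k + 1) -
      (k : Sx N) * D al * (Ph Y F).coeff k ∈ I := by
  induction F using MvPolynomial.induction_on with
  | C a =>
    intro k
    rw [Ph_C, Polynomial.coeff_C_succ]
    rcases Nat.eq_zero_or_pos k with h | h
    · subst h
      have h1 : D (C a) = 0 := by
        rw [← algebraMap_eq]
        exact D.map_algebraMap a
      rw [Polynomial.coeff_C_zero, h1]
      simp
    · obtain ⟨m, rfl⟩ := Nat.exists_eq_succ_of_ne_zero h.ne'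
      rw [Nat.succ_eq_add_one, Polynomial.coeff_C_succ]
      simp
  | add p q hp hq =>
    intro k
    have h := I.add_mem (hp k) (hq k)
    rw [map_add, Polynomial.coeff_add, Polynomial.coeff_add, map_add]
    convert h using 1
    ring
  | mul_X p i hp =>
    intro k
    rcases Nat.eq_zero_or_pos k with h | h
    · subst h
      have h := I.mul_mem_left (X i) (hp 0)
      rw [coeff_mulX_succ, coeff_mulX_zero, Derivation.leibniz, hY, smul_eq_mul, smul_eq_mul]
      convert h using 1
      push_cast
      ring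
    · obtain ⟨m, rfl⟩ := Nat.exists_eq_succ_of_ne_zero h.ne'
      have h1 := I.mul_mem_left (X i) (hp (m + 1))
      have h2 := I.mul_mem_left (Y i) (hp m)
      have h3 := I.mul_mem_left ((Ph Y p).coeff m) (hD i)
      have h4 := I.add_mem (I.add_mem h1 h2) h3
      rw [Nat.succ_eq_add_one, coeff_mulX_succ, coeff_mulX_succ, map_add, Derivation.leibniz,
        Derivation.leibniz, hY]
      simp only [smul_eq_mul]
      convert h4 using 1
      push_cast
      ring

theorem coeff_mem {I : Ideal (Sx N)} (hI : I.IsPrime) (D : Derivation ℂ (Sx N) (Sx N))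
    (al : Sx N) (hY : ∀ i, D (X i) = Y i) (hD : ∀ i, al * D (Y i) - D al * Y i ∈ I)
    (hal : al ∉ I) (hDI : ∀ F ∈ I, D F ∈ I) {F : Sx N} (hF : F ∈ I) (k : ℕ) :
    (Ph Y F).coeff k ∈ I := by
  induction k with
  | zero => rw [coeff_zero]; exact hF
  | succ k ih =>
    have h1 := key Y I D al hY hD F k
    have h2 := I.mul_mem_left al (hDI _ ih)
    have h3 := I.mul_mem_left ((k : Sx N) * D al) ih
    have h4 : ((k : Sx N) + 1) * al * (Ph Y F).coeff (k + 1) ∈ I := by
      have h5 := I.sub_mem (I.sub_mem h2 h1) h3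
      convert h5 using 1
      ring
    have h6 : al * (Ph Y F).coeff (k + 1) ∈ I := by
      have h7 := I.mul_mem_left (C (((k : ℂ) + 1)⁻¹)) h4
      convert h7 using 1
      have h8 : ((k : Sx N) + 1) = C ((k : ℂ) + 1) := by
        rw [map_add, map_one, map_natCast]
      have h9 : ((k : ℂ) + 1) ≠ 0 := Nat.cast_add_one_ne_zero k
      rw [h8, ← mul_assoc, ← mul_assoc, ← map_mul, inv_mul_cancel₀ h9, map_one, one_mul]
    exact (hI.mem_or_mem h6).resolve_left hal

theorem eval_Ph (z : Vx N) (t : ℂ) (F : Sx N) :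
    ((Ph Y F).map (eval z)).eval t = eval (z + t • fun i => eval z (Y i)) F := by
  induction F using MvPolynomial.induction_on with
  | C a => rw [Ph_C, Polynomial.map_C, Polynomial.eval_C, eval_C, eval_C]
  | add p q hp hq => rw [map_add, Polynomial.map_add, Polynomial.eval_add, hp, hq, map_add]
  | mul_X p i hp =>
    rw [map_mul, Polynomial.map_mul, Polynomial.eval_mul, hp, Ph_X, map_mul, eval_X]
    simp only [Polynomial.map_add, Polynomial.map_mul, Polynomial.map_C, Polynomial.map_X,
      Polynomial.eval_add, Polynomial.eval_mul, Polynomial.eval_C, Polynomial.eval_X, eval_X,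
      Pi.add_apply, Pi.smul_apply, smul_eq_mul]
    ring

end

/-- The line `z + t Y(z)` is in `X`. -/
theorem line_mem {I : Ideal (Sx N)} (hH : IsHom I) {z y : Vx N}
    (h : ∀ t : ℂ, z + t • y ∈ zer I) (s t : ℂ) : s • z + t • y ∈ zer I := by
  have h1 : ∀ s : ℂ, s ≠ 0 → s • z + t • y ∈ zer I := by
    intro s hs
    have h2 := smul_zer hH (h (t / s)) s
    rwa [smul_add, smul_smul, mul_div_cancel₀ _ hs] at h2
  by_cases hs : s = 0
  · subst hs
    intro F hF
    have h3 : lin (t • y) z F = 0 := by
      refine Polynomial.eq_of_infinite_eval_eq _ _ (Set.Infinite.mono (s := {0}ᶜ) ?_ ?_)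
      · intro s hs
        have hs' : s ≠ 0 := by simpa using hs
        rw [Set.mem_ofPred_eq, lin_eval, Polynomial.eval_zero, add_comm (t • y) (s • z)]
        exact h1 s hs' F hF
      · exact Set.Finite.infinite_compl (Set.finite_singleton 0)
    have h4 := lin_eval (t • y) z F 0
    rw [h3, Polynomial.eval_zero, zero_smul, add_zero] at h4
    rw [zero_smul, zero_add]
    exact h4.symm
  · exact h1 s hs

/-- A linear form vanishing at `u` and `v`. -/
theorem exists_form {I : Ideal (Sx N)} {u v : Vx N} (h : ∀ s t : ℂ, s • u + t • v ∈ zer I)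
    (hI : ∃ G ∈ I, G ≠ 0) : ∃ a : Vx N, a ≠ 0 ∧ dp a u = 0 ∧ dp a v = 0 := by
  obtain ⟨G, hG, hG0⟩ := hI
  have h1 : Submodule.span ℂ {u, v} < ⊤ := by
    rw [lt_top_iff_ne_top]
    intro h2
    refine hG0 (MvPolynomial.funext fun z => ?_)
    have h3 : z ∈ Submodule.span ℂ {u, v} := by rw [h2]; exact Submodule.mem_top
    obtain ⟨s, t, h4⟩ := Submodule.mem_span_pair.mp h3
    rw [← h4, map_zero]
    exact h s t G hG
  obtain ⟨f, hf, hle⟩ := Submodule.exists_le_ker_of_lt_top _ h1
  have h5 : ∀ y : Vx N, f y = dp (fun i => f (Pi.single i 1)) y := by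
    intro y
    conv_lhs => rw [← Finset.univ_sum_single y]
    rw [map_sum]
    unfold dp
    refine Finset.sum_congr rfl fun i _ => ?_
    have h6 : (Pi.single i (y i) : Vx N) = y i • Pi.single i (1 : ℂ) := by
      rw [← Pi.single_smul, smul_eq_mul, mul_one]
    rw [h6, map_smul, smul_eq_mul, mul_comm]
  refine ⟨fun i => f (Pi.single i 1), fun h0 => hf (LinearMap.ext fun y => ?_), ?_, ?_⟩
  · rw [h5 y, h0, LinearMap.zero_apply]
    simp [dp]
  · rw [← h5]
    exact hle (Submodule.subset_span (Set.mem_insert _ _))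
  · rw [← h5]
    exact hle (Submodule.subset_span (Set.mem_insert_of_mem _ rfl))

end CsAAux

open CsAAux

theorem tCsA : S_Cone → S_Null → S_LinB → S_CsA := by
  intro hCone hNull _ N c I hc hP hH hnd hS hne g hg hbad u v huv hgu G hG hz1 hW
  have hnull := (hNull N I hP hH).1
  obtain ⟨al, hal⟩ : ∃ x, x = dd u G := ⟨_, rfl⟩
  obtain ⟨be, hbe⟩ : ∃ x, x = dd v G := ⟨_, rfl⟩
  obtain ⟨Y, hYd⟩ : ∃ x : Fin (N + 1) → Sx N, x = fun i => al * C (v i) - be * C (u i) := ⟨_, rfl⟩
  obtain ⟨D, hDd⟩ : ∃ x, x = mkDerivation ℂ Y := ⟨_, rfl⟩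
  have hY : ∀ i, D (X i) = Y i := fun i => by rw [hDd, mkDerivation_X]
  have hDC : ∀ a : ℂ, D (C a) = 0 := by
    intro a
    rw [← algebraMap_eq]
    exact D.map_algebraMap a
  have hDs : ∀ P : Sx N, D P = ∑ i, Y i * pderiv i P := by
    intro P
    induction P using MvPolynomial.induction_on with
    | C a => rw [hDC]; simp
    | add p q hp hq =>
      rw [map_add, hp, hq, ← Finset.sum_add_distrib]
      refine Finset.sum_congr rfl fun i _ => ?_
      rw [map_add, mul_add]
    | mul_X p i hp =>
      rw [Derivation.leibniz, hY, hp, smul_eq_mul, smul_eq_mul]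
      have h1 : ∀ j, Y j * pderiv j (p * X i) =
          p * (Y j * (Pi.single i (1 : Sx N) : Fin (N + 1) → Sx N) j) +
            X i * (Y j * pderiv j p) := by
        intro j
        rw [Derivation.leibniz, pderiv_X, smul_eq_mul, smul_eq_mul, Pi.single_comm]
        ring
      have h2 : ∑ j, Y j * (Pi.single i (1 : Sx N) : Fin (N + 1) → Sx N) j = Y i := by
        rw [Finset.sum_eq_single i]
        · rw [Pi.single_eq_same, mul_one]
        · intro j _ hj
          rw [Pi.single_eq_of_ne hj, mul_zero]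
        · intro h
          exact absurd (Finset.mem_univ i) h
      simp only [h1]
      rw [Finset.sum_add_distrib, ← Finset.mul_sum, ← Finset.mul_sum, h2]
  -- (0)
  have halI : al ∉ I := by
    intro h
    obtain ⟨z, hz, h1⟩ := hz1
    refine h1 ?_
    rw [d1_eq, ← hal]
    exact hz _ h
  have h0 : ∀ F ∈ I, al * dd v F - be * dd u F ∈ I := by
    intro F hF
    have h := hbad u v huv hgu G hG F hF
    rwa [← hal, ← hbe] at h
  have hDdd : ∀ F : Sx N, D F = al * dd v F - be * dd u F := by
    intro F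
    rw [hDs, hYd]
    unfold dd
    rw [Finset.mul_sum, Finset.mul_sum, ← Finset.sum_sub_distrib]
    refine Finset.sum_congr rfl fun i _ => ?_
    ring
  have hDI : ∀ F ∈ I, D F ∈ I := fun F hF => by rw [hDdd]; exact h0 F hF
  have hYz : ∀ z : Vx N, (fun i => eval z (Y i)) = eval z al • v - eval z be • u := by
    intro z
    funext i
    rw [hYd]
    simp [mul_comm]
  have hd2 : ∀ (a z : Vx N), d2 G z (yV G z u v) a = eval z (D (dd a G)) := by
    intro a z
    rw [hDs, map_sum]
    unfold d2
    refine Finset.sum_congr rfl fun i _ => ?_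
    have h1 : yV G z u v i = eval z (Y i) := by
      unfold yV
      rw [d1_eq, d1_eq, hYd, ← hal, ← hbe]
      simp
    rw [map_mul, ← h1]
    unfold dd
    rw [map_sum, map_sum, Finset.mul_sum]
    refine Finset.sum_congr rfl fun j _ => ?_
    rw [Derivation.leibniz, pderiv_C, smul_zero, add_zero, smul_eq_mul, map_mul, eval_C]
    change eval z (pderiv i (pderiv j G)) * _ * _ = _
    ring
  have hW2 : be * D al - al * D be ∈ I := by
    refine hnull _ fun z hz => ?_
    have h := hW z hz
    unfold wV at h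
    rw [hd2, hd2, d1_eq, d1_eq, ← hal, ← hbe] at h
    rw [map_sub, map_mul, map_mul]
    exact h
  have hDY : ∀ i, al * D (Y i) - D al * Y i ∈ I := by
    intro i
    have h := I.mul_mem_left (C (u i)) hW2
    rw [hYd]
    simp only [map_sub, Derivation.leibniz, hDC, smul_eq_mul, mul_zero, zero_add]
    convert h using 1
    ring
  -- (1), (2)
  have hline : ∀ z ∈ zer I, ∀ s t : ℂ, s • z + t • (fun i => eval z (Y i)) ∈ zer I := by
    intro z hz
    refine line_mem hH fun t F hF => ?_
    rw [← eval_Ph, Polynomial.eval_eq_sum_range]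
    refine Finset.sum_eq_zero fun k _ => ?_
    rw [Polynomial.coeff_map, hz _ (coeff_mem Y hP D al hY hDY halI hDI hF k), zero_mul]
  have hG0 : G ≠ 0 := by
    rintro rfl
    apply halI
    have h : al = 0 := by
      rw [hal]
      simp [dd]
    rw [h]
    exact I.zero_mem
  obtain ⟨a, ha0, hau, hav⟩ := exists_form huv.2 ⟨G, hG, hG0⟩
  have hlaI : lf a ∉ I := by
    intro h
    have h1 := hnd _ h (lf_hom a)
    apply ha0
    funext i
    have h2 := eval_lf (Pi.single i 1) a
    rw [h1, map_zero] at h2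
    unfold dp at h2
    rw [Finset.sum_eq_single i] at h2
    · rw [Pi.single_eq_same, mul_one] at h2
      exact h2.symm
    · intro j _ hj
      rw [Pi.single_eq_of_ne hj, mul_zero]
    · intro h
      exact absurd (Finset.mem_univ i) h
  have hind : ∀ z ∈ zer I, eval z al ≠ 0 → dp a z ≠ 0 →
      IsLine I z (fun i => eval z (Y i)) := by
    intro z hz h1 h2
    refine ⟨LinearIndependent.pair_iff.mpr fun s t hst => ?_, hline z hz⟩
    have h3 := congrArg (dp a) hst
    rw [hYz, dp_add, dp_smul, dp_smul, dp_sub, dp_smul, dp_smul, hau, hav] at h3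
    have h4 : dp a (0 : Vx N) = 0 := by simp [dp]
    rw [h4, mul_zero, mul_zero, sub_zero, mul_zero, add_zero] at h3
    have hs : s = 0 := (mul_eq_zero.mp h3).resolve_right h2
    refine ⟨hs, ?_⟩
    rw [hs, zero_smul, zero_add, hYz, smul_sub, smul_smul, smul_smul] at hst
    have h5 := LinearIndependent.pair_iff.mp huv.1 (-(t * eval z be)) (t * eval z al) (by
      rw [neg_smul, neg_add_eq_sub]
      exact hst)
    exact (mul_eq_zero.mp h5.2).resolve_right h1
  -- (3), (4)
  have hAB : ∀ w ∈ zer I, ∀ F ∈ I, ∀ F' ∈ I,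
      C (eval w be) * al - C (eval w al) * be ∈ I ∨
      C (dp (grad F' w) u) * lf (grad F w) - C (dp (grad F w) u) * lf (grad F' w) ∈ I := by
    intro w hw F hF F' hF'
    have h1 : g * (al * (lf a * ((C (eval w be) * al - C (eval w al) * be) *
        (C (dp (grad F' w) u) * lf (grad F w) - C (dp (grad F w) u) * lf (grad F' w))))) ∈ I := by
      refine hnull _ fun z hz => ?_
      simp only [map_mul, map_sub, eval_C, eval_lf]
      by_cases e1 : eval z g = 0
      · rw [e1]; ring
      by_cases e2 : eval z al = 0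
      · rw [e2]; ring
      by_cases e3 : dp a z = 0
      · rw [e3]; ring
      have h2 := hw _ (hbad z _ (hind z hz e2 e3) e1 F hF F' hF')
      rw [map_sub, map_mul, map_mul, eval_dd, eval_dd, eval_dd, eval_dd, hYz, dp_sub, dp_sub,
        dp_smul, dp_smul, dp_smul, dp_smul] at h2
      have h3 := hw _ (h0 F hF)
      have h4 := hw _ (h0 F' hF')
      rw [map_sub, map_mul, map_mul, eval_dd, eval_dd] at h3 h4
      have h5 : (eval w be * eval z al - eval w al * eval z be) *
          (dp (grad F' w) u * dp (grad F w) z - dp (grad F w) u * dp (grad F' w) z) = 0 := by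
        linear_combination (eval w al) * h2 - (dp (grad F w) z * eval z al) * h4 +
          (dp (grad F' w) z * eval z al) * h3
      rw [h5]
      ring
    have h2 := (hP.mem_or_mem h1).resolve_left hg
    have h3 := (hP.mem_or_mem h2).resolve_left halI
    have h4 := (hP.mem_or_mem h3).resolve_left hlaI
    exact hP.mem_or_mem h4
  by_cases hcase : ∃ w ∈ zer I, eval w al ≠ 0 ∧ C (eval w be) * al - C (eval w al) * be ∈ I
  · -- (5)
    obtain ⟨w, hw, hw1, hw2⟩ := hcase
    obtain ⟨ka, hka⟩ : ∃ x : ℂ, x = eval w be / eval w al := ⟨_, rfl⟩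
    have h1 : be - C ka * al ∈ I := by
      have h2 := I.mul_mem_left (C (-(eval w al)⁻¹)) hw2
      convert h2 using 1
      rw [mul_sub, ← mul_assoc, ← mul_assoc, ← map_mul, ← map_mul, hka]
      have e1 : -(eval w al)⁻¹ * eval w al = -1 := by
        rw [neg_mul, inv_mul_cancel₀ hw1]
      have e2 : -(eval w al)⁻¹ * eval w be = -(eval w be / eval w al) := by
        rw [div_eq_mul_inv]
        ring
      rw [e1, e2, map_neg, map_neg, map_one]
      ring
    refine hCone N c I (by omega) hP hH hnd hS (v - ka • u) ?_ ?_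
    · intro h2
      have h3 := LinearIndependent.pair_iff.mp huv.1 (-ka) 1 (by
        rw [neg_smul, one_smul, neg_add_eq_sub]
        exact h2)
      exact one_ne_zero h3.2
    · intro F hF
      have h2 : dd (v - ka • u) F = dd v F - C ka * dd u F := by
        unfold dd
        rw [Finset.mul_sum, ← Finset.sum_sub_distrib]
        refine Finset.sum_congr rfl fun i _ => ?_
        rw [Pi.sub_apply, Pi.smul_apply, smul_eq_mul, map_sub, map_mul]
        ring
      have h3 : al * dd (v - ka • u) F ∈ I := by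
        have h4 := I.add_mem (h0 F hF) (I.mul_mem_right (dd u F) h1)
        convert h4 using 1
        rw [h2]
        ring
      exact (hP.mem_or_mem h3).resolve_left halI
  · -- (6)
    obtain ⟨y, hy, hy0⟩ := hne
    obtain ⟨l, hl⟩ : ∃ l, y l ≠ 0 := by
      by_contra h
      push Not at h
      exact hy0 (funext h)
    have hXl : (X l : Sx N) ∉ I := by
      intro h
      have h1 := hy _ h
      rw [eval_X] at h1
      exact hl h1
    have hprod : al * X l ∉ I := fun h => by
      rcases hP.mem_or_mem h with h1 | h1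
      · exact halI h1
      · exact hXl h1
    obtain ⟨w, hw, hw1⟩ : ∃ w ∈ zer I, eval w (al * X l) ≠ 0 := by
      by_contra h
      push Not at h
      exact hprod (hnull _ h)
    rw [map_mul, eval_X] at hw1
    have hwa : eval w al ≠ 0 := left_ne_zero_of_mul hw1
    have hw0 : w ≠ 0 := by
      rintro rfl
      exact (right_ne_zero_of_mul hw1) rfl
    have hB : ∀ F ∈ I, grad F w = (dp (grad F w) u / eval w al) • grad G w := by
      intro F hF
      have h1 := (hAB w hw F hF G hG).resolve_left fun h => hcase ⟨w, hw, hwa, h⟩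
      have h2 : C (dp (grad G w) u) * lf (grad F w) - C (dp (grad F w) u) * lf (grad G w) = 0 := by
        refine hnd _ h1 ?_
        refine IsHomogeneous.sub ?_ ?_
        · have h3 := (isHomogeneous_C (Fin (N + 1)) (dp (grad G w) u)).mul (lf_hom (grad F w))
          rwa [zero_add] at h3
        · have h3 := (isHomogeneous_C (Fin (N + 1)) (dp (grad F w) u)).mul (lf_hom (grad G w))
          rwa [zero_add] at h3
      have h3 : dp (grad G w) u = eval w al := by rw [hal, eval_dd]
      funext i
      have h4 := congrArg (eval (Pi.single i 1)) h2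
      rw [map_sub, map_mul, map_mul, eval_C, eval_C, eval_lf, eval_lf, map_zero, h3] at h4
      have h5 : ∀ b : Vx N, dp b (Pi.single i 1) = b i := by
        intro b
        unfold dp
        rw [Finset.sum_eq_single i]
        · rw [Pi.single_eq_same, mul_one]
        · intro j _ hj
          rw [Pi.single_eq_of_ne hj, mul_zero]
        · intro h
          exact absurd (Finset.mem_univ i) h
      rw [h5, h5] at h4
      rw [Pi.smul_apply, smul_eq_mul]
      field_simp
      linear_combination h4
    obtain ⟨F, f, h, e, hF, _, _, hli, _⟩ := hS w hw hw0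
    have hlt0 : 0 < c := by omega
    have hlt1 : 1 < c := by omega
    have hF0 := hB _ (hF ⟨0, hlt0⟩).1
    have hF1 := hB _ (hF ⟨1, hlt1⟩).1
    have hne01 : (⟨0, hlt0⟩ : Fin c) ≠ ⟨1, hlt1⟩ := by
      intro h
      have := congrArg Fin.val h
      simp at this
    have h0' : grad (F ⟨0, hlt0⟩) w ≠ 0 := hli.ne_zero _
    have h1' : grad (F ⟨1, hlt1⟩) w ≠ 0 := hli.ne_zero _
    obtain ⟨c0, hc0⟩ : ∃ x, x = dp (grad (F ⟨0, hlt0⟩) w) u / eval w al := ⟨_, rfl⟩
    obtain ⟨c1, hc1⟩ : ∃ x, x = dp (grad (F ⟨1, hlt1⟩) w) u / eval w al := ⟨_, rfl⟩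
    rw [← hc0] at hF0
    rw [← hc1] at hF1
    have hc00 : c0 ≠ 0 := by
      rintro rfl
      rw [zero_smul] at hF0
      exact h0' hF0
    have hsum := Fintype.linearIndependent_iff.mp hli
      (fun i => (if i = ⟨0, hlt0⟩ then c1 else 0) - (if i = ⟨1, hlt1⟩ then c0 else 0)) (by
        simp only [sub_smul, ite_smul, zero_smul]
        rw [Finset.sum_sub_distrib, Finset.sum_ite_eq' Finset.univ, Finset.sum_ite_eq' Finset.univ,
          if_pos (Finset.mem_univ _), if_pos (Finset.mem_univ _), hF0, hF1, smul_smul, smul_smul,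
          mul_comm, sub_self]) ⟨1, hlt1⟩
    rw [if_neg (Ne.symm hne01), if_pos rfl, zero_sub, neg_eq_zero] at hsum
    exact hc00 hsum

end Pool.Agent.Lib.MP_776403_ag.SD.LI
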