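import Pool.Agent.Lib.MP_776403_ag.SD.LI.Spec

/-!
# LEMMA I, case B: the symmetry of the second fundamental form (helper53)
-/

set_option autoImplicit false

open MvPolynomial

noncomputable section

namespace Pool.Agent.Lib.MP_776403_ag.SD.LI

namespace CsBAux

variable {N : ℕ} {L : Type} [Field L] [Algebra ℂ L]

/-- The point `z` with coordinates in `L`. -/
def zh (L : Type) [Field L] [Algebra ℂ L] (z : Vx N) : Fin (N + 1) → L :=
  fun i => algebraMap ℂ L (z i)

/-- The polynomial `∑ a_i ∂_i F`. -/
def pf (F : Sx N) (a : Fin (N + 1) → L) : MvPolynomial (Fin (N + 1)) L :=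
  ∑ i, C (a i) * map (algebraMap ℂ L) (pderiv i F)

theorem eval_zh (z : Vx N) (P : Sx N) :
    eval (zh L z) (map (algebraMap ℂ L) P) = algebraMap ℂ L (eval z P) := by
  induction P using MvPolynomial.induction_on with
  | C a => simp
  | add p q hp hq => simp [hp, hq]
  | mul_X p i hp => simp [hp, zh]

theorem eval_pf (z : Vx N) (F : Sx N) (a : Fin (N + 1) → L) :
    eval (zh L z) (pf F a) = d1 F z a := by
  unfold pf d1
  rw [map_sum]
  refine Finset.sum_congr rfl fun i _ => ?_
  rw [map_mul, eval_C, eval_zh, mul_comm]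

theorem eval_pderiv_pf (z : Vx N) (F : Sx N) (a : Fin (N + 1) → L) (k : Fin (N + 1)) :
    eval (zh L z) (pderiv k (pf F a)) =
      ∑ j, algebraMap ℂ L (eval z (pderiv k (pderiv j F))) * a j := by
  unfold pf
  rw [map_sum, map_sum]
  refine Finset.sum_congr rfl fun i _ => ?_
  rw [Derivation.leibniz, pderiv_C, smul_zero, add_zero, smul_eq_mul, map_mul, eval_C, pderiv_map,
    eval_zh, mul_comm]

theorem sum_pderiv_pf (z : Vx N) (F : Sx N) (a b : Fin (N + 1) → L) :
    ∑ k, b k * eval (zh L z) (pderiv k (pf F a)) = d2 F z b a := by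
  unfold d2
  refine Finset.sum_congr rfl fun k _ => ?_
  rw [eval_pderiv_pf, Finset.mul_sum]
  refine Finset.sum_congr rfl fun j _ => ?_
  ring

theorem pd_comm (i j : Fin (N + 1)) (F : Sx N) :
    pderiv i (pderiv j F) = pderiv j (pderiv i F) := by
  have h : ⁅(pderiv i : Derivation ℂ (Sx N) (Sx N)), (pderiv j : Derivation ℂ (Sx N) (Sx N))⁆ =
      0 := by
    refine MvPolynomial.derivation_ext fun k => ?_
    rw [Derivation.commutator_apply, pderiv_X, pderiv_X, Derivation.coe_zero, Pi.zero_apply]
    simp only [Pi.single_apply]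
    split_ifs <;> simp
  have h2 := congrArg (fun D : Derivation ℂ (Sx N) (Sx N) => D F) h
  simp only [Derivation.commutator_apply, Derivation.coe_zero, Pi.zero_apply] at h2
  exact sub_eq_zero.mp h2

theorem d2_comm (F : Sx N) (z : Vx N) (a b : Fin (N + 1) → L) : d2 F z a b = d2 F z b a := by
  unfold d2
  rw [Finset.sum_comm]
  refine Finset.sum_congr rfl fun j _ => Finset.sum_congr rfl fun i _ => ?_
  rw [pd_comm]
  ring

/-- The derivative along `b` of `∑ c_i ∂_i F`, evaluated. -/
theorem eval_bracket (z : Vx N) (F : Sx N) (b c : Fin (N + 1) → MvPolynomial (Fin (N + 1)) L) :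
    eval (zh L z) (∑ k, b k * pderiv k (∑ i, c i * map (algebraMap ℂ L) (pderiv i F))) =
      d1 F z (fun i => ∑ k, eval (zh L z) (b k) * eval (zh L z) (pderiv k (c i))) +
      d2 F z (fun k => eval (zh L z) (b k)) (fun i => eval (zh L z) (c i)) := by
  unfold d1 d2
  rw [map_sum]
  have h1 : ∀ k, eval (zh L z) (b k * pderiv k (∑ i, c i * map (algebraMap ℂ L) (pderiv i F))) =
      ∑ i, (algebraMap ℂ L (eval z (pderiv i F)) *
        (eval (zh L z) (b k) * eval (zh L z) (pderiv k (c i))) +
        algebraMap ℂ L (eval z (pderiv k (pderiv i F))) * eval (zh L z) (b k) *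
          eval (zh L z) (c i)) := by
    intro k
    rw [map_mul, map_sum, map_sum, Finset.mul_sum]
    refine Finset.sum_congr rfl fun i _ => ?_
    rw [Derivation.leibniz, smul_eq_mul, smul_eq_mul, map_add, map_mul, map_mul, pderiv_map,
      eval_zh, eval_zh]
    ring
  rw [Finset.sum_congr rfl fun k _ => h1 k]
  simp only [Finset.sum_add_distrib]
  congr 1
  rw [Finset.sum_comm]
  refine Finset.sum_congr rfl fun i _ => ?_
  rw [Finset.mul_sum]

theorem der_d1 (θ : Derivation ℂ L L) (F : Sx N) (z : Vx N) (a : Fin (N + 1) → L) :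
    θ (d1 F z a) = d1 F z (fun i => θ (a i)) := by
  unfold d1
  rw [map_sum]
  refine Finset.sum_congr rfl fun i _ => ?_
  rw [← Algebra.smul_def, θ.map_smul, Algebra.smul_def]

theorem d1_add (F : Sx N) (z : Vx N) (a b : Fin (N + 1) → L) :
    d1 F z (fun i => a i + b i) = d1 F z a + d1 F z b := by
  unfold d1
  rw [← Finset.sum_add_distrib]
  exact Finset.sum_congr rfl fun i _ => by ring

theorem d1_sub (F : Sx N) (z : Vx N) (a b : Fin (N + 1) → L) :
    d1 F z (fun i => a i - b i) = d1 F z a - d1 F z b := by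
  unfold d1
  rw [← Finset.sum_sub_distrib]
  exact Finset.sum_congr rfl fun i _ => by ring

theorem d1_mul (F : Sx N) (z : Vx N) (r : L) (a : Fin (N + 1) → L) :
    d1 F z (fun i => r * a i) = r * d1 F z a := by
  unfold d1
  rw [Finset.mul_sum]
  exact Finset.sum_congr rfl fun i _ => by ring

theorem eval_sum_map (z : Vx N) (F : Sx N) (b : Fin (N + 1) → MvPolynomial (Fin (N + 1)) L) :
    eval (zh L z) (∑ i, b i * map (algebraMap ℂ L) (pderiv i F)) =
      d1 F z (fun i => eval (zh L z) (b i)) := by
  unfold d1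
  rw [map_sum]
  refine Finset.sum_congr rfl fun i _ => ?_
  rw [map_mul, eval_zh, mul_comm]

/-- The field `α v - β u`. -/
def Yf (G : Sx N) (u v : Fin (N + 1) → L) : Fin (N + 1) → MvPolynomial (Fin (N + 1)) L :=
  fun i => pf G u * C (v i) - pf G v * C (u i)

/-- The derivative of the field `α v - β u` along `θ`. -/
def Xf (G : Sx N) (u v η η' : Fin (N + 1) → L) : Fin (N + 1) → MvPolynomial (Fin (N + 1)) L :=
  fun i => pf G η * C (v i) + pf G u * C (η' i) - pf G η' * C (u i) - pf G v * C (η i)

theorem eval_Yf (z : Vx N) (G : Sx N) (u v : Fin (N + 1) → L) (i : Fin (N + 1)) :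
    eval (zh L z) (Yf G u v i) = yV G z u v i := by
  simp [Yf, yV, eval_pf]

theorem eval_Xf (z : Vx N) (G : Sx N) (u v η η' : Fin (N + 1) → L) (i : Fin (N + 1)) :
    eval (zh L z) (Xf G u v η η' i) = d1 G z η * v i + d1 G z u * η' i - d1 G z η' * u i -
      d1 G z v * η i := by
  simp [Xf, eval_pf]

theorem eval_pd_mul_C (z : Vx N) (G : Sx N) (a : Fin (N + 1) → L) (r : L) (k : Fin (N + 1)) :
    eval (zh L z) (pderiv k (pf G a * C r)) = r * eval (zh L z) (pderiv k (pf G a)) := by
  rw [Derivation.leibniz, pderiv_C, smul_zero, zero_add, smul_eq_mul, map_mul, eval_C]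

theorem sum_pd_mul_C (z : Vx N) (G : Sx N) (a b : Fin (N + 1) → L) (r : L) :
    ∑ k, b k * eval (zh L z) (pderiv k (pf G a * C r)) = d2 G z b a * r := by
  rw [← sum_pderiv_pf, Finset.sum_mul]
  refine Finset.sum_congr rfl fun k _ => ?_
  rw [eval_pd_mul_C]
  ring

/-- The second equation of step (3). -/
theorem bracket_Y (z : Vx N) (F G : Sx N) (u v b : Fin (N + 1) → L) :
    d1 F z (fun i => ∑ k, b k * eval (zh L z) (pderiv k (Yf G u v i))) =
      d2 G z b u * d1 F z v - d2 G z b v * d1 F z u := by
  have h : (fun i => ∑ k, b k * eval (zh L z) (pderiv k (Yf G u v i))) =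
      fun i => d2 G z b u * v i - d2 G z b v * u i := by
    funext i
    unfold Yf
    simp only [map_sub, mul_sub, Finset.sum_sub_distrib, sum_pd_mul_C]
  rw [h, d1_sub, d1_mul, d1_mul]

theorem bracket_X (z : Vx N) (F G : Sx N) (u v η η' b : Fin (N + 1) → L) :
    d1 F z (fun i => ∑ k, b k * eval (zh L z) (pderiv k (Xf G u v η η' i))) =
      d2 G z b η * d1 F z v + d2 G z b u * d1 F z η' - d2 G z b η' * d1 F z u -
        d2 G z b v * d1 F z η := by
  have h : (fun i => ∑ k, b k * eval (zh L z) (pderiv k (Xf G u v η η' i))) =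
      fun i => d2 G z b η * v i + d2 G z b u * η' i - d2 G z b η' * u i - d2 G z b v * η i := by
    funext i
    unfold Xf
    simp only [map_sub, map_add, mul_sub, mul_add, Finset.sum_sub_distrib, Finset.sum_add_distrib,
      sum_pd_mul_C]
  rw [h, d1_sub, d1_sub, d1_add, d1_mul, d1_mul, d1_mul, d1_mul]

end CsBAux

open CsBAux

theorem tCsB : S_Van → S_Der → S_CsB := by
  intro hVan hDer N c I hc hI hIh hnd hSm hne L _ _ n x hx u v hu hbad G hG hα hW
  obtain ⟨hV1, hV2⟩ := hVan N I hI hIh L
  -- the curvature polynomial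
  obtain ⟨W, hWz⟩ : ∃ W : MvPolynomial (Fin (N + 1)) L, ∀ z : Vx N,
      eval (zh L z) W = wV G z u v := by
    refine ⟨pf G v * (∑ k, Yf G u v k * pderiv k (pf G u)) -
      pf G u * (∑ k, Yf G u v k * pderiv k (pf G v)), fun z => ?_⟩
    have h1 : ∀ a : Fin (N + 1) → L, eval (zh L z) (∑ k, Yf G u v k * pderiv k (pf G a)) =
        d2 G z (yV G z u v) a := by
      intro a
      rw [← sum_pderiv_pf, map_sum]
      refine Finset.sum_congr rfl fun k _ => ?_
      rw [map_mul, eval_Yf]
    rw [map_sub, map_mul, map_mul, h1, h1, eval_pf, eval_pf]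
    rfl
  -- the symmetry
  have key : ∀ (θ : Derivation ℂ L L), ∀ z ∈ zer I, ∀ F ∈ I, ∀ F' ∈ I,
      d1 F z (fun i => θ (u i)) * d1 F' z u = d1 F' z (fun i => θ (u i)) * d1 F z u := by
    intro θ
    set η : Fin (N + 1) → L := fun i => θ (u i) with hη
    set η' : Fin (N + 1) → L := fun i => θ (v i) with hη'
    -- tangency
    have hY : ∀ F ∈ I, Van I (∑ i, Yf G u v i * map (algebraMap ℂ L) (pderiv i F)) := by
      intro F hF z hz
      change eval (zh L z) _ = 0
      rw [eval_sum_map]
      simp only [eval_Yf]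
      unfold yV
      rw [d1_sub, d1_mul, d1_mul]
      have := hbad z hz F hF G hG
      linear_combination -this
    have hX0 : ∀ F ∈ I, ∀ z ∈ zer I, d1 G z η * d1 F z v + d1 G z u * d1 F z η' -
        d1 G z η' * d1 F z u - d1 G z v * d1 F z η = 0 := by
      intro F hF z hz
      have h1 := congrArg θ (hbad z hz F hF G hG)
      rw [Derivation.leibniz, Derivation.leibniz, der_d1, der_d1, der_d1, der_d1] at h1
      simp only [smul_eq_mul] at h1
      change d1 F z u * d1 G z η' + d1 G z v * d1 F z η =
        d1 F z v * d1 G z η + d1 G z u * d1 F z η' at h1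
      linear_combination -h1
    have hX : ∀ F ∈ I, Van I (∑ i, Xf G u v η η' i * map (algebraMap ℂ L) (pderiv i F)) := by
      intro F hF z hz
      change eval (zh L z) _ = 0
      rw [eval_sum_map]
      simp only [eval_Xf]
      rw [d1_sub, d1_sub, d1_add, d1_mul, d1_mul, d1_mul, d1_mul]
      exact hX0 F hF z hz
    -- the bracket
    have hbr : ∀ F ∈ I, ∀ z ∈ zer I,
        (d2 G z (yV G z u v) η - d2 G z (fun i => eval (zh L z) (Xf G u v η η' i)) u) * d1 F z v -
        (d2 G z (yV G z u v) η' - d2 G z (fun i => eval (zh L z) (Xf G u v η η' i)) v) * d1 F z u +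
        d2 G z (yV G z u v) u * d1 F z η' - d2 G z (yV G z u v) v * d1 F z η = 0 := by
      intro F hF z hz
      have h1 := hV2 (Xf G u v η η') hX _ (hY F hF) z hz
      have h2 := hV2 (Yf G u v) hY _ (hX F hF) z hz
      change eval (zh L z) _ = 0 at h1 h2
      rw [eval_bracket, bracket_Y] at h1
      rw [eval_bracket, bracket_X] at h2
      have hYe : (fun k => eval (zh L z) (Yf G u v k)) = yV G z u v :=
        funext fun k => eval_Yf z G u v k
      rw [hYe] at h1 h2
      rw [d2_comm F] at h2
      linear_combination h2 - h1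
    -- the product
    have hprod : ∀ F ∈ I, ∀ F' ∈ I,
        Van I (pf G u * (W * (pf F η * pf F' u - pf F' η * pf F u))) := by
      intro F hF F' hF' z hz
      change eval (zh L z) _ = 0
      rw [map_mul, map_mul, map_sub, map_mul, map_mul, hWz, eval_pf, eval_pf, eval_pf, eval_pf,
        eval_pf]
      have e1 := hbad z hz F hF G hG
      have e1' := hbad z hz F' hF' G hG
      have e2 := hX0 F hF z hz
      have e2' := hX0 F' hF' z hz
      have e3 := hbr F hF z hz
      have e3' := hbr F' hF' z hz
      unfold wV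
      set P₁ := d2 G z (yV G z u v) η - d2 G z (fun i => eval (zh L z) (Xf G u v η η' i)) u
      set P₂ := d2 G z (yV G z u v) η' - d2 G z (fun i => eval (zh L z) (Xf G u v η η' i)) v
      set Da := d2 G z (yV G z u v) u
      set Db := d2 G z (yV G z u v) v
      generalize d1 G z u = a at *
      generalize d1 G z v = b at *
      generalize d1 G z η = a' at *
      generalize d1 G z η' = b' at *
      generalize d1 F z u = fu at *
      generalize d1 F z v = fv at *
      generalize d1 F z η = fe at *
      generalize d1 F z η' = fe' at *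
      generalize d1 F' z u = gu at *
      generalize d1 F' z v = gv at *
      generalize d1 F' z η = ge at *
      generalize d1 F' z η' = ge' at *
      have k1 : a * (b * Da - a * Db) * fe +
          (P₁ * a * b - P₂ * a ^ 2 + Da * (a * b' - a' * b)) * fu = 0 := by
        linear_combination a ^ 2 * e3 - Da * a * e2 + (P₁ * a - Da * a') * e1
      have k2 : a * (b * Da - a * Db) * ge +
          (P₁ * a * b - P₂ * a ^ 2 + Da * (a * b' - a' * b)) * gu = 0 := by
        linear_combination a ^ 2 * e3' - Da * a * e2' + (P₁ * a - Da * a') * e1'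
      linear_combination gu * k1 - fu * k2
    intro z hz F hF F' hF'
    have h1 : Van I (pf F η * pf F' u - pf F' η * pf F u) := by
      rcases hV1 _ _ (hprod F hF F' hF') with h | h
      · exfalso
        obtain ⟨z', hz', hne'⟩ := hα
        refine hne' ?_
        rw [← eval_pf]
        exact h z' hz'
      · rcases hV1 _ _ h with h | h
        · exfalso
          obtain ⟨z', hz', hne'⟩ := hW
          refine hne' ?_
          rw [← hWz]
          exact h z' hz'
        · exact h
    have h2 := h1 z hz
    change eval (zh L z) _ = 0 at h2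
    rw [map_sub, map_mul, map_mul, eval_pf, eval_pf, eval_pf, eval_pf] at h2
    exact sub_eq_zero.mp h2
  -- the contradiction
  obtain ⟨z, hz, hz0⟩ := hne
  obtain ⟨F, f, h, e, hF, -, -, hli, -⟩ := hSm z hz hz0
  set i0 : Fin c := ⟨0, by omega⟩
  set i1 : Fin c := ⟨1, by omega⟩
  have h01 : i0 ≠ i1 := by
    intro h
    have := congrArg Fin.val h
    simp [i0, i1] at this
  have hγ : d1 (F i1) z u ≠ 0 := by
    intro h0
    have h1 : grad (F i1) z = 0 := by
      funext i
      refine Fintype.linearIndependent_iff.mp hu (grad (F i1) z) ?_ i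
      rw [← h0]
      unfold d1
      exact Finset.sum_congr rfl fun i _ => by rw [Algebra.smul_def]; rfl
    exact hli.ne_zero i1 h1
  have hquot : ∃ a : ℂ, algebraMap ℂ L a = d1 (F i0) z u / d1 (F i1) z u := by
    by_contra hcon
    push Not at hcon
    obtain ⟨θ, hθ⟩ := hDer L n x hx _ hcon
    refine hθ ?_
    rw [Derivation.leibniz_div, der_d1, der_d1]
    have hk := key θ z hz (F i0) (hF i0).1 (F i1) (hF i1).1
    simp only [smul_eq_mul]
    have : d1 (F i1) z u * d1 (F i0) z (fun i => θ (u i)) -
        d1 (F i0) z u * d1 (F i1) z (fun i => θ (u i)) = 0 := by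
      linear_combination hk
    rw [this, mul_zero]
  obtain ⟨a, ha⟩ := hquot
  have ha2 : d1 (F i0) z u = algebraMap ℂ L a * d1 (F i1) z u := by
    rw [ha]
    field_simp
  have h3 : grad (F i0) z - a • grad (F i1) z = 0 := by
    funext i
    refine Fintype.linearIndependent_iff.mp hu (grad (F i0) z - a • grad (F i1) z) ?_ i
    have h4 : ∑ i, (grad (F i0) z - a • grad (F i1) z) i • u i =
        d1 (F i0) z u - algebraMap ℂ L a * d1 (F i1) z u := by
      unfold d1
      rw [Finset.mul_sum, ← Finset.sum_sub_distrib]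
      refine Finset.sum_congr rfl fun i _ => ?_
      rw [Algebra.smul_def, Pi.sub_apply, Pi.smul_apply, smul_eq_mul, map_sub, map_mul]
      simp only [grad]
      ring
    rw [h4, ha2, sub_self]
  have h5 := LinearIndependent.eq_zero_of_pair
    (hli.comp ![i0, i1] (by
      intro p q hpq
      fin_cases p <;> fin_cases q <;> simp_all) |> fun h => by
        have e : (fun i => grad (F i) z) ∘ ![i0, i1] = ![grad (F i0) z, grad (F i1) z] := by
          funext p
          fin_cases p <;> rfl
        rw [e] at h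
        exact h) (s := (1 : ℂ)) (t := -a) (by rw [one_smul, neg_smul, ← sub_eq_add_neg]; exact h3)
  exact one_ne_zero h5.1

end Pool.Agent.Lib.MP_776403_ag.SD.LI
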