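import Pool.Agent.Lib.MP_776403_ag.SD.LI.Spec

/-!
# (Der) derivations of a finitely generated field over `ℂ`

`L` is formally smooth over `ℂ(f)` (characteristic `0`), `ℂ(f)` is a localization of `ℂ[f]`; so
`L ⊗ Ω[ℂ[f]/ℂ] → Ω[L/ℂ]` is injective and `d f ≠ 0`.
-/

set_option autoImplicit false

noncomputable section

namespace Pool.Agent.Lib.MP_776403_ag.SD.LI

namespace DerAux

open Polynomial TensorProduct KaehlerDifferential

theorem transc {L : Type} [Field L] [Algebra ℂ L] (f : L) (hf : ∀ a : ℂ, algebraMap ℂ L a ≠ f) :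
    Transcendental ℂ f := by
  intro halg
  have : Algebra.IsAlgebraic ℂ (IntermediateField.adjoin ℂ ({f} : Set L)) :=
    IntermediateField.isAlgebraic_adjoin_simple halg.isIntegral
  have h := IntermediateField.eq_bot_of_isAlgClosed_of_isAlgebraic (k := ℂ)
    (IntermediateField.adjoin ℂ ({f} : Set L))
  have h2 : f ∈ IntermediateField.adjoin ℂ ({f} : Set L) :=
    IntermediateField.mem_adjoin_simple_self ℂ f
  rw [h, IntermediateField.mem_bot] at h2
  obtain ⟨a, ha⟩ := h2
  exact hf a ha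

theorem D_ne {L : Type} [Field L] [Algebra ℂ L] [Algebra ℂ[X] L] [IsScalarTower ℂ ℂ[X] L]
    [Algebra.FormallySmooth ℂ[X] L] :
    KaehlerDifferential.D ℂ L (algebraMap ℂ[X] L X) ≠ 0 := by
  have hinj : Function.Injective (KaehlerDifferential.mapBaseChange ℂ ℂ[X] L) := by
    rw [injective_iff_map_eq_zero]
    intro a ha
    obtain ⟨b, rfl⟩ := (Algebra.H1Cotangent.exact_δ_mapBaseChange ℂ ℂ[X] L a).1 ha
    have : Subsingleton (Algebra.H1Cotangent ℂ[X] L) :=
      Algebra.FormallySmooth.subsingleton_h1Cotangent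
    rw [Subsingleton.elim b 0, map_zero]
  intro h0
  have h1 : KaehlerDifferential.mapBaseChange ℂ ℂ[X] L
      ((1 : L) ⊗ₜ[ℂ[X]] KaehlerDifferential.D ℂ ℂ[X] X) = 0 := by
    rw [KaehlerDifferential.mapBaseChange_tmul, KaehlerDifferential.map_D, h0, smul_zero]
  have h2 := hinj (h1.trans (map_zero _).symm)
  have h3 := congrArg (fun z => TensorProduct.rid ℂ[X] L
    ((LinearMap.lTensor L (KaehlerDifferential.polynomialEquiv ℂ).toLinearMap) z)) h2
  simp at h3

theorem main {L : Type} [Field L] [Algebra ℂ L] (n : ℕ) (x : Fin n → L)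
    (hx : IntermediateField.adjoin ℂ (Set.range x) = ⊤) (f : L)
    (hf : ∀ a : ℂ, algebraMap ℂ L a ≠ f) :
    ∃ θ : Derivation ℂ L L, θ f ≠ 0 := by
  classical
  have ht := transc f hf
  let alg : Algebra ℂ[X] L := (Polynomial.aeval f : ℂ[X] →ₐ[ℂ] L).toRingHom.toAlgebra
  have halg : ∀ p : ℂ[X], algebraMap ℂ[X] L p = Polynomial.aeval f p := fun p => rfl
  have : IsScalarTower ℂ ℂ[X] L := IsScalarTower.of_algebraMap_eq (fun r => by
    rw [halg, Polynomial.algebraMap_eq, Polynomial.aeval_C])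
  have : FaithfulSMul ℂ[X] L := by
    rw [faithfulSMul_iff_algebraMap_injective]
    exact transcendental_iff_injective.1 ht
  let _ := FractionRing.liftAlgebra ℂ[X] L
  have : IsScalarTower ℂ[X] (FractionRing ℂ[X]) L := FractionRing.isScalarTower_liftAlgebra _ _
  have : IsScalarTower ℂ (FractionRing ℂ[X]) L := IsScalarTower.to₁₃₄ _ ℂ[X] _ _
  have : Algebra.EssFiniteType ℂ L :=
    IntermediateField.fg_top_iff.1 ⟨Finset.univ.image x, by simpa using hx⟩
  have : Algebra.EssFiniteType (FractionRing ℂ[X]) L := Algebra.EssFiniteType.of_comp ℂ _ _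
  have : Algebra.FormallySmooth (FractionRing ℂ[X]) L := inferInstance
  have : Algebra.FormallySmooth ℂ[X] (FractionRing ℂ[X]) :=
    .of_isLocalization (nonZeroDivisors _)
  have : Algebra.FormallySmooth ℂ[X] L := .comp _ (FractionRing ℂ[X]) _
  have hD : KaehlerDifferential.D ℂ L f ≠ 0 := by
    have h := D_ne (L := L)
    rwa [halg, Polynomial.aeval_X] at h
  obtain ⟨g, hg⟩ : ∃ g : Ω[L⁄ℂ] →ₗ[L] L, g (KaehlerDifferential.D ℂ L f) ≠ 0 := by
    by_contra hcon
    push Not at hcon
    exact hD ((Module.forall_dual_apply_eq_zero_iff L _).1 hcon)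
  exact ⟨g.compDer (KaehlerDifferential.D ℂ L), hg⟩

end DerAux

/-- (Der). -/
theorem tDer : S_Der := fun L _ _ n x hx f hf => DerAux.main n x hx f hf

end Pool.Agent.Lib.MP_776403_ag.SD.LI
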