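import Pool.Agent.Lib.MP_776403_ag.SD.LI.Spec

/-!
# Division by a relation over `ℂ[t]` (`S_Div`)
-/

set_option autoImplicit false

open MvPolynomial

noncomputable section

namespace Pool.Agent.Lib.MP_776403_ag.SD.LI

namespace DivAux

/-- A polynomial over `ℂ[t]` which vanishes at all `(t, l)` is zero. -/
private theorem eq_zero_of_eval {n' : ℕ} (f : MvPolynomial (Fin n') (Polynomial ℂ))
    (h : ∀ (t : ℂ) (l : Fin n' → ℂ), eval₂ (Polynomial.evalRingHom t) l f = 0) : f = 0 := by
  ext1 m
  rw [coeff_zero]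
  apply Polynomial.funext
  intro t
  have h1 : MvPolynomial.map (Polynomial.evalRingHom t) f = 0 := by
    apply MvPolynomial.funext
    intro l
    rw [eval_map, h t l, map_zero]
  have h2 := congrArg (coeff m) h1
  rw [coeff_map, coeff_zero] at h2
  simpa using h2

/-- Evaluation through `optionEquivLeft`. -/
private theorem eval_opt {n' : ℕ} (S : MvPolynomial (Option (Fin n')) (Polynomial ℂ)) (t : ℂ)
    (l : Fin n' → ℂ) (l₀ : ℂ) :
    eval₂ (Polynomial.evalRingHom t) (fun o : Option (Fin n') => o.elim l₀ l) S =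
      Polynomial.eval₂ (eval₂Hom (Polynomial.evalRingHom t) l) l₀
        (optionEquivLeft (Polynomial ℂ) (Fin n') S) := by
  have key : eval₂Hom (Polynomial.evalRingHom t) (fun o : Option (Fin n') => o.elim l₀ l) =
      (Polynomial.eval₂RingHom (eval₂Hom (Polynomial.evalRingHom t) l) l₀).comp
        (optionEquivLeft (Polynomial ℂ) (Fin n') : MvPolynomial (Option (Fin n')) (Polynomial ℂ) →+*
          Polynomial (MvPolynomial (Fin n') (Polynomial ℂ))) := by
    apply MvPolynomial.ringHom_ext
    · intro r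
      simp
    · intro o
      cases o with
      | none => simp
      | some i => simp
  have h := congrArg (fun φ => φ S) key
  simpa using h

/-- The relation and the leading coefficient are relatively prime. -/
private theorem relprime {n' : ℕ} (ρ : Fin n' → Polynomial ℂ) (ρ₀ : Polynomial ℂ)
    (h0 : ρ₀ ≠ 0) (hne : ∀ t : ℂ, ρ₀.eval t ≠ 0 ∨ ∃ i, (ρ i).eval t ≠ 0) :
    IsRelPrime (C ρ₀ : MvPolynomial (Fin n') (Polynomial ℂ)) (∑ i, C (ρ i) * X i) := by
  intro d hd hB
  obtain ⟨q, hq, rfl⟩ := (dvd_C_iff_exists h0).1 hd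
  by_cases hdeg : q.degree = 0
  · have hu : IsUnit q := Polynomial.isUnit_iff_degree_eq_zero.2 hdeg
    exact hu.map C
  · exfalso
    obtain ⟨t, ht⟩ := IsAlgClosed.exists_root q hdeg
    have hρ : ∀ i, q ∣ ρ i := by
      intro i
      have h1 := (C_dvd_iff_dvd_coeff q _).1 hB (Finsupp.single i 1)
      have h2 : coeff (Finsupp.single i 1)
          (∑ j, C (ρ j) * X j : MvPolynomial (Fin n') (Polynomial ℂ)) = ρ i := by
        classical
        rw [coeff_sum, Finset.sum_eq_single i]
        · rw [coeff_C_mul, coeff_X', if_pos rfl, mul_one]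
        · intro j _ hj
          rw [coeff_C_mul, coeff_X', if_neg, mul_zero]
          intro h
          have := DFunLike.congr_fun h i
          rw [Finsupp.single_apply, Finsupp.single_eq_same, if_neg hj] at this
          exact zero_ne_one this
        · intro h
          exact absurd (Finset.mem_univ i) h
      rwa [h2] at h1
    have hz : ∀ p : Polynomial ℂ, q ∣ p → p.eval t = 0 := by
      rintro p ⟨r, rfl⟩
      rw [Polynomial.eval_mul, ht, zero_mul]
    rcases hne t with h | ⟨i, h⟩
    · exact h (hz _ hq)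
    · exact h (hz _ (hρ i))

end DivAux

open DivAux in
theorem tDiv : S_Div := by
  intro n' δ ρ ρ₀ hmon hδ hne S hsup hvan
  have h0 : ρ₀ ≠ 0 := hmon.ne_zero
  by_contra hS
  set P := optionEquivLeft (Polynomial ℂ) (Fin n') S with hP
  have hP0 : P ≠ 0 := by
    rw [hP]
    simpa using hS
  set J := P.natDegree with hJ
  have hlc : P.coeff J ≠ 0 := by
    rw [hJ]
    exact Polynomial.leadingCoeff_ne_zero.2 hP0
  set B : MvPolynomial (Fin n') (Polynomial ℂ) := ∑ i, C (ρ i) * X i with hB
  have hC0 : (C ρ₀ : MvPolynomial (Fin n') (Polynomial ℂ)) ≠ 0 := by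
    simpa using h0
  -- the identity
  have hQ : (∑ j ∈ Finset.range (J + 1), C ρ₀ ^ (J - j) * P.coeff j * (-B) ^ j) = 0 := by
    have h1 : C ρ₀ * (∑ j ∈ Finset.range (J + 1), C ρ₀ ^ (J - j) * P.coeff j * (-B) ^ j) = 0 := by
      apply eq_zero_of_eval
      intro t l
      rw [← coe_eval₂Hom]
      rw [map_mul, map_sum]
      have hc : (eval₂Hom (Polynomial.evalRingHom t) l) (C ρ₀) = ρ₀.eval t := by simp
      have hb : (eval₂Hom (Polynomial.evalRingHom t) l) B = ∑ i, (ρ i).eval t * l i := by
        rw [hB, map_sum]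
        refine Finset.sum_congr rfl fun i _ => ?_
        simp
      rw [hc]
      by_cases hz : ρ₀.eval t = 0
      · rw [hz, zero_mul]
      · have hl := hvan t l (-(∑ i, (ρ i).eval t * l i) / ρ₀.eval t)
          (by field_simp; ring)
        rw [eval_opt, ← hP, Polynomial.eval₂_eq_sum_range, ← hJ] at hl
        have h2 : ∑ x ∈ Finset.range (J + 1), (eval₂Hom (Polynomial.evalRingHom t) l)
            (C ρ₀ ^ (J - x) * P.coeff x * (-B) ^ x) = ρ₀.eval t ^ J *
            ∑ i ∈ Finset.range (J + 1), (eval₂Hom (Polynomial.evalRingHom t) l) (P.coeff i) *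
              (-(∑ i, (ρ i).eval t * l i) / ρ₀.eval t) ^ i := by
          rw [Finset.mul_sum]
          refine Finset.sum_congr rfl fun j hj => ?_
          have hj' : j ≤ J := Nat.lt_succ_iff.1 (Finset.mem_range.1 hj)
          rw [map_mul, map_mul, map_pow, map_pow, map_neg, hc, hb, div_pow]
          have e : ρ₀.eval t ^ J = ρ₀.eval t ^ (J - j) * ρ₀.eval t ^ j := by
            rw [← pow_add, Nat.sub_add_cancel hj']
          rw [e]
          have hzj : ρ₀.eval t ^ j ≠ 0 := pow_ne_zero _ hz
          field_simp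
        rw [h2, hl, mul_zero, mul_zero]
    rcases mul_eq_zero.1 h1 with h | h
    · exact absurd h hC0
    · exact h
  rw [Finset.sum_range_succ, Nat.sub_self, pow_zero, one_mul] at hQ
  rcases Nat.eq_zero_or_pos J with hJ0 | hJ0
  · rw [hJ0] at hQ hlc
    rw [Finset.range_zero, Finset.sum_empty, zero_add, pow_zero, mul_one] at hQ
    exact hlc hQ
  -- divisibility
  have hdvd : (C ρ₀ : MvPolynomial (Fin n') (Polynomial ℂ)) ∣ P.coeff J * (-B) ^ J := by
    have h1 : (C ρ₀ : MvPolynomial (Fin n') (Polynomial ℂ)) ∣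
        ∑ j ∈ Finset.range J, C ρ₀ ^ (J - j) * P.coeff j * (-B) ^ j := by
      refine Finset.dvd_sum fun j hj => ?_
      have hj' : J - j ≠ 0 := Nat.sub_ne_zero_of_lt (Finset.mem_range.1 hj)
      exact ((dvd_pow_self _ hj').mul_right _).mul_right _
    have h2 : P.coeff J * (-B) ^ J =
        -∑ j ∈ Finset.range J, C ρ₀ ^ (J - j) * P.coeff j * (-B) ^ j :=
      eq_neg_of_add_eq_zero_right hQ
    rw [h2]
    exact (dvd_neg).2 h1
  have hrel : IsRelPrime (C ρ₀ : MvPolynomial (Fin n') (Polynomial ℂ)) ((-B) ^ J) := by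
    apply IsRelPrime.pow_right
    intro d hd hd'
    exact relprime ρ ρ₀ h0 hne hd ((dvd_neg).1 hd')
  have hdc : (C ρ₀ : MvPolynomial (Fin n') (Polynomial ℂ)) ∣ P.coeff J :=
    hrel.dvd_of_dvd_mul_right hdvd
  obtain ⟨m, hm⟩ := MvPolynomial.ne_zero_iff.1 hlc
  have hdm : ρ₀ ∣ coeff m (P.coeff J) := (C_dvd_iff_dvd_coeff _ _).1 hdc m
  have hco : coeff m (P.coeff J) = coeff (m.optionElim J) S := by
    rw [hP, optionEquivLeft_coeff_coeff]
  rw [hco] at hdm hm
  have hmem : m.optionElim J ∈ S.support := MvPolynomial.mem_support_iff.2 hm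
  rcases hsup _ hmem with h | h
  · rw [Finsupp.optionElim_apply_none] at h
    omega
  · have := Polynomial.natDegree_le_of_dvd hdm hm
    omega

end Pool.Agent.Lib.MP_776403_ag.SD.LI
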