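import Pool.Agent.Lib.MP_776403_ag.SD.LI.Spec

/-!
# (Fam) A family of lines which covers `X` (helper18)
-/

set_option autoImplicit false

open MvPolynomial

noncomputable section

namespace Pool.Agent.Lib.MP_776403_ag.SD.LI

namespace FamAux

variable {N : ℕ}

/-- The polynomial ring in the coordinates of two vectors `u, v`. -/
abbrev Rx (N : ℕ) : Type := MvPolynomial (Fin (N + 1) ⊕ Fin (N + 1)) ℂ

/-- The vanishing ideal of `Z = {(u, v) | ∀ s t, s u + t v ∈ zer I}`. -/
def va (I : Ideal (Sx N)) : Ideal (Rx N) where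
  carrier := {G | ∀ u v : Vx N, (∀ s t : ℂ, s • u + t • v ∈ zer I) →
    eval (Sum.elim u v) G = 0}
  zero_mem' := by
    intro u v _
    exact map_zero _
  add_mem' := by
    intro a b ha hb u v h
    rw [map_add, ha u v h, hb u v h, add_zero]
  smul_mem' := by
    intro c x hx u v h
    rw [smul_eq_mul, map_mul, hx u v h, mul_zero]

/-- The polynomial `F (s u + t v)`. -/
def sb (s t : ℂ) : Sx N →ₐ[ℂ] Rx N :=
  aeval fun i => C s * X (Sum.inl i) + C t * X (Sum.inr i)

theorem eval_sb (s t : ℂ) (u v : Vx N) (F : Sx N) :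
    eval (Sum.elim u v) (sb s t F) = eval (s • u + t • v) F := by
  have h : (eval (Sum.elim u v)).comp (sb (N := N) s t).toRingHom =
      (eval (s • u + t • v) : Sx N →+* ℂ) := by
    apply MvPolynomial.ringHom_ext
    · intro r
      simp [sb]
    · intro i
      simp [sb]
  exact RingHom.congr_fun h F

/-- `Z` is the zero set of its vanishing ideal. -/
theorem mem_Z (I : Ideal (Sx N)) (u v : Vx N)
    (h : ∀ G ∈ va I, eval (Sum.elim u v) G = 0) : ∀ s t : ℂ, s • u + t • v ∈ zer I := by
  intro s t F hF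
  rw [← eval_sb]
  apply h
  intro u' v' h'
  rw [eval_sb]
  exact h' s t F hF

/-- A point of `Z` is a zero of a minimal prime of the vanishing ideal. -/
theorem exists_min (I : Ideal (Sx N)) (u v : Vx N)
    (h : ∀ s t : ℂ, s • u + t • v ∈ zer I) :
    ∃ q ∈ (va I).minimalPrimes, ∀ F ∈ q, eval (Sum.elim u v) F = 0 := by
  have hp : (RingHom.ker (eval (Sum.elim u v) : Rx N →+* ℂ)).IsPrime := RingHom.ker_isPrime _
  have hle : va I ≤ RingHom.ker (eval (Sum.elim u v) : Rx N →+* ℂ) := by
    intro G hG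
    exact hG u v h
  obtain ⟨q, hq, hqle⟩ := Ideal.exists_minimalPrimes_le hle
  exact ⟨q, hq, fun F hF => hqle hF⟩

end FamAux

open FamAux in
/-- (Fam) A family of lines which covers `X`. -/
theorem tFam : S_Null → S_Fam := by
  intro hN N I hI hH hy hC
  by_contra hcon
  have key : ∀ q ∈ (va I).minimalPrimes, ∃ g : Sx N, g ∉ I ∧ ∀ u v : Vx N,
      (∀ F ∈ q, eval (Sum.elim u v) F = 0) → LinearIndependent ℂ ![u, v] → eval u g = 0 := by
    intro q hq
    by_contra hno
    apply hcon
    have hqp : q.IsPrime := hq.1.1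
    have hqle : va I ≤ q := hq.1.2
    refine ⟨q, hqp, ?_, ?_⟩
    · intro u v huv
      exact mem_Z I u v fun G hG => huv G (hqle hG)
    · intro g hg
      by_contra hno'
      apply hno
      refine ⟨g, hg, ?_⟩
      intro u v huv hli
      by_contra hne
      exact hno' ⟨u, v, huv, hli, hne⟩
  choose! g hgI hg0 using key
  have hfin : (va I).minimalPrimes.Finite :=
    Ideal.finite_minimalPrimes_of_isNoetherianRing _ _
  obtain ⟨y, hyz, hy0⟩ := hy
  obtain ⟨l, hl⟩ := Function.ne_iff.mp hy0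
  have hXl : (X l : Sx N) ∉ I := by
    intro hm
    apply hl
    have := hyz _ hm
    rw [eval_X] at this
    exact this
  have hprod : (∏ q ∈ hfin.toFinset, g q) ∉ I := by
    intro hm
    obtain ⟨q, hq, hqm⟩ := (Ideal.IsPrime.prod_mem_iff (hp := hI)).mp hm
    exact hgI q (hfin.mem_toFinset.mp hq) hqm
  have hG : X l * (∏ q ∈ hfin.toFinset, g q) ∉ I := by
    intro hm
    rcases hI.mem_or_mem hm with h | h
    · exact hXl h
    · exact hprod h
  have hex : ∃ u ∈ zer I, eval u (X l * (∏ q ∈ hfin.toFinset, g q)) ≠ 0 := by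
    by_contra hno
    apply hG
    apply (hN N I hI hH).1
    intro z hz
    by_contra hne
    exact hno ⟨z, hz, hne⟩
  obtain ⟨u, huz, hue⟩ := hex
  rw [map_mul, eval_X, map_prod] at hue
  have hu0 : u ≠ 0 := by
    intro h
    apply hue
    rw [h, Pi.zero_apply, zero_mul]
  obtain ⟨v, hli, hline⟩ := hC u huz hu0
  obtain ⟨q, hq, hqz⟩ := exists_min I u v hline
  have h0 := hg0 q hq u v hqz hli
  have hne : ∏ q ∈ hfin.toFinset, eval u (g q) ≠ 0 := right_ne_zero_of_mul hue
  exact (Finset.prod_ne_zero_iff.mp hne q (hfin.mem_toFinset.mpr hq)) h0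

end Pool.Agent.Lib.MP_776403_ag.SD.LI
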