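import Pool.Agent.Lib.MP_776403_ag.SD.LI.Spec

/-!
# Growth of binomials (`S_Gro`)

`(M + 1)^n ≤ n! binom (M + n) n ≤ (M + n)^n`, so the hypothesis gives
`A ≤ D ((M + r + n) / (M + 1))^n` for all `M`; let `M` tend to infinity.
-/

set_option autoImplicit false

open MvPolynomial

noncomputable section

namespace Pool.Agent.Lib.MP_776403_ag.SD.LI

namespace GroAux

theorem key (n A D r M : ℕ)
    (h : A * Nat.choose (M + n) n ≤ D * Nat.choose (M + r + n) n) :
    A * (M + 1) ^ n ≤ D * (M + r + n) ^ n := by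
  have h1 : (M + 1) ^ n ≤ n.factorial * Nat.choose (M + n) n := by
    rw [← Nat.ascFactorial_eq_factorial_mul_choose]
    exact Nat.pow_succ_le_ascFactorial (M + 1) n
  have h2 : n.factorial * Nat.choose (M + r + n) n ≤ (M + r + n) ^ n := by
    rw [← Nat.ascFactorial_eq_factorial_mul_choose]
    exact Nat.ascFactorial_le_pow_add (M + r) n
  calc A * (M + 1) ^ n ≤ A * (n.factorial * Nat.choose (M + n) n) := Nat.mul_le_mul_left _ h1
    _ = n.factorial * (A * Nat.choose (M + n) n) := by ring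
    _ ≤ n.factorial * (D * Nat.choose (M + r + n) n) := Nat.mul_le_mul_left _ h
    _ = D * (n.factorial * Nat.choose (M + r + n) n) := by ring
    _ ≤ D * (M + r + n) ^ n := Nat.mul_le_mul_left _ h2

theorem keyR (n A D r M : ℕ)
    (h : A * Nat.choose (M + n) n ≤ D * Nat.choose (M + r + n) n) :
    (A : ℝ) ≤ D * (1 + ((r : ℝ) + n) / ((M : ℝ) + 1)) ^ n := by
  have hk := key n A D r M h
  have hk' : (A : ℝ) * ((M : ℝ) + 1) ^ n ≤ D * ((M : ℝ) + r + n) ^ n := by exact_mod_cast hk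
  have hM : (0 : ℝ) < (M : ℝ) + 1 := by positivity
  have hp : (0 : ℝ) < ((M : ℝ) + 1) ^ n := by positivity
  have e : ((1 : ℝ) + ((r : ℝ) + n) / ((M : ℝ) + 1)) ^ n * ((M : ℝ) + 1) ^ n
      = ((M : ℝ) + 1 + (r + n)) ^ n := by
    rw [← mul_pow]
    congr 1
    field_simp
  have hle : ((M : ℝ) + r + n) ^ n ≤ ((M : ℝ) + 1 + (r + n)) ^ n := by
    apply pow_le_pow_left₀ (by positivity)
    linarith
  have hD : (0 : ℝ) ≤ D := by positivity
  refine le_of_mul_le_mul_right ?_ hp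
  calc (A : ℝ) * ((M : ℝ) + 1) ^ n ≤ D * ((M : ℝ) + r + n) ^ n := hk'
    _ ≤ D * ((M : ℝ) + 1 + (r + n)) ^ n := mul_le_mul_of_nonneg_left hle hD
    _ = D * (1 + ((r : ℝ) + n) / ((M : ℝ) + 1)) ^ n * ((M : ℝ) + 1) ^ n := by rw [mul_assoc, e]

end GroAux

theorem tGro : S_Gro := by
  intro n A D r h
  have hall : ∀ M : ℕ, (A : ℝ) ≤ D * (1 + ((r : ℝ) + n) / ((M : ℝ) + 1)) ^ n := by
    intro M
    apply GroAux.keyR
    have := h (M + r) (Nat.le_add_left r M)
    rwa [Nat.add_sub_cancel] at this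
  have hlim : Filter.Tendsto (fun M : ℕ => (D : ℝ) * (1 + ((r : ℝ) + n) / ((M : ℝ) + 1)) ^ n)
      Filter.atTop (nhds ((D : ℝ) * (1 + 0) ^ n)) := by
    apply Filter.Tendsto.const_mul
    apply Filter.Tendsto.pow
    apply Filter.Tendsto.const_add
    have := (tendsto_one_div_add_atTop_nhds_zero_nat (𝕜 := ℝ)).const_mul ((r : ℝ) + n)
    rw [mul_zero] at this
    refine this.congr fun M => ?_
    rw [mul_one_div]
  have hle : (A : ℝ) ≤ (D : ℝ) * (1 + 0) ^ n :=
    ge_of_tendsto' hlim hall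
  rw [add_zero, one_pow, mul_one] at hle
  exact_mod_cast hle

end Pool.Agent.Lib.MP_776403_ag.SD.LI
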