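import Pool.Agent.Lib.MP_776403_ag.SD.LI.Spec

/-!
# LEMMA I, module Ini: initial forms vanish on the tangent space
-/

set_option autoImplicit false

open MvPolynomial

noncomputable section

namespace Pool.Agent.Lib.MP_776403_ag.SD.LI

namespace IniAux

variable {N : ℕ}

/-- The field as an operator. -/
def DD (w : Fin (N + 1) → Sx N) (F : Sx N) : Sx N := ∑ i, pderiv i F * w i

theorem coeff_zero_lin (z τ : Vx N) (F : Sx N) : (lin z τ F).coeff 0 = eval z F := by
  rw [Polynomial.coeff_zero_eq_eval_zero, lin_eval]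
  simp

/-- The chain rule. -/
theorem chain (z τ : Vx N) (F : Sx N) : Polynomial.derivative (lin z τ F) =
    ∑ i, Polynomial.C (τ i) * lin z τ (pderiv i F) := by
  induction F using MvPolynomial.induction_on with
  | C a =>
    have h : lin z τ (C a) = Polynomial.C a := by
      unfold lin
      rw [aeval_C]
      rfl
    rw [h, Polynomial.derivative_C]
    symm
    refine Finset.sum_eq_zero fun i _ => ?_
    rw [pderiv_C, map_zero, mul_zero]
  | add p q hp hq =>
    simp only [map_add, hp, hq, mul_add, Finset.sum_add_distrib]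
  | mul_X p j hp =>
    have hX : lin z τ (X j) = Polynomial.C (z j) + Polynomial.C (τ j) * Polynomial.X := by
      unfold lin
      rw [aeval_X]
    have hd : Polynomial.derivative (lin z τ (X j)) = Polynomial.C (τ j) := by
      rw [hX]
      simp
    have h1 : ∀ i, Polynomial.C (τ i) * lin z τ (pderiv i (p * X j)) =
        (Polynomial.C (τ i) * lin z τ (pderiv i p)) * lin z τ (X j) +
          lin z τ p * (if i = j then Polynomial.C (τ j) else 0) := by
      intro i
      rw [pderiv_mul, pderiv_X, map_add, map_mul, map_mul]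
      by_cases h : i = j
      · subst h
        rw [Pi.single_eq_same, map_one, if_pos rfl]
        ring
      · rw [Pi.single_eq_of_ne' h, map_zero, if_neg h]
        ring
    rw [Finset.sum_congr rfl fun i _ => h1 i, Finset.sum_add_distrib, ← Finset.sum_mul, ← hp,
      ← Finset.mul_sum, Finset.sum_ite_eq' Finset.univ j, if_pos (Finset.mem_univ j), map_mul,
      Polynomial.derivative_mul, hd]

theorem pderiv_pow (z : Vx N) (i : Fin (N + 1)) : ∀ (k : ℕ) (G : Sx N), G ∈ (ptI z) ^ (k + 1) →
    pderiv i G ∈ (ptI z) ^ k := by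
  intro k
  induction k with
  | zero =>
    intro G _
    rw [pow_zero, Ideal.one_eq_top]
    exact Submodule.mem_top
  | succ k ih =>
    intro G hG
    rw [pow_succ] at hG
    refine Submodule.mul_induction_on hG (fun f hf g hg => ?_) (fun f g hf hg => ?_)
    · rw [pderiv_mul]
      refine add_mem ?_ (Ideal.mul_mem_right _ _ hf)
      rw [pow_succ]
      exact Ideal.mul_mem_mul (ih f hf) hg
    · rw [map_add]
      exact add_mem hf hg

theorem lin_pow (z τ : Vx N) {k : ℕ} {G : Sx N} (hG : G ∈ (ptI z) ^ k) :
    (Polynomial.X : Polynomial ℂ) ^ k ∣ lin z τ G := by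
  have h1 : ptI z ≤ (Ideal.span {(Polynomial.X : Polynomial ℂ)}).comap (lin z τ).toRingHom := by
    intro F hF
    rw [Ideal.mem_comap, Ideal.mem_span_singleton]
    refine Polynomial.X_dvd_iff.2 ?_
    have h2 : eval z F = 0 := hF
    rw [← h2, ← coeff_zero_lin z τ F]
    rfl
  have h2 := Ideal.pow_right_mono h1 k
  have h3 := h2.trans (Ideal.le_comap_pow (lin z τ).toRingHom k) hG
  rw [Ideal.mem_comap, Ideal.span_singleton_pow, Ideal.mem_span_singleton] at h3
  exact h3

theorem key (z τ : Vx N) (w : Fin (N + 1) → Sx N) (hw : ∀ i, eval z (w i) = τ i) :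
    ∀ (k : ℕ) (G : Sx N), G ∈ (ptI z) ^ k →
    eval z ((DD w)^[k] G) = (k.factorial : ℂ) * (lin z τ G).coeff k := by
  intro k
  induction k with
  | zero =>
    intro G _
    rw [Function.iterate_zero, id, coeff_zero_lin]
    simp
  | succ k ih =>
    intro G hG
    have hD : DD w G ∈ (ptI z) ^ k := by
      refine Ideal.sum_mem _ fun i _ => Ideal.mul_mem_right _ _ (pderiv_pow z i k G hG)
    rw [Function.iterate_succ_apply, ih _ hD]
    have h1 : (lin z τ (DD w G)).coeff k = ∑ i, τ i * (lin z τ (pderiv i G)).coeff k := by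
      unfold DD
      rw [map_sum, Polynomial.finsetSum_coeff]
      refine Finset.sum_congr rfl fun i _ => ?_
      obtain ⟨P, hP⟩ := lin_pow z τ (pderiv_pow z i k G hG)
      rw [map_mul, hP, mul_assoc]
      have e1 : ∀ Q : Polynomial ℂ, (Polynomial.X ^ k * Q).coeff k = Q.coeff 0 := by
        intro Q
        have := Polynomial.coeff_X_pow_mul Q k 0
        rwa [zero_add] at this
      rw [e1, e1, Polynomial.mul_coeff_zero, coeff_zero_lin, hw]
      ring
    have h2 : ∑ i, τ i * (lin z τ (pderiv i G)).coeff k =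
        (lin z τ G).coeff (k + 1) * ((k : ℂ) + 1) := by
      rw [← Polynomial.coeff_derivative, chain, Polynomial.finsetSum_coeff]
      exact Finset.sum_congr rfl fun i _ => (Polynomial.coeff_C_mul _).symm
    rw [h1, h2, Nat.factorial_succ]
    push_cast
    ring

end IniAux

open IniAux

theorem tIni : S_TS → S_Ini := by
  intro hTS N c I hI hhom hsm z hz hz0 k G hG hGk τ hτ
  obtain ⟨w, hw, hwz⟩ := (hTS N c I hI hhom hsm z hz hz0).2.2.1 τ hτ
  have h1 : ∀ j : ℕ, (DD w)^[j] G ∈ I := by
    intro j
    induction j with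
    | zero => exact hG
    | succ j ih =>
      rw [Function.iterate_succ_apply']
      exact hw _ ih
  have h2 := key z τ w hwz k G hGk
  rw [hz _ (h1 k)] at h2
  have h3 : (k.factorial : ℂ) ≠ 0 := by exact_mod_cast k.factorial_ne_zero
  exact (mul_eq_zero.1 h2.symm).resolve_left h3

end Pool.Agent.Lib.MP_776403_ag.SD.LI
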