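import Pool.Agent.Lib.MP_776403_ag.SD.LI.Spec

/-!
# LEMMA I, module Pb: not all lines meet all tangent spaces (assembly)
-/

set_option autoImplicit false

open MvPolynomial

noncomputable section

namespace Pool.Agent.Lib.MP_776403_ag.SD.LI

variable {N : ℕ}

namespace PbAux

/-- The Nullstellensatz for a prime ideal. -/
theorem mem_of_zeros {σ : Type} [Finite σ] {q : Ideal (MvPolynomial σ ℂ)} (hq : q.IsPrime)
    {p : MvPolynomial σ ℂ} (h : ∀ w : σ → ℂ, (∀ F ∈ q, eval w F = 0) → eval w p = 0) : p ∈ q := by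
  have h1 := IsPrime.vanishingIdeal_zeroLocus (K := ℂ) q
  rw [← h1, mem_vanishingIdeal_iff]
  intro w hw
  rw [mem_zeroLocus_iff] at hw
  have h2 := h w fun F hF => by
    have h3 := hw F hF
    rwa [aeval_eq_eval] at h3
  rwa [aeval_eq_eval]

theorem det_zero {a b p q r s : ℂ} (hab : a ≠ 0 ∨ b ≠ 0) (h1 : a * p + b * q = 0)
    (h2 : a * r + b * s = 0) : p * s - q * r = 0 := by
  rcases hab with h | h
  · have h3 : a * (p * s - q * r) = 0 := by linear_combination s * h1 - q * h2
    exact (mul_eq_zero.1 h3).resolve_left h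
  · have h3 : b * (p * s - q * r) = 0 := by linear_combination p * h2 - r * h1
    exact (mul_eq_zero.1 h3).resolve_left h

theorem eval_dd (a z : Vx N) (F : Sx N) : eval z (dd a F) = dp (grad F z) a := by
  simp only [dd, dp, grad, map_sum, map_mul, eval_C]
  exact Finset.sum_congr rfl fun i _ => mul_comm _ _

theorem dp_add (p x v : Vx N) (a b : ℂ) : dp p (a • x + b • v) = a * dp p x + b * dp p v := by
  simp only [dp, Pi.add_apply, Pi.smul_apply, smul_eq_mul, mul_add, Finset.sum_add_distrib,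
    Finset.mul_sum]
  congr 1 <;> exact Finset.sum_congr rfl fun i _ => by ring

theorem d1_C (F : Sx N) (z u : Vx N) : d1 F z u = dp (grad F z) u := rfl

section

variable {A A' : Type} [CommRing A] [Algebra ℂ A] [CommRing A'] [Algebra ℂ A']

theorem d1_map (φ : A →ₐ[ℂ] A') (F : Sx N) (z : Vx N) (a : Fin (N + 1) → A) :
    φ (d1 F z a) = d1 F z (fun i => φ (a i)) := by
  simp only [d1, map_sum, map_mul, AlgHom.commutes]

theorem d2_map (φ : A →ₐ[ℂ] A') (F : Sx N) (z : Vx N) (a b : Fin (N + 1) → A) :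
    φ (d2 F z a b) = d2 F z (fun i => φ (a i)) (fun i => φ (b i)) := by
  simp only [d2, map_sum, map_mul, AlgHom.commutes]

theorem yV_map (φ : A →ₐ[ℂ] A') (F : Sx N) (z : Vx N) (a b : Fin (N + 1) → A) :
    (fun i => φ (yV F z a b i)) = yV F z (fun i => φ (a i)) (fun i => φ (b i)) := by
  funext i
  simp only [yV, map_sub, map_mul, d1_map]

theorem wV_map (φ : A →ₐ[ℂ] A') (F : Sx N) (z : Vx N) (a b : Fin (N + 1) → A) :
    φ (wV F z a b) = wV F z (fun i => φ (a i)) (fun i => φ (b i)) := by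
  simp only [wV, map_sub, map_mul, d1_map, d2_map, yV_map]

end

theorem lf_hom (a : Vx N) : (lf a).IsHomogeneous 1 := by
  unfold lf
  refine IsHomogeneous.sum _ _ _ fun i _ => ?_
  have h := (isHomogeneous_C (Fin (N + 1)) (a i)).mul (isHomogeneous_X ℂ i)
  rwa [zero_add] at h

theorem lf_eval (a z : Vx N) : eval z (lf a) = dp a z := by
  simp only [lf, dp, map_sum, map_mul, eval_C, eval_X]

theorem lf_eq_zero {a : Vx N} (h : lf a = 0) : a = 0 := by
  funext i
  have h1 := lf_eval a (Pi.single i 1)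
  rw [h, map_zero] at h1
  rw [dp, Finset.sum_eq_single i] at h1
  · rw [Pi.single_eq_same, mul_one] at h1
    exact h1.symm
  · intro j _ hj
    rw [Pi.single_eq_of_ne hj, mul_zero]
  · intro h
    exact absurd (Finset.mem_univ i) h

end PbAux

open PbAux in
theorem tPb : S_Fam → S_CsA → S_CsB → S_Null → S_Pb := by
  intro hFam hCsA hCsB hNull N c I hc hI hom hnd hsm hcov g hg
  by_contra hcon
  push Not at hcon
  -- (0)
  have hy : ∃ y ∈ zer I, y ≠ 0 := by
    by_contra h
    push Not at h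
    have h1 : (X 0 : Sx N) ∈ I := (hNull N I hI hom).1 _ fun z hz => by
      rw [h z hz, eval_X, Pi.zero_apply]
    exact X_ne_zero (R := ℂ) (0 : Fin (N + 1)) (hnd _ h1 (isHomogeneous_X ℂ _))
  obtain ⟨l, hl⟩ : ∃ l, (X l : Sx N) ∉ I := by
    by_contra h
    push Not at h
    obtain ⟨y, hy1, hy2⟩ := hy
    refine hy2 (funext fun l => ?_)
    have h1 := hy1 _ (h l)
    rwa [eval_X] at h1
  have hbad : ∀ x v : Vx N, IsLine I x v → eval x g ≠ 0 → ∀ F ∈ I, ∀ G ∈ I,
      dd x F * dd v G - dd v F * dd x G ∈ I := by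
    intro x v hxv hxg F hF G hG
    have h1 : X l * (dd x F * dd v G - dd v F * dd x G) ∈ I := by
      refine (hNull N I hI hom).1 _ fun z hz => ?_
      rw [map_mul, eval_X]
      by_cases hz0 : z = 0
      · rw [hz0, Pi.zero_apply, zero_mul]
      · have h2 := hcon x v hxv hxg z hz hz0
        unfold Trv at h2
        push Not at h2
        obtain ⟨a, ha, ha0⟩ := h2
        rw [Fin.sum_univ_two] at ha
        have hab : a 0 ≠ 0 ∨ a 1 ≠ 0 := by
          by_contra h
          push Not at h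
          refine ha0 (funext fun i => ?_)
          fin_cases i
          · exact h.1
          · exact h.2
        have h3 : ∀ F' ∈ I, a 0 * dp (grad F' z) x + a 1 * dp (grad F' z) v = 0 := by
          intro F' hF'
          have h4 := ha F' hF'
          rwa [Matrix.cons_val_zero, Matrix.cons_val_one, dp_add] at h4
        rw [map_sub, map_mul, map_mul, eval_dd, eval_dd, eval_dd, eval_dd,
          det_zero hab (h3 F hF) (h3 G hG), mul_zero]
    exact (hI.mem_or_mem h1).resolve_left hl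
  -- (1)
  obtain ⟨q, hq, hqline, hqd⟩ := hFam N I hI hom hy hcov
  have := hq
  let R := MvPolynomial (Fin (N + 1) ⊕ Fin (N + 1)) ℂ
  let L := FractionRing (R ⧸ q)
  let φ : R →ₐ[ℂ] L := (IsScalarTower.toAlgHom ℂ (R ⧸ q) L).comp (Ideal.Quotient.mkₐ ℂ q)
  have hφ : ∀ p : R, φ p = 0 → p ∈ q := by
    intro p hp
    have h1 : algebraMap (R ⧸ q) L (Ideal.Quotient.mk q p) = 0 := hp
    rw [FaithfulSMul.algebraMap_eq_zero_iff] at h1
    exact Ideal.Quotient.eq_zero_iff_mem.1 h1
  have hφ' : ∀ p ∈ q, φ p = 0 := by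
    intro p hp
    change algebraMap (R ⧸ q) L (Ideal.Quotient.mk q p) = 0
    rw [Ideal.Quotient.eq_zero_iff_mem.2 hp, map_zero]
  let U : Fin (N + 1) → R := fun i => X (Sum.inl i)
  let V : Fin (N + 1) → R := fun i => X (Sum.inr i)
  let u : Fin (N + 1) → L := fun i => φ (U i)
  let v : Fin (N + 1) → L := fun i => φ (V i)
  have hev : ∀ w : (Fin (N + 1) ⊕ Fin (N + 1)) → ℂ, ∃ u₀ v₀ : Vx N, w = Sum.elim u₀ v₀ := by
    intro w
    exact ⟨fun i => w (Sum.inl i), fun i => w (Sum.inr i), by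
      funext s
      rcases s with s | s <;> rfl⟩
  have hren : ∀ (u₀ v₀ : Vx N) (F : Sx N),
      eval (Sum.elim u₀ v₀) (rename Sum.inl F : R) = eval u₀ F := by
    intro u₀ v₀ F
    rw [eval_rename]
    rfl
  have hlf : ∀ a : Vx N, a ≠ 0 → lf a ∉ I := fun a ha h =>
    ha (lf_eq_zero (hnd _ h (lf_hom a)))
  have hu : LinearIndependent ℂ u := by
    rw [Fintype.linearIndependent_iff]
    intro a ha
    by_contra h
    have ha0 : (a : Vx N) ≠ 0 := fun h0 => h fun i => congrFun h0 i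
    obtain ⟨u₀, v₀, h1, -, h2⟩ := hqd _ (hlf a ha0)
    have h3 : φ (rename Sum.inl (lf a)) = 0 := by
      rw [← ha]
      simp only [lf, map_sum, map_mul, rename_C, rename_X]
      refine Finset.sum_congr rfl fun i _ => ?_
      rw [Algebra.smul_def]
      exact congrArg (· * u i) (φ.commutes (a i))
    have h4 := h1 _ (hφ _ h3)
    rw [hren] at h4
    exact h2 h4
  -- the evaluation as an algebra homomorphism
  have hevA : ∀ (u₀ v₀ : Vx N) (p : R), (aeval (Sum.elim u₀ v₀) : R →ₐ[ℂ] ℂ) p =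
      eval (Sum.elim u₀ v₀) p := fun u₀ v₀ p => by rw [aeval_eq_eval]
  have hU : ∀ u₀ v₀ : Vx N, (fun i => (aeval (Sum.elim u₀ v₀) : R →ₐ[ℂ] ℂ) (U i)) = u₀ :=
    fun u₀ v₀ => funext fun i => by
      change (aeval (Sum.elim u₀ v₀) : R →ₐ[ℂ] ℂ) (X (Sum.inl i)) = u₀ i
      rw [aeval_X]
      rfl
  have hV : ∀ u₀ v₀ : Vx N, (fun i => (aeval (Sum.elim u₀ v₀) : R →ₐ[ℂ] ℂ) (V i)) = v₀ :=
    fun u₀ v₀ => funext fun i => by
      change (aeval (Sum.elim u₀ v₀) : R →ₐ[ℂ] ℂ) (X (Sum.inr i)) = v₀ i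
      rw [aeval_X]
      rfl
  -- (2)
  have hgq : (rename Sum.inl g : R) ∉ q := by
    intro h
    obtain ⟨u₀, v₀, h1, -, h2⟩ := hqd g hg
    have h3 := h1 _ h
    rw [hren] at h3
    exact h2 h3
  have hrel : ∀ z ∈ zer I, ∀ F ∈ I, ∀ G ∈ I, d1 F z u * d1 G z v = d1 F z v * d1 G z u := by
    intro z hz F hF G hG
    have h1 : (rename Sum.inl g : R) * (d1 F z U * d1 G z V - d1 F z V * d1 G z U) ∈ q := by
      refine mem_of_zeros hq fun w hw => ?_
      obtain ⟨u₀, v₀, rfl⟩ := hev w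
      rw [map_mul, hren]
      by_cases hg0 : eval u₀ g = 0
      · rw [hg0, zero_mul]
      · have h2 : eval (Sum.elim u₀ v₀) (d1 F z U * d1 G z V - d1 F z V * d1 G z U) =
            dp (grad F z) u₀ * dp (grad G z) v₀ - dp (grad F z) v₀ * dp (grad G z) u₀ := by
          rw [← hevA, map_sub, map_mul, map_mul, d1_map, d1_map, d1_map, d1_map, hU, hV,
            d1_C, d1_C, d1_C, d1_C]
        rw [h2]
        by_cases hli : LinearIndependent ℂ ![u₀, v₀]
        · have h3 := hz _ (hbad u₀ v₀ ⟨hli, hqline u₀ v₀ hw⟩ hg0 F hF G hG)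
          rw [map_sub, map_mul, map_mul, eval_dd, eval_dd, eval_dd, eval_dd] at h3
          rw [h3, mul_zero]
        · rw [LinearIndependent.pair_iff] at hli
          push Not at hli
          obtain ⟨a, b, hab, h3⟩ := hli
          have hab' : a ≠ 0 ∨ b ≠ 0 := by
            by_cases ha : a = 0
            · exact Or.inr (h3 ha)
            · exact Or.inl ha
          have h4 : ∀ F' : Sx N, a * dp (grad F' z) u₀ + b * dp (grad F' z) v₀ = 0 := by
            intro F'
            rw [← dp_add, hab]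
            simp [dp]
          rw [det_zero hab' (h4 F) (h4 G), mul_zero]
    have h2 := hφ' _ ((hq.mem_or_mem h1).resolve_left hgq)
    rw [map_sub, map_mul, map_mul, d1_map, d1_map, d1_map, d1_map, sub_eq_zero] at h2
    exact h2
  -- (3)
  obtain ⟨z₁, hz₁, hz₁0⟩ := hy
  obtain ⟨G, hG, hGz⟩ : ∃ G ∈ I, grad G z₁ ≠ 0 := by
    obtain ⟨F, f, h, e, hF, -, -, hli, -⟩ := hsm z₁ hz₁ hz₁0
    have h0 : 0 < c := by omega
    have h1 : grad (F ⟨0, h0⟩) z₁ ≠ 0 := hli.ne_zero (⟨0, h0⟩ : Fin c)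
    exact ⟨F ⟨0, h0⟩, (hF ⟨0, h0⟩).1, h1⟩
  have hGu : d1 G z₁ u ≠ 0 := by
    intro h
    have h5 : ∑ i, grad G z₁ i • u i = 0 := by
      rw [← h, d1]
      refine Finset.sum_congr rfl fun i _ => ?_
      rw [Algebra.smul_def, grad]
    have h6 := (Fintype.linearIndependent_iff.1 hu) (grad G z₁) h5
    refine hGz ?_
    funext i
    rw [Pi.zero_apply]
    exact h6 i
  -- (4)
  by_cases hW : ∃ z ∈ zer I, wV G z u v ≠ 0
  · -- the generators of `L`
    let e := Fintype.equivFin (Fin (N + 1) ⊕ Fin (N + 1))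
    let x : Fin (Fintype.card (Fin (N + 1) ⊕ Fin (N + 1))) → L := fun k => φ (X (e.symm k))
    have hx : IntermediateField.adjoin ℂ (Set.range x) = ⊤ := by
      have hp : ∀ p : R, φ p ∈ IntermediateField.adjoin ℂ (Set.range x) := by
        intro p
        induction p using MvPolynomial.induction_on with
        | C a =>
          have h1 : φ (C a) = algebraMap ℂ L a := φ.commutes a
          rw [h1]
          exact IntermediateField.algebraMap_mem _ a
        | add p p' hp hp' =>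
          rw [map_add]
          exact add_mem hp hp'
        | mul_X p s hp =>
          rw [map_mul]
          refine mul_mem hp (IntermediateField.subset_adjoin _ _ ⟨e s, ?_⟩)
          change φ (X (e.symm (e s))) = _
          rw [Equiv.symm_apply_apply]
      rw [eq_top_iff]
      intro y _
      obtain ⟨b, b', hb', rfl⟩ := IsFractionRing.div_surjective (A := R ⧸ q) y
      obtain ⟨p, rfl⟩ := Ideal.Quotient.mk_surjective b
      obtain ⟨p', rfl⟩ := Ideal.Quotient.mk_surjective b'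
      exact div_mem (hp p) (hp p')
    exact hCsB N c I hc hI hom hnd hsm ⟨z₁, hz₁, hz₁0⟩ L _ x hx u v hu hrel G hG
      ⟨z₁, hz₁, hGu⟩ hW
  · push Not at hW
    have hWq : ∀ z ∈ zer I, wV G z U V ∈ q := by
      intro z hz
      refine hφ _ ?_
      rw [wV_map]
      exact hW z hz
    have h1 : g * lf (grad G z₁) ∉ I := fun h =>
      (hI.mem_or_mem h).elim hg (hlf _ hGz)
    obtain ⟨u₀, v₀, h2, h3, h4⟩ := hqd _ h1
    rw [map_mul, lf_eval] at h4
    have h5 : eval u₀ g ≠ 0 := left_ne_zero_of_mul h4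
    have h6 : dp (grad G z₁) u₀ ≠ 0 := right_ne_zero_of_mul h4
    refine hCsA N c I hc hI hom hnd hsm ⟨z₁, hz₁, hz₁0⟩ g hg hbad u₀ v₀
      ⟨h3, hqline u₀ v₀ h2⟩ h5 G hG ⟨z₁, hz₁, h6⟩ fun z hz => ?_
    have h7 := h2 _ (hWq z hz)
    rw [← hevA, wV_map, hU, hV] at h7
    exact h7

end Pool.Agent.Lib.MP_776403_ag.SD.LI
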