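import Pool.Agent.Lib.MP_776403_ag.SD.LI.Spec
import Pool.Agent.Lib.MP_776403_ag.SD.Z.Fin

/-!
# LEMMA I: the theorem on small degrees without a hypothesis on lines
-/

set_option autoImplicit false

noncomputable section

namespace Pool.Agent.Lib.MP_776403_ag.SD.LI

/-- The theorem on small degrees. -/
theorem tQS (hClG : S_ClG) (hPb : S_Pb) (hPa : S_Pa) : S_QS := by
  intro N n c s I h hN hc hI hIh hnd hS h0 hHP hReg hr hD
  have hne : ∃ y ∈ zer I, y ≠ 0 := by
    by_contra hcon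
    push Not at hcon
    have h1 : (MvPolynomial.X 0 : Sx N) ∈ I := by
      refine (tNull N I hI hIh).1 (MvPolynomial.X 0) (fun z hz => ?_)
      rw [hcon z hz]
      simp
    have h2 := hnd _ h1 (MvPolynomial.isHomogeneous_X ℂ 0)
    exact MvPolynomial.X_ne_zero (R := ℂ) (0 : Fin (N + 1)) h2
  rcases Nat.lt_or_ge c 2 with hc1 | hc2
  · exact wQ N n c s I h hN hc hI hIh hnd hS h0 hHP hReg (Or.inr (Or.inl ⟨hr, by omega⟩))
  have hgr := gr_le N n c s I h hN hI hIh hne hReg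
  have hcov : Covered I := mCovH N c _ I (by omega) hI hIh hnd hS hgr
  obtain ⟨k, rfl⟩ : ∃ k, c = k + 1 := ⟨c - 1, by omega⟩
  obtain ⟨n', rfl⟩ : ∃ n', n = n' + 1 := ⟨n - 1, by omega⟩
  have hgr' : ∀ m, Module.finrank ℂ (gr I m) ≤
      (∑ i ∈ Finset.range (s + 1), h i) * Nat.choose (m + (n' + 1)) (n' + 1) := by
    intro m
    have := hgr m
    have e : N - (k + 1) = n' + 1 := by omega
    rwa [e] at this
  refine wRL N (n' + 1) (k + 1) s I h hN hc hI hIh hnd hS h0 hHP hReg ?_ hr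
  intro y hy hy0
  obtain ⟨P, p1, p2, -, p4, -, p6⟩ := hClG N (k + 1) I hI hIh (fun g hg => by
    obtain ⟨x, v, hl, hgx, hz⟩ := hPb N (k + 1) I hc2 hI hIh hnd hS hcov g hg
    obtain ⟨b, hb, hdeg⟩ := hPa N k n' (∑ i ∈ Finset.range (s + 1), h i) I (by omega) (by omega)
      hI hIh hnd hS hgr' x v hl hz
    obtain ⟨P, q1, q2, -, q4, -, -, q7⟩ := H.mLineE N (k + 1) b I hI hIh hS x v hl (by
      unfold H.DegLe
      unfold DegEq at hdeg
      filter_upwards [hdeg] with m hm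
      omega)
    have hx0 : x ≠ 0 := hl.1.ne_zero 0
    have hxI : x ∈ zer I := by
      have := hl.2 1 0
      rwa [one_smul, zero_smul, add_zero] at this
    exact ⟨x, hxI, hx0, hgx, P, q1, q2, tMono _ P _ _ (by omega) q4, q7⟩) y hy hy0
  exact ⟨P, p1, p2, p4, p6⟩

end Pool.Agent.Lib.MP_776403_ag.SD.LI
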