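import Pool.Agent.Lib.MP_776403_ag.SD.LI.Spec

/-! # LEMMA I: polynomials with coefficients in a field `L ⊇ ℂ` vanishing on `X` -/

set_option autoImplicit false

open MvPolynomial

noncomputable section

namespace Pool.Agent.Lib.MP_776403_ag.SD.LI

namespace VanAux

variable {N : ℕ} {L : Type} [Field L] [Algebra ℂ L]

/-- the polynomial with the coefficients `lam (coeff m P)` -/
def co (lam : L →ₗ[ℂ] ℂ) (P : MvPolynomial (Fin (N + 1)) L) : Sx N :=
  ∑ m ∈ P.support, monomial m (lam (coeff m P))

theorem coeff_co (lam : L →ₗ[ℂ] ℂ) (P : MvPolynomial (Fin (N + 1)) L) (m : Fin (N + 1) →₀ ℕ) :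
    coeff m (co lam P) = lam (coeff m P) := by
  classical
  unfold co
  rw [coeff_sum]
  simp only [coeff_monomial]
  rw [Finset.sum_ite_eq' P.support m fun m => lam (coeff m P)]
  split_ifs with h
  · rfl
  · rw [notMem_support_iff.1 h, map_zero]

theorem eval_co (lam : L →ₗ[ℂ] ℂ) (P : MvPolynomial (Fin (N + 1)) L) (z : Vx N) :
    eval z (co lam P) = lam (eval (fun i => algebraMap ℂ L (z i)) P) := by
  unfold co
  rw [map_sum, eval_eq', map_sum]
  refine Finset.sum_congr rfl fun m _ => ?_
  rw [eval_monomial, Finsupp.prod_fintype _ _ (fun i => pow_zero _)]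
  have h : coeff m P * ∏ i, algebraMap ℂ L (z i) ^ m i = (∏ i, z i ^ m i) • coeff m P := by
    rw [Algebra.smul_def, map_prod, mul_comm]
    simp only [map_pow]
  rw [h, map_smul, smul_eq_mul, mul_comm]

/-- the coordinates of a polynomial -/
theorem decomp (P : MvPolynomial (Fin (N + 1)) L) :
    ∃ (ι : Type) (B : Module.Basis ι ℂ L) (S : Finset ι),
      P = ∑ e ∈ S, C (B e) * map (algebraMap ℂ L) (co (B.coord e) P) := by
  classical
  set B := Module.Basis.ofVectorSpace ℂ L with hB
  refine ⟨_, B, P.support.biUnion fun m => (B.repr (coeff m P)).support, ?_⟩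
  ext m
  rw [coeff_sum]
  simp only [coeff_C_mul, coeff_map, coeff_co, Module.Basis.coord_apply]
  by_cases hm : m ∈ P.support
  · have h1 := B.linearCombination_repr (coeff m P)
    rw [Finsupp.linearCombination_apply, Finsupp.sum] at h1
    conv_lhs => rw [← h1]
    have h2 : (B.repr (coeff m P)).support ⊆
        P.support.biUnion fun m => (B.repr (coeff m P)).support :=
      Finset.subset_biUnion_of_mem (fun m => (B.repr (coeff m P)).support) hm
    rw [Finset.sum_subset h2]
    · refine Finset.sum_congr rfl fun e _ => ?_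
      rw [Algebra.smul_def, mul_comm]
    · intro e _ he
      rw [Finsupp.notMem_support_iff.1 he, zero_smul]
  · rw [notMem_support_iff.1 hm]
    simp

end VanAux

open VanAux in
/-- polynomials with coefficients in `L` vanishing on `X` -/
theorem tVan : S_Null → S_Van := by
  intro hNull N I hI hH L _ _
  obtain ⟨hN, -⟩ := hNull N I hI hH
  constructor
  · intro P P' h
    by_contra hcon
    push Not at hcon
    obtain ⟨h1, h2⟩ := hcon
    unfold Van at h1 h2
    push Not at h1 h2
    obtain ⟨z₁, hz₁, hP⟩ := h1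
    obtain ⟨z₂, hz₂, hP'⟩ := h2
    have d1 : ∃ lam : Module.Dual ℂ L, lam (eval (fun i => algebraMap ℂ L (z₁ i)) P) ≠ 0 := by
      by_contra hc
      push Not at hc
      exact hP ((Module.forall_dual_apply_eq_zero_iff ℂ _).1 hc)
    have d2 : ∃ lam : Module.Dual ℂ L, lam (eval (fun i => algebraMap ℂ L (z₂ i)) P') ≠ 0 := by
      by_contra hc
      push Not at hc
      exact hP' ((Module.forall_dual_apply_eq_zero_iff ℂ _).1 hc)
    obtain ⟨lam, hlam⟩ := d1
    obtain ⟨lam', hlam'⟩ := d2
    have n1 : co lam P ∉ I := fun hm => hlam (by rw [← eval_co]; exact hz₁ _ hm)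
    have n2 : co lam' P' ∉ I := fun hm => hlam' (by rw [← eval_co]; exact hz₂ _ hm)
    have n3 : co lam P * co lam' P' ∉ I := fun hm => (hI.mem_or_mem hm).elim n1 n2
    apply n3
    refine hN _ fun z hz => ?_
    have h3 := h z hz
    rw [map_mul, mul_eq_zero] at h3
    rw [map_mul, eval_co, eval_co]
    rcases h3 with h3 | h3
    · rw [h3, map_zero, zero_mul]
    · rw [h3, map_zero, mul_zero]
  · intro b hb P hP z hz
    obtain ⟨ι, B, S, hS⟩ := decomp P
    have hmem : ∀ e, co (B.coord e) P ∈ I := fun e => hN _ fun y hy => by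
      rw [eval_co, hP y hy, map_zero]
    have h1 : ∑ i, b i * pderiv i P = ∑ e ∈ S, C (B e) *
        ∑ i, b i * map (algebraMap ℂ L) (pderiv i (co (B.coord e) P)) := by
      have h2 : ∀ i, pderiv i P = ∑ e ∈ S, C (B e) *
          map (algebraMap ℂ L) (pderiv i (co (B.coord e) P)) := by
        intro i
        conv_lhs => rw [hS]
        rw [map_sum]
        refine Finset.sum_congr rfl fun e _ => ?_
        rw [pderiv_C_mul, pderiv_map]
      simp only [h2, Finset.mul_sum]
      rw [Finset.sum_comm]
      refine Finset.sum_congr rfl fun e _ => Finset.sum_congr rfl fun i _ => ?_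
      ring
    rw [h1, map_sum]
    refine Finset.sum_eq_zero fun e _ => ?_
    rw [map_mul, hb _ (hmem e) z hz, mul_zero]

end Pool.Agent.Lib.MP_776403_ag.SD.LI
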